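import Mathlib.SetTheory.Cardinal.Aleph
import Mathlib.SetTheory.Cardinal.Continuum
import Mathlib.Order.Antichain

set_option autoImplicit false

/-!
# Generic chains

In a preorder in which every descending sequence has a lower bound, any family of at most `ℵ₁`
dense sets is met by a chain.
-/

namespace Pool.Agent.Lib.MP_2a01b0_gt

open Cardinal

theorem countable_lower_bound {P : Type*} [Preorder P]
    (hσ : ∀ f : ℕ → P, Antitone f → ∃ q, ∀ n, q ≤ f n)
    {ι : Type*} [LinearOrder ι] {s : Set ι} (hs : s.Countable) (hne : s.Nonempty) (p : ι → P)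
    (hp : ∀ i ∈ s, ∀ j ∈ s, i ≤ j → p j ≤ p i) : ∃ q, ∀ i ∈ s, q ≤ p i := by
  obtain ⟨f, hf⟩ := hs.exists_eq_range hne
  let g : ℕ → ι := fun n => Nat.rec (f 0) (fun n a => max a (f (n + 1))) n
  have hg : ∀ n, g (n + 1) = max (g n) (f (n + 1)) := fun n => rfl
  have hfs : ∀ n, f n ∈ s := fun n => by rw [hf]; exact ⟨n, rfl⟩
  have hgs : ∀ n, g n ∈ s := by
    intro n
    induction n with
    | zero => exact hfs 0
    | succ n ih =>
      rw [hg]
      rcases max_choice (g n) (f (n + 1)) with h | h <;> rw [h]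
      · exact ih
      · exact hfs _
  have hfg : ∀ n, f n ≤ g n := by
    intro n
    cases n with
    | zero => exact le_rfl
    | succ n => rw [hg]; exact le_max_right _ _
  have hmono : Monotone g := monotone_nat_of_le_succ fun n => by rw [hg]; exact le_max_left _ _
  obtain ⟨q, hq⟩ := hσ (fun n => p (g n)) fun a b hab => hp _ (hgs a) _ (hgs b) (hmono hab)
  refine ⟨q, fun i hi => ?_⟩
  rw [hf] at hi
  obtain ⟨n, rfl⟩ := hi
  exact (hq n).trans (hp _ (hfs n) _ (hgs n) (hfg n))

theorem exists_generic_aux {P : Type*} [Preorder P] [Nonempty P]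
    (hσ : ∀ f : ℕ → P, Antitone f → ∃ q, ∀ n, q ≤ f n)
    {ι : Type*} [LinearOrder ι] [WellFoundedLT ι] (hι : ∀ i : ι, (Set.Iio i).Countable)
    (D : ι → Set P) (hD : ∀ i p, ∃ q ∈ D i, q ≤ p) :
    ∃ p : ι → P, (∀ i, p i ∈ D i) ∧ Antitone p := by
  classical
  let F : ∀ i : ι, (∀ j : ι, j < i → P) → P := fun i f =>
    if h : ∃ q ∈ D i, ∀ j (hj : j < i), q ≤ f j hj then h.choose else Classical.arbitrary P
  let p : ι → P := WellFoundedLT.fix F
  have hp : ∀ i, p i = F i fun j _ => p j := fun i => WellFoundedLT.fix_eq F i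
  have key : ∀ i, p i ∈ D i ∧ ∀ j, j < i → p i ≤ p j := by
    intro i
    induction i using WellFoundedLT.induction with
    | ind i ih =>
      have h : ∃ q ∈ D i, ∀ j (_ : j < i), q ≤ p j := by
        rcases (Set.Iio i).eq_empty_or_nonempty with he | hne
        · obtain ⟨q, hq, _⟩ := hD i (Classical.arbitrary P)
          refine ⟨q, hq, fun j hj => ?_⟩
          have : j ∈ Set.Iio i := hj
          rw [he] at this
          exact absurd this (Set.notMem_empty j)
        · obtain ⟨q, hq⟩ := countable_lower_bound hσ (hι i) hne p fun a _ b hb hab => by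
            rcases hab.lt_or_eq with h | h
            · exact (ih b hb).2 a h
            · rw [h]
          obtain ⟨q', hq', hle⟩ := hD i q
          exact ⟨q', hq', fun j hj => hle.trans (hq j hj)⟩
      rw [hp i]
      simp only [F, dif_pos h]
      exact h.choose_spec
  refine ⟨p, fun i => (key i).1, fun a b hab => ?_⟩
  rcases hab.lt_or_eq with h | h
  · exact (key b).2 a h
  · rw [h]

/-- a chain meeting at most `ℵ₁` dense sets -/
theorem exists_generic {P : Type*} [Preorder P] [Nonempty P]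
    (hσ : ∀ f : ℕ → P, Antitone f → ∃ q, ∀ n, q ≤ f n)
    {ι : Type} [Nonempty ι] (hι : #ι ≤ ℵ₁)
    (D : ι → Set P) (hD : ∀ i p, ∃ q ∈ D i, q ≤ p) :
    ∃ G : Set P, (∀ i, ∃ p ∈ G, p ∈ D i) ∧ ∀ p ∈ G, ∀ q ∈ G, p ≤ q ∨ q ≤ p := by
  let T : Type := (ord (ℵ₁ : Cardinal.{0})).ToType
  have hT : #T = ℵ₁ := by simp [T]
  have hord : ord #T = Ordinal.type (α := T) (· < ·) := by
    rw [hT]; exact (Ordinal.type_toType _).symm
  have hc : ∀ i : T, (Set.Iio i).Countable := by
    intro i
    rw [← le_aleph0_iff_set_countable, ← lt_aleph_one_iff]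
    have := mk_Iio_lt i hord
    rwa [hT] at this
  have hle : #ι ≤ #T := by rw [hT]; exact hι
  obtain ⟨f⟩ := hle
  obtain ⟨s, hs⟩ : ∃ s : T → ι, Function.Surjective s :=
    ⟨Function.invFun f, Function.invFun_surjective f.injective⟩
  obtain ⟨p, hp, hanti⟩ := exists_generic_aux hσ hc (fun a => D (s a)) fun a q => hD (s a) q
  refine ⟨Set.range p, fun i => ?_, ?_⟩
  · obtain ⟨a, rfl⟩ := hs i
    exact ⟨p a, ⟨a, rfl⟩, hp a⟩
  · rintro _ ⟨a, rfl⟩ _ ⟨b, rfl⟩
    rcases le_total a b with h | h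
    · exact Or.inr (hanti h)
    · exact Or.inl (hanti h)

end Pool.Agent.Lib.MP_2a01b0_gt
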