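import Pool.Agent.Lib.MP_2a01b0_gt.Core
import Pool.Agent.Lib.MP_2a01b0_gt.Generic

set_option autoImplicit false

/-!
# The partial order of conditions and its dense sets
-/

namespace Pool.Agent.Lib.MP_2a01b0_gt

open PiNat Cardinal

/-- conditions: a Laver type condition and a countable set of points -/
structure Cnd where
  A : List ℕ → Set ℕ
  hA : ∀ t, (A t).Infinite
  Z : Set (ℕ → ℕ)
  hZ : Z.Countable

theorem star_mono {A B : List ℕ → Set ℕ} (h : {t | ¬ A t ⊆ B t}.Finite) : star A ⊆ star B := by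
  rintro y ⟨n, hn⟩
  obtain ⟨L, hL⟩ := (h.image List.length).bddAbove
  refine ⟨max n (L + 1), fun i hi => ?_⟩
  have h1 : A (res y i) ⊆ B (res y i) := by
    by_contra hcon
    have := hL ⟨res y i, hcon, rfl⟩
    rw [res_length] at this
    omega
  exact h1 (hn i (le_trans (le_max_left _ _) hi))

instance : Preorder Cnd where
  le p q := {t | ¬ p.A t ⊆ q.A t}.Finite ∧ q.Z ⊆ p.Z ∧ p.Z \ q.Z ⊆ star q.A
  le_refl p := by
    refine ⟨Set.Finite.subset Set.finite_empty fun t ht => ht le_rfl, le_rfl, ?_⟩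
    rintro y ⟨h1, h2⟩
    exact absurd h1 h2
  le_trans p q r hpq hqr := by
    refine ⟨(hpq.1.union hqr.1).subset ?_, hqr.2.1.trans hpq.2.1, ?_⟩
    · intro t ht
      by_contra hcon
      simp only [Set.mem_union, Set.mem_ofPred_eq, not_or, not_not] at hcon
      exact ht (hcon.1.trans hcon.2)
    · rintro y ⟨h1, h2⟩
      by_cases h3 : y ∈ q.Z
      · exact hqr.2.2 ⟨h3, h2⟩
      · exact star_mono hqr.1 (hpq.2.2 ⟨h1, h3⟩)

theorem Cnd.le_def (p q : Cnd) : p ≤ q ↔ {t | ¬ p.A t ⊆ q.A t}.Finite ∧ q.Z ⊆ p.Z ∧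
    p.Z \ q.Z ⊆ star q.A := Iff.rfl

instance : Nonempty Cnd := ⟨⟨fun _ => Set.univ, fun _ => Set.infinite_univ, ∅, Set.countable_empty⟩⟩

theorem cnd_sigma (f : ℕ → Cnd) (hf : Antitone f) : ∃ q, ∀ n, q ≤ f n := by
  classical
  let P : List ℕ → ℕ → Prop := fun t n => ∀ m, m ≤ n → (f n).A t ⊆ (f m).A t
  let N : List ℕ → ℕ := fun t => Nat.findGreatest (P t) (Encodable.encode t)
  have hPN : ∀ t, P t (N t) := by
    intro t
    refine Nat.findGreatest_spec (P := P t) (Nat.zero_le _) ?_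
    intro m hm
    rw [Nat.le_zero.1 hm]
  refine ⟨⟨fun t => (f (N t)).A t, fun t => (f (N t)).hA t, ⋃ n, (f n).Z,
    Set.countable_iUnion fun n => (f n).hZ⟩, fun n => ⟨?_, ?_, ?_⟩⟩
  · have h1 : {t | ¬ P t n}.Finite := by
      refine ((Set.finite_le_nat n).biUnion (t := fun m => {t | ¬ (f n).A t ⊆ (f m).A t}) ?_).subset
        ?_
      · intro m hm
        exact (hf hm).1
      · intro t ht
        simp only [P, Set.mem_ofPred_eq, not_forall] at ht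
        obtain ⟨m, hm, hmt⟩ := ht
        simp only [Set.mem_iUnion]
        exact ⟨m, hm, hmt⟩
    have h2 : {t : List ℕ | Encodable.encode t < n}.Finite :=
      (Set.finite_lt_nat n).preimage (Encodable.encode_injective.injOn)
    refine (h1.union h2).subset ?_
    intro t ht
    by_contra hcon
    simp only [Set.mem_union, Set.mem_ofPred_eq, not_or, not_not, not_lt] at hcon
    refine ht ?_
    have h3 : n ≤ N t := Nat.le_findGreatest hcon.2 hcon.1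
    exact hPN t n h3
  · exact Set.subset_iUnion (fun n => (f n).Z) n
  · rintro y ⟨h1, h2⟩
    obtain ⟨m, hm⟩ := Set.mem_iUnion.1 h1
    rcases le_total m n with h | h
    · exact absurd ((hf h).2.1 hm) h2
    · exact (hf h).2.2 ⟨hm, h2⟩

/-- open sets coded by sets of nodes -/
def OS (S : Set (List ℕ)) : Set (ℕ → ℕ) := {y | ∃ n, res y n ∈ S}

theorem isO_OS (S : Set (List ℕ)) : IsO (OS S) := by
  rintro y ⟨n, hn⟩
  exact ⟨n, fun z hz => ⟨n, by rw [hz]; exact hn⟩⟩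

theorem exists_OS {U : Set (ℕ → ℕ)} (hU : IsOpen U) : ∃ S, U = OS S := by
  refine ⟨{t | ∀ z, res z t.length = t → z ∈ U}, ?_⟩
  ext y
  constructor
  · intro hy
    obtain ⟨n, hn⟩ := isO_of_isOpen hU y hy
    refine ⟨n, fun z hz => hn z ?_⟩
    rwa [res_length] at hz
  · rintro ⟨n, hn⟩
    exact hn y (by rw [res_length])

/-- the dense set of a task: a sequence of open sets and a colouring of pairs -/
def DTask (S : ℕ → Set (List ℕ)) (c : Finset ℕ → Finset ℕ → ℕ) (k : ℕ) : Set Cnd :=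
  {p | (∀ H K, c H K ≤ k) →
    (∃ y ∈ p.Z, {j | y ∈ OS (S j)}.Finite) ∨
    (∃ F : Finset ℕ, ∀ y ∈ p.Z ∪ star p.A, ∃ j ∈ F, y ∈ OS (S j)) ∨
    ∃ (G : ℕ → Finset ℕ) (col : ℕ), (∀ n, (G n).Nonempty) ∧
        (∀ n m, n ≠ m → Disjoint (G n) (G m)) ∧
        (∀ y ∈ p.Z ∪ star p.A, {j | (∃ n, j ∈ G n) ∧ y ∈ OS (S j)}.Infinite) ∧
        ∀ H K : Finset ℕ, H.Nonempty → K.Nonempty → (∀ a ∈ H, ∀ b ∈ K, a < b) →
          c (H.biUnion G) (K.biUnion G) = col ∧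
          ∃ y ∈ p.Z, (∃ j ∈ K.biUnion G, y ∈ OS (S j)) ∧ ∀ j ∈ H.biUnion G, y ∉ OS (S j)}

/-- add a point -/
def Cnd.add (p : Cnd) (y : ℕ → ℕ) : Cnd := ⟨p.A, p.hA, insert y p.Z, p.hZ.insert y⟩

theorem Cnd.add_le (p : Cnd) {y : ℕ → ℕ} (hy : y ∈ p.Z ∪ star p.A) : p.add y ≤ p := by
  refine ⟨Set.Finite.subset Set.finite_empty fun t ht => ht le_rfl, Set.subset_insert _ _, ?_⟩
  rintro x ⟨h1, h2⟩
  rcases h1 with rfl | h1
  · exact hy.resolve_left h2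
  · exact absurd h1 h2

theorem dense_task (S : ℕ → Set (List ℕ)) (c : Finset ℕ → Finset ℕ → ℕ) (k : ℕ) (p : Cnd) :
    ∃ q ∈ DTask S c k, q ≤ p := by
  by_cases ha : ∃ y ∈ p.Z ∪ star p.A, {j | y ∈ OS (S j)}.Finite
  · obtain ⟨y, hy, hfin⟩ := ha
    exact ⟨p.add y, fun _ => Or.inl ⟨y, Set.mem_insert _ _, hfin⟩, p.add_le hy⟩
  by_cases hb : ∃ F : Finset ℕ, ∀ y ∈ p.Z ∪ star p.A, ∃ j ∈ F, y ∈ OS (S j)
  · exact ⟨p, fun _ => Or.inr (Or.inl hb), le_rfl⟩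
  push Not at ha hb
  choose z hz1 hz2 using hb
  let Z' : Set (ℕ → ℕ) := p.Z ∪ Set.range z
  have hZ' : Z'.Countable := p.hZ.union (Set.countable_range z)
  have hZ'sub : Z' ⊆ p.Z ∪ star p.A := by
    rintro y (hy | ⟨F, rfl⟩)
    · exact Or.inl hy
    · exact hz1 F
  let c' : Finset ℕ → Finset ℕ → Fin (k + 1) := fun H K => ⟨min (c H K) k, by omega⟩
  obtain ⟨A', hA', G, col, h1, h2, h3, h4⟩ := core p.hA hZ' (fun j => isO_OS (S j))
    (fun y hy => ha y (Or.inr hy)) (fun y hy => ha y (hZ'sub hy))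
    (fun F => ⟨z F, Or.inr ⟨F, rfl⟩, hz2 F⟩) c'
  refine ⟨⟨A', fun t => (hA' t).2, Z', hZ'⟩, fun hc => Or.inr (Or.inr ⟨G, col, h1, h2, h3, ?_⟩),
    ?_, Set.subset_union_left, ?_⟩
  · intro H K hH hK hHK
    obtain ⟨h5, h6⟩ := h4 H K hH hK hHK
    refine ⟨?_, h6⟩
    have := congrArg Fin.val h5
    simp only [c'] at this
    rw [← this, min_eq_left (hc _ _)]
  · exact Set.Finite.subset Set.finite_empty fun t ht => ht (hA' t).1
  · rintro y ⟨hy1, hy2⟩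
    exact (hZ'sub hy1).resolve_left hy2

/-- the dense set of a function -/
def DFun (g : ℕ → ℕ) : Set Cnd := {p | ∃ y ∈ p.Z, ∀ n, g n < y n}

theorem dense_fun (g : ℕ → ℕ) (p : Cnd) : ∃ q ∈ DFun g, q ≤ p := by
  have h : ∀ t : List ℕ, ∃ m, m ∈ p.A t ∧ g t.length < m := fun t =>
    (p.hA t).exists_gt (g t.length)
  choose step hs1 hs2 using h
  obtain ⟨y, hy⟩ := exists_branch0 step
  refine ⟨p.add y, ⟨y, Set.mem_insert _ _, fun n => ?_⟩, p.add_le (Or.inr ⟨0, fun i _ => ?_⟩)⟩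
  · have := hs2 (res y n)
    rw [res_length] at this
    rw [hy n]; exact this
  · rw [hy i]; exact hs1 _

/-- all tasks -/
abbrev Task : Type := ((ℕ → Set (List ℕ)) × (Finset ℕ → Finset ℕ → ℕ) × ℕ) ⊕ (ℕ → ℕ)

theorem mk_task : #Task = 𝔠 := by
  have h1 : #(ℕ → Set (List ℕ)) = 𝔠 := by
    simp
  have h2 : #(Finset ℕ → Finset ℕ → ℕ) = 𝔠 := by
    simp
  have h3 : #(ℕ → ℕ) = 𝔠 := by simp
  rw [Task, mk_sum, mk_prod, mk_prod, h1, h2, h3]
  simp

/-- the set `Y` given by a generic chain -/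
theorem exists_Y (hCH : (𝔠 : Cardinal.{0}) = ℵ₁) : ∃ (G : Set Cnd) (Y : Set (ℕ → ℕ)),
    (∀ p ∈ G, p.Z ⊆ Y ∧ Y ⊆ p.Z ∪ star p.A) ∧ (∀ S c k, ∃ p ∈ G, p ∈ DTask S c k) ∧
    ∀ g : ℕ → ℕ, ∃ y ∈ Y, ∀ n, g n < y n := by
  obtain ⟨G, hG1, hG2⟩ := exists_generic (P := Cnd) cnd_sigma (ι := Task)
    (by rw [mk_task, hCH])
    (fun i => Sum.elim (fun t => DTask t.1 t.2.1 t.2.2) DFun i)
    (by
      rintro (⟨S, c, k⟩ | g) p
      · exact dense_task S c k p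
      · exact dense_fun g p)
  refine ⟨G, ⋃ p ∈ G, p.Z, ?_, ?_, ?_⟩
  · intro p hp
    refine ⟨Set.subset_biUnion_of_mem hp, ?_⟩
    intro y hy
    simp only [Set.mem_iUnion] at hy
    obtain ⟨q, hq, hy⟩ := hy
    rcases hG2 p hp q hq with h | h
    · exact Or.inl (h.2.1 hy)
    · by_cases hyp : y ∈ p.Z
      · exact Or.inl hyp
      · exact Or.inr (h.2.2 ⟨hy, hyp⟩)
  · intro S c k
    exact hG1 (Sum.inl ⟨S, c, k⟩)
  · intro g
    obtain ⟨p, hp, y, hy, h⟩ := hG1 (Sum.inr g)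
    refine ⟨y, ?_, h⟩
    simp only [Set.mem_iUnion]
    exact ⟨p, hp, hy⟩

end Pool.Agent.Lib.MP_2a01b0_gt
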