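import Pool.Agent.Lib.MP_2a01b0_gt.BDefs
import Pool.Agent.Lib.MP_2a01b0_gt.Poset
import Pool.Agent.Lib.MP_62a69e_lc.RO

set_option autoImplicit false

/-!
# The forcing relation for the Boolean values
-/

namespace Pool.Agent.Lib.MP_2a01b0_gt

open TopologicalSpace Pool.Agent.Ladder PiNat

section gen
variable {P : Type} [Preorder P]

theorem ro_sup₂ {ι : Type} {Q : ι → Prop} {A : ι → RO P} {p : P} :
    p ∈ (⨆ i, ⨆ (_ : Q i), A i) ↔ ∀ q, q ≤ p → ∃ r, r ≤ q ∧ ∃ i, Q i ∧ r ∈ A i := by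
  constructor
  · intro h q hq
    obtain ⟨r, hr, i, h1⟩ := RO.mem_iSup.1 h q hq
    obtain ⟨r', hr', hQ, h2⟩ := RO.mem_iSup.1 h1 r le_rfl
    exact ⟨r', hr'.trans hr, i, hQ, h2⟩
  · intro h
    refine RO.mem_iSup.2 fun q hq => ?_
    obtain ⟨r, hr, i, hQ, h1⟩ := h q hq
    exact ⟨r, hr, i, RO.mem_iSup.2 fun q' hq' => ⟨q', le_rfl, hQ, RO.mem_of_le h1 hq'⟩⟩

theorem ro_inf₂ {ι : Type} {Q : ι → Prop} {A : ι → RO P} {p : P} :
    p ∈ (⨅ i, ⨅ (_ : Q i), A i) ↔ ∀ i, Q i → p ∈ A i := by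
  constructor
  · intro h i hQ
    exact RO.mem_iInf.1 (RO.mem_iInf.1 h i) hQ
  · intro h
    exact RO.mem_iInf.2 fun i => RO.mem_iInf.2 fun hQ => h i hQ

/-- meeting countably many open dense sets -/
theorem meet_countable (hσ : ∀ f : ℕ → P, Antitone f → ∃ q, ∀ n, q ≤ f n) {ι : Type*} [Countable ι]
    (D : ι → Set P) (hopen : ∀ i p q, p ∈ D i → q ≤ p → q ∈ D i)
    (hD : ∀ i p, ∃ q ∈ D i, q ≤ p) (p : P) : ∃ q, q ≤ p ∧ ∀ i, q ∈ D i := by
  classical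
  rcases isEmpty_or_nonempty ι with he | hne
  · exact ⟨p, le_rfl, fun i => (he.false i).elim⟩
  obtain ⟨e, he⟩ := exists_surjective_nat ι
  choose F hF1 hF2 using hD
  let f : ℕ → P := fun n => Nat.rec p (fun n q => F (e n) q) n
  have hf : ∀ n, f (n + 1) = F (e n) (f n) := fun n => rfl
  have hanti : Antitone f := antitone_nat_of_succ_le fun n => by rw [hf]; exact hF2 _ _
  obtain ⟨q, hq⟩ := hσ f hanti
  refine ⟨q, hq 0, fun i => ?_⟩
  obtain ⟨n, rfl⟩ := he i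
  refine hopen _ _ _ ?_ (hq (n + 1))
  rw [hf]
  exact hF1 _ _

theorem mem_or_compl (A : RO P) (p : P) : ∃ q, (q ∈ A ∨ q ∈ Aᶜ) ∧ q ≤ p := by
  by_cases h : ∃ q, q ≤ p ∧ q ∈ A
  · obtain ⟨q, hq, hA⟩ := h
    exact ⟨q, Or.inl hA, hq⟩
  · exact ⟨p, Or.inr (RO.mem_compl.2 fun q hq hA => h ⟨q, hq, hA⟩), le_rfl⟩

theorem not_both {A : RO P} {p : P} (h : p ∈ A) (h' : p ∈ Aᶜ) : False :=
  RO.mem_compl.1 h' p le_rfl h

theorem mem_eqVal {Y : Bai → RO P} {U V : Opens Bai} {p : P} :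
    p ∈ eqVal Y U V ↔ ∀ y, ¬ (y ∈ U ↔ y ∈ V) → p ∈ (Y y)ᶜ := by
  unfold eqVal
  exact ro_inf₂

theorem eqVal_refl {Y : Bai → RO P} (U : Opens Bai) (p : P) : p ∈ eqVal Y U U :=
  mem_eqVal.2 fun _ h => absurd Iff.rfl h

theorem eqVal_symm {Y : Bai → RO P} {U V : Opens Bai} {p : P} (h : p ∈ eqVal Y U V) :
    p ∈ eqVal Y V U := mem_eqVal.2 fun y hy => mem_eqVal.1 h y fun h' => hy h'.symm

theorem eqVal_trans {Y : Bai → RO P} {U V W : Opens Bai} {p : P} (h : p ∈ eqVal Y U V)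
    (h' : p ∈ eqVal Y V W) : p ∈ eqVal Y U W := by
  refine mem_eqVal.2 fun y hy => ?_
  by_cases h1 : y ∈ U ↔ y ∈ V
  · exact mem_eqVal.1 h' y fun h2 => hy (h1.trans h2)
  · exact mem_eqVal.1 h y h1

/-- members of `Y` in equal traces -/
theorem eqVal_mem {Y : Bai → RO P} {U V : Opens Bai} {p : P} (h : p ∈ eqVal Y U V) {y : Bai}
    (hy : p ∈ Y y) (hU : y ∈ U) : y ∈ V := by
  by_contra hV
  exact not_both hy (mem_eqVal.1 h y fun h' => hV (h'.1 hU))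

/-- a ground-model sequence as a name -/
noncomputable def chk {Z : Type} (g : ℕ → Z) : SeqName (RO P) Z := by
  classical
  exact
  { val := fun n z => if g n = z then ⊤ else ⊥
    disj := by
      intro n z z' hzz
      by_cases h : g n = z
      · have : g n ≠ z' := fun h' => hzz (h.symm.trans h')
        rw [if_neg this, inf_bot_eq]
      · rw [if_neg h, bot_inf_eq]
    total := by
      intro n
      refine top_le_iff.1 ?_
      refine le_trans ?_ (le_iSup _ (g n))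
      rw [if_pos rfl] }

theorem mem_chk {Z : Type} {g : ℕ → Z} {n : ℕ} {z : Z} {p : P} :
    p ∈ (chk g : SeqName (RO P) Z).val n z ↔ g n = z := by
  classical
  simp only [chk]
  constructor
  · intro h
    by_contra hne
    rw [if_neg hne] at h
    exact RO.mem_bot h
  · intro h
    rw [if_pos h]
    exact RO.mem_top

theorem seq_unique {Z : Type} {s : SeqName (RO P) Z} {n : ℕ} {z z' : Z} {p : P}
    (h : p ∈ s.val n z) (h' : p ∈ s.val n z') : z = z' := by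
  by_contra hne
  have h1 : p ∈ s.val n z ⊓ s.val n z' := RO.mem_inf.2 ⟨h, h'⟩
  rw [s.disj n z z' hne] at h1
  exact RO.mem_bot h1

/-- a name of a sequence is decided by a stronger condition -/
theorem decide_seq (hσ : ∀ f : ℕ → P, Antitone f → ∃ q, ∀ n, q ≤ f n) {Z : Type}
    (s : SeqName (RO P) Z) (p : P) : ∃ q, q ≤ p ∧ ∃ g : ℕ → Z, ∀ n, q ∈ s.val n (g n) := by
  obtain ⟨q, hq, h⟩ := meet_countable hσ (fun n : ℕ => {r | ∃ z, r ∈ s.val n z})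
    (fun n p q ⟨z, hz⟩ hqp => ⟨z, RO.mem_of_le hz hqp⟩)
    (fun n p => by
      have h1 : p ∈ ⨆ z, s.val n z := by rw [s.total]; exact RO.mem_top
      obtain ⟨r, hr, z, hz⟩ := RO.mem_iSup.1 h1 p le_rfl
      exact ⟨r, ⟨z, hz⟩, hr⟩) p
  choose g hg using h
  exact ⟨q, hq, g, hg⟩

theorem noNewSeq_of_sigma (hσ : ∀ f : ℕ → P, Antitone f → ∃ q, ∀ n, q ≤ f n) :
    NoNewSeq (RO P) := by
  intro Z s
  refine RO.eq_top_iff'.2 fun p => RO.mem_iSup.2 fun q _ => ?_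
  obtain ⟨r, hr, g, hg⟩ := decide_seq hσ s q
  exact ⟨r, hr, g, RO.mem_iInf.2 hg⟩

end gen

/-- the name of the generic set of points -/
def Yn (y : Bai) : RO Cnd := RO.mk' (fun p => y ∈ p.Z) (fun _ _ h hq => hq.2.1 h)

theorem Yn_of_mem {p : Cnd} {y : Bai} (h : y ∈ p.Z) : p ∈ Yn y := RO.mem_mk'_of h

theorem Yn_dense {p : Cnd} {y : Bai} (h : p ∈ Yn y) : ∃ r, r ≤ p ∧ y ∈ r.Z :=
  RO.mem_mk'.1 h p le_rfl

theorem Z_sub {p q : Cnd} (h : q ≤ p) : q.Z ⊆ p.Z ∪ star p.A := by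
  intro y hy
  by_cases h1 : y ∈ p.Z
  · exact Or.inl h1
  · exact Or.inr (h.2.2 ⟨hy, h1⟩)

theorem exists_large (g : ℕ → ℕ) (p : Cnd) : ∃ q, q ≤ p ∧ ∃ y ∈ q.Z, ∀ n, g n < y n := by
  obtain ⟨q, hq, hle⟩ := dense_fun g p
  exact ⟨q, hle, hq⟩

theorem infVal_Yn : infVal Yn = ⊤ := by
  classical
  refine RO.eq_top_iff'.2 fun p => ?_
  unfold infVal
  refine RO.mem_iInf.2 fun F => ro_sup₂.2 fun q _ => ?_
  obtain ⟨r, hr, y, hy, h⟩ := exists_large (fun _ => F.sup fun z => z 0) q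
  refine ⟨r, hr, y, ?_, Yn_of_mem hy⟩
  intro hyF
  have h1 : y 0 ≤ F.sup fun z => z 0 := Finset.le_sup (f := fun z : Bai => z 0) hyF
  have h2 := h 0
  omega

end Pool.Agent.Lib.MP_2a01b0_gt
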