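import Pool.Agent.Lib.MP_2a01b0_gt.Defs
import Mathlib.Order.CompleteBooleanAlgebra

set_option autoImplicit false

/-!
# Boolean-valued form of the properties of a set of reals

`B` is a complete Boolean algebra that adds no new `ω`-sequences of ground-model objects, so that
the points and the open sets of the Baire space of `V^B` are those of the ground model. A `B`-name
for a set of points is a function `Y : (ℕ → ℕ) → B`; the relatively open subsets of `Y` are the
traces `U ∩ Y` of the ground-model open sets `U`.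
-/

namespace Pool.Agent.Lib.MP_2a01b0_gt

open TopologicalSpace

/-- the Baire space -/
abbrev Bai : Type := ℕ → ℕ

section
variable {B : Type} [CompleteBooleanAlgebra B]

/-- a `B`-name for an infinite sequence of elements of the ground-model set `Z`: `val n z` is the
Boolean value of: the `n`-th term is `z` -/
structure SeqName (B : Type) [CompleteBooleanAlgebra B] (Z : Type) where
  val : ℕ → Z → B
  disj : ∀ n z z', z ≠ z' → val n z ⊓ val n z' = ⊥
  total : ∀ n, ⨆ z, val n z = ⊤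

/-- the Boolean value of `U ∩ Y = V ∩ Y` -/
def eqVal (Y : Bai → B) (U V : Opens Bai) : B := ⨅ y, ⨅ (_ : ¬ (y ∈ U ↔ y ∈ V)), (Y y)ᶜ

/-- `𝒰` is a name for a family of relatively open subsets of `Y`: `𝒰 U` is the Boolean value of
`U ∩ Y ∈ 𝒰`, and it depends only on the trace of `U` -/
def IsFam (Y : Bai → B) (𝒰 : Opens Bai → B) : Prop := ∀ U V, 𝒰 U ⊓ eqVal Y U V ≤ 𝒰 V

/-- the Boolean value of: `𝒰` consists of nonempty proper subsets of `Y` and covers `Y` -/
def coverVal (Y : Bai → B) (𝒰 : Opens Bai → B) : B :=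
  (⨅ U, (𝒰 U ⇨ (⨆ y, ⨆ (_ : y ∈ U), Y y) ⊓ (⨆ y, ⨆ (_ : y ∉ U), Y y))) ⊓
  (⨅ y, (Y y ⇨ ⨆ U, ⨆ (_ : y ∈ U), 𝒰 U))

/-- the Boolean value of: `𝒰` is a cover, and each point of `Y` is in infinitely many members
(for each finite list of traces, in a member that is not listed) -/
def largeVal (Y : Bai → B) (𝒰 : Opens Bai → B) : B :=
  coverVal Y 𝒰 ⊓
  (⨅ y, (Y y ⇨ ⨅ F : Finset (Opens Bai), ⨆ U, ⨆ (_ : y ∈ U), (𝒰 U ⊓ ⨅ V ∈ F, (eqVal Y U V)ᶜ)))

/-- the Boolean value of: no finite subfamily of `𝒰` covers `Y` -/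
def noFinVal (Y : Bai → B) (𝒰 : Opens Bai → B) : B :=
  ⨅ F : Finset (Opens Bai), ((⨅ U ∈ F, 𝒰 U) ⇨ ⨆ y, ⨆ (_ : ∀ U ∈ F, y ∉ U), Y y)

/-- a name for a colouring of the pairs of relatively open subsets of `Y` with `k` colours:
`val U V j` is the Boolean value of: the pair `U ∩ Y`, `V ∩ Y` has colour `j` -/
structure ColName (Y : Bai → B) (k : ℕ) where
  val : Opens Bai → Opens Bai → Fin k → B
  disj : ∀ U V i j, i ≠ j → val U V i ⊓ val U V j = ⊥
  total : ∀ U V, ⨆ j, val U V j = ⊤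
  symm : ∀ U V j, val U V j = val V U j
  ext : ∀ U U' V j, val U V j ⊓ eqVal Y U U' ≤ val U' V j

/-- for a name `s` of a sequence of finite sets of open sets: the name of the family of all traces
of members of the terms of `s` -/
def famOf (Y : Bai → B) (s : SeqName B (Finset (Opens Bai))) : Opens Bai → B :=
  fun U => ⨆ n, ⨆ F, ⨆ V ∈ F, (s.val n F ⊓ eqVal Y U V)

/-- the Boolean value of: each term of `s` is contained in `𝒰 n` -/
def subVal (𝒰 : ℕ → Opens Bai → B) (s : SeqName B (Finset (Opens Bai))) : B :=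
  ⨅ n, ⨅ F, (s.val n F ⇨ ⨅ U ∈ F, 𝒰 n U)

/-- the Boolean value of: the terms of `s` are nonempty, and different terms have no trace in
common -/
def disjVal (Y : Bai → B) (s : SeqName B (Finset (Opens Bai))) : B :=
  (⨅ n, (s.val n ∅)ᶜ) ⊓
  (⨅ n, ⨅ m, ⨅ (_ : n ≠ m), ⨅ F, ⨅ F', (s.val n F ⊓ s.val m F' ⇨ ⨅ U ∈ F, ⨅ V ∈ F', (eqVal Y U V)ᶜ))

/-- the Boolean value of: for all `H < K` the unions `V_H`, `V_K` of the members of the terms with
index in `H`, `K` have different traces and the pair has colour `j` -/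
def homVal {k : ℕ} (Y : Bai → B) (χ : ColName Y k) (s : SeqName B (Finset (Opens Bai)))
    (j : Fin k) : B :=
  ⨅ H : Finset ℕ, ⨅ K : Finset ℕ, ⨅ (_ : Below H K), ⨅ g : ℕ → Finset (Opens Bai),
    ((⨅ i ∈ H ∪ K, s.val i (g i)) ⇨
      (eqVal Y (unionOf g H) (unionOf g K))ᶜ ⊓ χ.val (unionOf g H) (unionOf g K) j)

/-- the Boolean value of: `Y` is infinite -/
def infVal (Y : Bai → B) : B := ⨅ F : Finset Bai, ⨆ y, ⨆ (_ : y ∉ F), Y y

/-- the Boolean value of: the subspace `Y` of the Baire space has the property `(*)` -/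
def sumVal (Y : Bai → B) : B :=
  ⨅ 𝒰 : Opens Bai → B, ⨅ (_ : IsFam Y 𝒰), ⨅ k : ℕ, ⨅ χ : ColName Y k,
    (largeVal Y 𝒰 ⊓ noFinVal Y 𝒰 ⇨ ⨆ s : SeqName B (Finset (Opens Bai)),
      (subVal (fun _ => 𝒰) s ⊓ disjVal Y s ⊓ largeVal Y (famOf Y s) ⊓ ⨆ j, homVal Y χ s j))

/-- the Boolean value of: the subspace `Y` of the Baire space is Menger -/
def mengerVal (Y : Bai → B) : B :=
  ⨅ 𝒰 : ℕ → Opens Bai → B, ⨅ (_ : ∀ n, IsFam Y (𝒰 n)),
    ((⨅ n, coverVal Y (𝒰 n)) ⇨ ⨆ s : SeqName B (Finset (Opens Bai)),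
      (subVal 𝒰 s ⊓ coverVal Y (famOf Y s)))

end

/-- `B` adds no new infinite sequences of ground-model objects -/
def NoNewSeq (B : Type) [CompleteBooleanAlgebra B] : Prop :=
  ∀ (Z : Type) (s : SeqName B Z), ⨆ g : ℕ → Z, ⨅ n, s.val n (g n) = ⊤

end Pool.Agent.Lib.MP_2a01b0_gt
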