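import Pool.Agent.Lib.MP_2a01b0_gt.BBasic

set_option autoImplicit false

/-!
# Deciding a countable large subfamily
-/

namespace Pool.Agent.Lib.MP_2a01b0_gt

open TopologicalSpace Pool.Agent.Ladder PiNat

/-- the cylinder of `t` is contained in `U` -/
def CylSub (t : List ℕ) (U : Opens Bai) : Prop := ∀ y : Bai, res y t.length = t → y ∈ U

theorem exists_cyl {y : Bai} {U : Opens Bai} (h : y ∈ U) : ∃ n, CylSub (res y n) U := by
  obtain ⟨n, hn⟩ := isO_of_isOpen U.2 y h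
  refine ⟨n, fun z hz => hn z ?_⟩
  rwa [res_length] at hz

/-- `F` is a list of `n` different traces of members of `𝒰` above the cylinder -/
def Many (𝒰 : Opens Bai → RO Cnd) (t : List ℕ) (n : ℕ) (q : Cnd) (F : Finset (Opens Bai)) : Prop :=
  F.card = n ∧ (∀ U ∈ F, CylSub t U ∧ q ∈ 𝒰 U) ∧
    ∀ U ∈ F, ∀ V ∈ F, U ≠ V → q ∈ (eqVal Yn U V)ᶜ

/-- `F` lists all traces of members of `𝒰` above the cylinder -/
def All (𝒰 : Opens Bai → RO Cnd) (t : List ℕ) (q : Cnd) (F : Finset (Opens Bai)) : Prop :=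
  (∀ U ∈ F, CylSub t U ∧ q ∈ 𝒰 U) ∧
    ∀ V, CylSub t V → q ∈ (𝒰 V ⇨ ⨆ U, ⨆ (_ : U ∈ F), eqVal Yn V U)

theorem Many.mono {𝒰 : Opens Bai → RO Cnd} {t : List ℕ} {n : ℕ} {q r : Cnd}
    {F : Finset (Opens Bai)} (h : Many 𝒰 t n q F) (hr : r ≤ q) : Many 𝒰 t n r F :=
  ⟨h.1, fun U hU => ⟨(h.2.1 U hU).1, RO.mem_of_le (h.2.1 U hU).2 hr⟩,
    fun U hU V hV hne => RO.mem_of_le (h.2.2 U hU V hV hne) hr⟩

theorem All.mono {𝒰 : Opens Bai → RO Cnd} {t : List ℕ} {q r : Cnd}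
    {F : Finset (Opens Bai)} (h : All 𝒰 t q F) (hr : r ≤ q) : All 𝒰 t r F :=
  ⟨fun U hU => ⟨(h.1 U hU).1, RO.mem_of_le (h.1 U hU).2 hr⟩,
    fun V hV => RO.mem_of_le (h.2 V hV) hr⟩

theorem many_or_all (𝒰 : Opens Bai → RO Cnd) (t : List ℕ) (n : ℕ) (p : Cnd) :
    ∃ q, ((∃ F, Many 𝒰 t n q F) ∨ ∃ F, All 𝒰 t q F) ∧ q ≤ p := by
  classical
  induction n with
  | zero =>
    exact ⟨p, Or.inl ⟨∅, rfl, fun U hU => absurd hU (Finset.notMem_empty U),
      fun U hU => absurd hU (Finset.notMem_empty U)⟩, le_rfl⟩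
  | succ n ih =>
    obtain ⟨q, h | h, hq⟩ := ih
    swap
    · exact ⟨q, Or.inr h, hq⟩
    obtain ⟨F, hF⟩ := h
    by_cases hall : ∀ V, CylSub t V → q ∈ (𝒰 V ⇨ ⨆ U, ⨆ (_ : U ∈ F), eqVal Yn V U)
    · exact ⟨q, Or.inr ⟨F, hF.2.1, hall⟩, hq⟩
    push Not at hall
    obtain ⟨V, hV, hno⟩ := hall
    rw [RO.mem_himp] at hno
    push Not at hno
    obtain ⟨r, hr, hrV, hno⟩ := hno
    rw [ro_sup₂] at hno
    push Not at hno
    obtain ⟨r', hr', hno⟩ := hno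
    have hc : ∀ U ∈ F, r' ∈ (eqVal Yn V U)ᶜ := fun U hU =>
      RO.mem_compl.2 fun r'' hr'' => hno r'' hr'' U hU
    have hVF : V ∉ F := fun hVF => not_both (eqVal_refl V r') (hc V hVF)
    refine ⟨r', Or.inl ⟨insert V F, ?_, ?_, ?_⟩, hr'.trans (hr.trans hq)⟩
    · rw [Finset.card_insert_of_notMem hVF, hF.1]
    · intro U hU
      rcases Finset.mem_insert.1 hU with rfl | hU
      · exact ⟨hV, RO.mem_of_le hrV hr'⟩
      · exact ⟨(hF.2.1 U hU).1, RO.mem_of_le (hF.2.1 U hU).2 (hr'.trans hr)⟩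
    · intro U hU W hW hne
      rcases Finset.mem_insert.1 hU with hUV | hU'
      · rcases Finset.mem_insert.1 hW with hWV | hW'
        · exact absurd (hUV.trans hWV.symm) hne
        · rw [hUV]; exact hc W hW'
      · rcases Finset.mem_insert.1 hW with hWV | hW'
        · rw [hWV]
          refine RO.mem_compl.2 fun s hs h => ?_
          exact RO.mem_compl.1 (hc U hU') s hs (eqVal_symm h)
        · exact RO.mem_of_le (hF.2.2 U hU' W hW' hne) (hr'.trans hr)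

/-- A condition forcing `𝒰` to be large has an extension deciding a large sequence of members of
`𝒰` with different traces. -/
theorem exists_sequence {𝒰 : Opens Bai → RO Cnd} {p : Cnd} (hp : p ∈ largeVal Yn 𝒰) :
    ∃ q, q ≤ p ∧ ∃ U : ℕ → Opens Bai, (∀ n, q ∈ 𝒰 (U n)) ∧
      (∀ n m, n ≠ m → q ∈ (eqVal Yn (U n) (U m))ᶜ) ∧
      ∀ r, r ≤ q → ∀ y ∈ r.Z, {n | y ∈ U n}.Infinite := by
  classical
  -- first step: lists
  obtain ⟨q1, hq1, h1⟩ := meet_countable cnd_sigma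
    (fun i : List ℕ × ℕ => {q | (∃ F, Many 𝒰 i.1 i.2 q F) ∨ ∃ F, All 𝒰 i.1 q F})
    (fun i q r h hr => by
      rcases h with ⟨F, h⟩ | ⟨F, h⟩
      · exact Or.inl ⟨F, h.mono hr⟩
      · exact Or.inr ⟨F, h.mono hr⟩)
    (fun i q => many_or_all 𝒰 i.1 i.2 q) p
  have h1' : ∀ i : List ℕ × ℕ, ∃ F, Many 𝒰 i.1 i.2 q1 F ∨ All 𝒰 i.1 q1 F := by
    intro i
    rcases h1 i with ⟨F, h⟩ | ⟨F, h⟩
    · exact ⟨F, Or.inl h⟩
    · exact ⟨F, Or.inr h⟩
  choose F hF using h1'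
  let 𝒲 : Set (Opens Bai) := {U | ∃ i, U ∈ F i}
  have h𝒲c : 𝒲.Countable := by
    have : 𝒲 = ⋃ i, (F i : Set (Opens Bai)) := by
      ext U; simp [𝒲]
    rw [this]
    exact Set.countable_iUnion fun i => (F i).countable_toSet
  have h𝒲𝒰 : ∀ U ∈ 𝒲, q1 ∈ 𝒰 U := by
    rintro U ⟨i, hU⟩
    rcases hF i with h | h
    · exact (h.2.1 U hU).2
    · exact (h.1 U hU).2
  have : Countable 𝒲 := h𝒲c.to_subtype
  -- second step: equality of traces
  obtain ⟨q2, hq2, h2⟩ := meet_countable cnd_sigma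
    (fun i : 𝒲 × 𝒲 => {q : Cnd | q ∈ eqVal Yn (i.1 : Opens Bai) i.2 ∨
      q ∈ (eqVal Yn (i.1 : Opens Bai) i.2)ᶜ})
    (fun i q r h hr => by
      rcases h with h | h
      · exact Or.inl (RO.mem_of_le h hr)
      · exact Or.inr (RO.mem_of_le h hr))
    (fun i q => mem_or_compl _ q) q1
  -- representatives
  let st : Setoid 𝒲 := ⟨fun U V => q2 ∈ eqVal Yn (U : Opens Bai) V,
    fun U => eqVal_refl _ _, fun h => eqVal_symm h, fun h h' => eqVal_trans h h'⟩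
  let rep : 𝒲 → 𝒲 := fun U => (Quotient.mk st U).out
  have hrep : ∀ U : 𝒲, q2 ∈ eqVal Yn (U : Opens Bai) (rep U) := by
    intro U
    have h : st.r (Quotient.mk st U).out U := Quotient.exact (Quotient.out_eq (Quotient.mk st U))
    exact eqVal_symm h
  have hrep2 : ∀ U V : 𝒲, q2 ∈ eqVal Yn (U : Opens Bai) V → rep U = rep V := by
    intro U V h
    have h' : Quotient.mk st U = Quotient.mk st V := Quotient.sound h
    simp only [rep, h']
  let 𝒱 : Set (Opens Bai) := {U | ∃ V : 𝒲, (rep V : Opens Bai) = U}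
  have h𝒱𝒲 : 𝒱 ⊆ 𝒲 := by
    rintro _ ⟨V, rfl⟩
    exact (rep V).2
  have h𝒱eq : ∀ U ∈ 𝒱, ∀ V ∈ 𝒱, U ≠ V → q2 ∈ (eqVal Yn U V)ᶜ := by
    rintro _ ⟨U, rfl⟩ _ ⟨V, rfl⟩ hne
    rcases h2 (rep U, rep V) with h | h
    · exfalso
      apply hne
      have h3 : q2 ∈ eqVal Yn (U : Opens Bai) V :=
        eqVal_trans (hrep U) (eqVal_trans h (eqVal_symm (hrep V)))
      rw [hrep2 U V h3]
    · exact h
  have hinf : ∀ r, r ≤ q2 → ∀ y ∈ r.Z, {U | U ∈ 𝒱 ∧ y ∈ U}.Infinite := by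
    intro r hr y hy hfin
    have hyY : r ∈ Yn y := Yn_of_mem hy
    have hlarge := RO.mem_iInf.1 (RO.mem_inf.1 hp).2 y
    have h3 := RO.mem_himp.1 hlarge r (hr.trans (hq2.trans hq1)) hyY
    have h4 := ro_sup₂.1 (RO.mem_iInf.1 h3 hfin.toFinset) r le_rfl
    obtain ⟨r', hr', U, hyU, h5⟩ := h4
    obtain ⟨h5, h6⟩ := RO.mem_inf.1 h5
    have h6' := ro_inf₂.1 h6
    obtain ⟨m, hm⟩ := exists_cyl hyU
    have hyY' : r' ∈ Yn y := RO.mem_of_le hyY hr'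
    by_cases hcase : ∃ n, ¬ Many 𝒰 (res y m) n q1 (F (res y m, n))
    · obtain ⟨n, hn⟩ := hcase
      have hA : All 𝒰 (res y m) q1 (F (res y m, n)) := (hF (res y m, n)).resolve_left hn
      have h7 := RO.mem_himp.1 (hA.2 U hm) r' (hr'.trans (hr.trans hq2)) h5
      obtain ⟨r'', hr'', V, hV, h8⟩ := ro_sup₂.1 h7 r' le_rfl
      have hV𝒲 : V ∈ 𝒲 := ⟨_, hV⟩
      have h9 : r'' ∈ eqVal Yn U (rep ⟨V, hV𝒲⟩) :=
        eqVal_trans h8 (RO.mem_of_le (hrep ⟨V, hV𝒲⟩) (hr''.trans (hr'.trans hr)))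
      have h10 : y ∈ ((rep ⟨V, hV𝒲⟩ : 𝒲) : Opens Bai) :=
        eqVal_mem h9 (RO.mem_of_le hyY' hr'') hyU
      have h11 : ((rep ⟨V, hV𝒲⟩ : 𝒲) : Opens Bai) ∈ hfin.toFinset := by
        rw [Set.Finite.mem_toFinset]
        exact ⟨⟨⟨V, hV𝒲⟩, rfl⟩, h10⟩
      exact not_both h9 (RO.mem_of_le (h6' _ h11) hr'')
    · push Not at hcase
      have hM := hcase (hfin.toFinset.card + 1)
      have hmem : ∀ V ∈ F (res y m, hfin.toFinset.card + 1), V ∈ 𝒲 := fun V hV => ⟨_, hV⟩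
      have hle : (F (res y m, hfin.toFinset.card + 1)).card ≤ hfin.toFinset.card := by
        refine Finset.card_le_card_of_injOn
          (fun V => if h : V ∈ 𝒲 then ((rep ⟨V, h⟩ : 𝒲) : Opens Bai) else V) ?_ ?_
        · intro V hV
          have hV' := hmem V hV
          simp only [dif_pos hV']
          rw [Finset.mem_coe, Set.Finite.mem_toFinset]
          refine ⟨⟨⟨V, hV'⟩, rfl⟩, ?_⟩
          have h7 : y ∈ V := (hM.2.1 V hV).1 y (by rw [res_length])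
          exact eqVal_mem (RO.mem_of_le (hrep ⟨V, hV'⟩) hr) hyY h7
        · intro V hV W hW hVW
          have hV' := hmem V hV
          have hW' := hmem W hW
          simp only [dif_pos hV', dif_pos hW'] at hVW
          by_contra hne
          have h8 : q2 ∈ eqVal Yn V W := by
            have h9 := hrep ⟨V, hV'⟩
            have h10 := hrep ⟨W, hW'⟩
            rw [← hVW] at h10
            exact eqVal_trans h9 (eqVal_symm h10)
          exact not_both h8 (RO.mem_of_le (hM.2.2 V hV W hW hne) hq2)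
      rw [hM.1] at hle
      omega
  -- enumeration
  have h𝒱inf : 𝒱.Infinite := by
    obtain ⟨r, hr, y, hy, _⟩ := exists_large (fun _ => 0) q2
    exact (hinf r hr y hy).mono fun U hU => hU.1
  have h𝒱c : 𝒱.Countable := h𝒲c.mono h𝒱𝒲
  have : Countable 𝒱 := h𝒱c.to_subtype
  have : Infinite 𝒱 := h𝒱inf.to_subtype
  obtain ⟨e⟩ : Nonempty (ℕ ≃ 𝒱) := by
    obtain ⟨_⟩ := nonempty_denumerable 𝒱
    exact ⟨(Denumerable.eqv 𝒱).symm⟩
  refine ⟨q2, hq2.trans hq1, fun n => (e n : Opens Bai), ?_, ?_, ?_⟩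
  · intro n
    exact RO.mem_of_le (h𝒲𝒰 _ (h𝒱𝒲 (e n).2)) hq2
  · intro n m hnm
    refine h𝒱eq _ (e n).2 _ (e m).2 fun h => hnm (e.injective (Subtype.ext h))
  · intro r hr y hy
    have h6 := hinf r hr y hy
    have h7 : {U | U ∈ 𝒱 ∧ y ∈ U} ⊆ (fun n => (e n : Opens Bai)) '' {n | y ∈ (e n : Opens Bai)} := by
      rintro U ⟨hU, hxU⟩
      refine ⟨e.symm ⟨U, hU⟩, ?_, ?_⟩ <;> simp [hxU]
    intro hfin
    exact h6 ((hfin.image _).subset h7)

end Pool.Agent.Lib.MP_2a01b0_gt
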