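import Mathlib.Topology.Sets.Opens
import Mathlib.Topology.Separation.CompletelyRegular
import Mathlib.Data.Sym.Sym2
import Mathlib.Order.Filter.Ultrafilter.Defs
import Mathlib.Order.Filter.Cofinite
import Mathlib.SetTheory.Cardinal.Aleph
import Mathlib.SetTheory.Cardinal.Continuum
import Mathlib.Order.Interval.Set.Basic

set_option autoImplicit false

/-!
# Definitions for MP_2a01b0_gt
-/

namespace Pool.Agent.Lib.MP_2a01b0_gt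

open TopologicalSpace Cardinal

section Covers

variable {X : Type*} [TopologicalSpace X]

/-- `𝒰` is an open cover: a family of nonempty proper open sets with union `X` -/
def OpenCover (𝒰 : Set (Opens X)) : Prop :=
  (∀ U ∈ 𝒰, U ≠ ⊥ ∧ U ≠ ⊤) ∧ ∀ x : X, ∃ U ∈ 𝒰, x ∈ U

/-- `𝒰` is a large open cover: each point is in infinitely many members -/
def LargeCover (𝒰 : Set (Opens X)) : Prop :=
  OpenCover 𝒰 ∧ ∀ x : X, {U | U ∈ 𝒰 ∧ x ∈ U}.Infinite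

/-- `V_H`, the union of all members of the families `ℱ i`, `i ∈ H` -/
def unionOf (ℱ : ℕ → Finset (Opens X)) (H : Finset ℕ) : Opens X :=
  sSup {U | ∃ i ∈ H, U ∈ ℱ i}

end Covers

/-- The Menger property -/
def Menger (X : Type*) [TopologicalSpace X] : Prop :=
  ∀ 𝒰 : ℕ → Set (Opens X), (∀ n, OpenCover (𝒰 n)) →
    ∃ ℱ : ℕ → Finset (Opens X), (∀ n, ∀ U ∈ ℱ n, U ∈ 𝒰 n) ∧ OpenCover {U | ∃ n, U ∈ ℱ n}

/-- The property `(*)`: for every large open cover `𝒰` without a finite subcover and every finite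
colouring of pairs of open sets there are pairwise disjoint finite nonempty `ℱ n ⊆ 𝒰` with
`⋃ ℱ n` large, such that for all nonempty finite `H < K` the unions `V_H`, `V_K` are different and
the pair `{V_H, V_K}` has always the same colour. -/
def SumProp (X : Type*) [TopologicalSpace X] : Prop :=
  ∀ 𝒰 : Set (Opens X), LargeCover 𝒰 →
    (∀ ℱ : Finset (Opens X), (∀ U ∈ ℱ, U ∈ 𝒰) → ∃ x : X, ∀ U ∈ ℱ, x ∉ U) →
    ∀ (k : ℕ) (χ : Sym2 (Opens X) → Fin k),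
      ∃ ℱ : ℕ → Finset (Opens X),
        (∀ n, (ℱ n).Nonempty ∧ ∀ U ∈ ℱ n, U ∈ 𝒰) ∧
        (∀ n m, n ≠ m → Disjoint (ℱ n) (ℱ m)) ∧
        LargeCover {U | ∃ n, U ∈ ℱ n} ∧
        ∃ j : Fin k, ∀ H K : Finset ℕ, H.Nonempty → K.Nonempty → (∀ a ∈ H, ∀ b ∈ K, a < b) →
          unionOf ℱ H ≠ unionOf ℱ K ∧ χ s(unionOf ℱ H, unionOf ℱ K) = j

/-- no finite subfamily of `𝒰` covers `X` -/
def NoFiniteSubcover {X : Type*} [TopologicalSpace X] (𝒰 : Set (Opens X)) : Prop :=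
  ∀ ℱ : Finset (Opens X), (∀ U ∈ ℱ, U ∈ 𝒰) → ∃ x : X, ∀ U ∈ ℱ, x ∉ U

/-- `H < K` for finite sets of natural numbers, both nonempty -/
def Below (H K : Finset ℕ) : Prop :=
  H.Nonempty ∧ K.Nonempty ∧ ∀ a ∈ H, ∀ b ∈ K, a < b

/-- unfolded form of the property `(*)` used in the proofs -/
def SumProp' (X : Type*) [TopologicalSpace X] : Prop :=
  ∀ 𝒰 : Set (Opens X), LargeCover 𝒰 → NoFiniteSubcover 𝒰 →
    ∀ (k : ℕ) (χ : Sym2 (Opens X) → Fin k),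
      ∃ ℱ : ℕ → Finset (Opens X),
        (∀ n, (ℱ n).Nonempty ∧ ∀ U ∈ ℱ n, U ∈ 𝒰) ∧
        (∀ n m, n ≠ m → Disjoint (ℱ n) (ℱ m)) ∧
        LargeCover {U | ∃ n, U ∈ ℱ n} ∧
        (∀ H K, Below H K → unionOf ℱ H ≠ unionOf ℱ K) ∧
        ∃ j, ∀ H K, Below H K → χ s(unionOf ℱ H, unionOf ℱ K) = j

theorem sumProp_iff (X : Type*) [TopologicalSpace X] : SumProp X ↔ SumProp' X := by
  constructor
  · intro h 𝒰 h1 h2 k χ
    obtain ⟨ℱ, h3, h4, h5, j, h6⟩ := h 𝒰 h1 h2 k χ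
    exact ⟨ℱ, h3, h4, h5, fun H K hHK => (h6 H K hHK.1 hHK.2.1 hHK.2.2).1,
      j, fun H K hHK => (h6 H K hHK.1 hHK.2.1 hHK.2.2).2⟩
  · intro h 𝒰 h1 h2 k χ
    obtain ⟨ℱ, h3, h4, h5, h6, j, h7⟩ := h 𝒰 h1 h2 k χ
    exact ⟨ℱ, h3, h4, h5, j, fun H K hH hK hHK => ⟨h6 H K ⟨hH, hK, hHK⟩, h7 H K ⟨hH, hK, hHK⟩⟩⟩

/-- the ultrafilter number `𝔲` -/
noncomputable def uNumber : Cardinal.{0} :=
  sInf {κ | ∃ (𝒲 : Ultrafilter ℕ) (ℬ : Set (Set ℕ)),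
    (𝒲 : Filter ℕ) ≤ Filter.cofinite ∧ (𝒲 : Filter ℕ).HasBasis (fun B => B ∈ ℬ) id ∧ #ℬ = κ}

/-- groupwise dense families of infinite sets of natural numbers -/
def GroupwiseDense (𝒢 : Set (Set ℕ)) : Prop :=
  (∀ Y ∈ 𝒢, Y.Infinite) ∧
  (∀ Y ∈ 𝒢, ∀ Z : Set ℕ, Z.Infinite → (Z \ Y).Finite → Z ∈ 𝒢) ∧
  ∀ a : ℕ → ℕ, StrictMono a → a 0 = 0 →
    ∃ I : Set ℕ, I.Infinite ∧ (⋃ n ∈ I, Set.Ico (a n) (a (n + 1))) ∈ 𝒢

/-- the groupwise density number `𝔤` -/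
noncomputable def gNumber : Cardinal.{0} :=
  sInf {κ | ∃ 𝔊 : Set (Set (Set ℕ)), (∀ 𝒢 ∈ 𝔊, GroupwiseDense 𝒢) ∧ ⋂₀ 𝔊 = ∅ ∧ #𝔊 = κ}

end Pool.Agent.Lib.MP_2a01b0_gt
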