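import Pool.Agent.Lib.MP_2a01b0_gt.Poset
import Pool.Agent.Lib.MP_2a01b0_gt.Defs

set_option autoImplicit false

/-!
# Under CH there is a non-Menger set of reals with property (*)
-/

namespace Pool.Agent.Lib.MP_2a01b0_gt

open PiNat Cardinal TopologicalSpace

/-- a large cover of a second countable space has a large countable subfamily -/
theorem exists_enum {X : Type*} [TopologicalSpace X] [SecondCountableTopology X] [Nonempty X]
    {𝒰 : Set (Opens X)} (h𝒰 : LargeCover 𝒰) :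
    ∃ U : ℕ → Opens X, Function.Injective U ∧ (∀ n, U n ∈ 𝒰) ∧ ∀ x, {n | x ∈ U n}.Infinite := by
  classical
  have hsub : ∀ b : Set X, ∃ 𝒱 : Set (Opens X), 𝒱 ⊆ {U | U ∈ 𝒰 ∧ b ⊆ (U : Set X)} ∧
      𝒱.Countable ∧
      ({U | U ∈ 𝒰 ∧ b ⊆ (U : Set X)}.Infinite → 𝒱.Infinite) ∧
      ({U | U ∈ 𝒰 ∧ b ⊆ (U : Set X)}.Finite → 𝒱 = {U | U ∈ 𝒰 ∧ b ⊆ (U : Set X)}) := by
    intro b
    by_cases hb : {U | U ∈ 𝒰 ∧ b ⊆ (U : Set X)}.Finite
    · exact ⟨_, le_rfl, hb.countable, fun h => h, fun _ => rfl⟩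
    · obtain ⟨f, hf1, hf2, hf3⟩ := Set.Infinite.exists_subset_countable_infinite hb
      exact ⟨f, hf1, hf2, fun _ => hf3, fun h => absurd h hb⟩
  choose 𝒱 h1 h2 h3 h4 using hsub
  let 𝒲 : Set (Opens X) := ⋃ b ∈ countableBasis X, 𝒱 b
  have h𝒲c : 𝒲.Countable := (countable_countableBasis X).biUnion fun b _ => h2 b
  have h𝒲sub : 𝒲 ⊆ 𝒰 := by
    intro U hU
    simp only [𝒲, Set.mem_iUnion] at hU
    obtain ⟨b, _, hb⟩ := hU
    exact (h1 b hb).1
  have h𝒲inf : ∀ x, {U | U ∈ 𝒲 ∧ x ∈ U}.Infinite := by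
    intro x
    by_cases hx : ∃ b ∈ countableBasis X, x ∈ b ∧ {U | U ∈ 𝒰 ∧ b ⊆ (U : Set X)}.Infinite
    · obtain ⟨b, hb, hxb, hinf⟩ := hx
      refine (h3 b hinf).mono ?_
      intro U hU
      refine ⟨?_, (h1 b hU).2 hxb⟩
      simp only [𝒲, Set.mem_iUnion]
      exact ⟨b, hb, hU⟩
    · push Not at hx
      refine (h𝒰.2 x).mono ?_
      rintro U ⟨hU, hxU⟩
      refine ⟨?_, hxU⟩
      obtain ⟨b, hb, hxb, hbU⟩ := (isBasis_countableBasis X).exists_subset_of_mem_open hxU U.2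
      have h5 := h4 b (hx b hb hxb)
      simp only [𝒲, Set.mem_iUnion]
      refine ⟨b, hb, ?_⟩
      rw [h5]
      exact ⟨hU, hbU⟩
  have hinf : 𝒲.Infinite := by
    obtain ⟨x⟩ := (inferInstance : Nonempty X)
    exact (h𝒲inf x).mono fun U hU => hU.1
  have : Countable 𝒲 := h𝒲c.to_subtype
  have : Infinite 𝒲 := hinf.to_subtype
  obtain ⟨e⟩ : Nonempty (ℕ ≃ 𝒲) := by
    obtain ⟨_⟩ := nonempty_denumerable 𝒲
    exact ⟨(Denumerable.eqv 𝒲).symm⟩
  refine ⟨fun n => (e n : Opens X), fun a b hab => e.injective (Subtype.ext hab),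
    fun n => h𝒲sub (e n).2, fun x => ?_⟩
  have h6 := h𝒲inf x
  have h7 : {U | U ∈ 𝒲 ∧ x ∈ U} ⊆ (fun n => (e n : Opens X)) '' {n | x ∈ (e n : Opens X)} := by
    rintro U ⟨hU, hxU⟩
    refine ⟨e.symm ⟨U, hU⟩, ?_, ?_⟩ <;> simp [hxU]
  intro hfin
  exact h6 ((hfin.image _).subset h7)

theorem unionOf_image {X : Type*} [TopologicalSpace X] [DecidableEq (Opens X)] (U : ℕ → Opens X)
    (G : ℕ → Finset ℕ) (H : Finset ℕ) (x : X) :
    x ∈ unionOf (fun n => (G n).image U) H ↔ ∃ j ∈ H.biUnion G, x ∈ U j := by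
  simp only [unionOf, Opens.mem_sSup, Finset.mem_image, Finset.mem_biUnion]
  constructor
  · rintro ⟨V, ⟨i, hi, j, hj, rfl⟩, hx⟩
    exact ⟨j, ⟨i, hi, hj⟩, hx⟩
  · rintro ⟨j, ⟨i, hi, hj⟩, hx⟩
    exact ⟨U j, ⟨i, hi, j, hj, rfl⟩, hx⟩

theorem ch_side (hCH : (𝔠 : Cardinal.{0}) = ℵ₁) :
    ∃ Y : Set (ℕ → ℕ), Infinite Y ∧ SumProp' Y ∧ ¬ Menger Y := by
  classical
  obtain ⟨G, Y, hGY, htask, hdom⟩ := exists_Y hCH
  have hne : Nonempty Y := by
    obtain ⟨y, hy, _⟩ := hdom fun _ => 0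
    exact ⟨⟨y, hy⟩⟩
  refine ⟨Y, ?_, ?_, ?_⟩
  · -- infinite
    by_contra hfin
    rw [not_infinite_iff_finite] at hfin
    have hY : Y.Finite := hfin
    obtain ⟨M, hM⟩ := (hY.image fun y => y 0).bddAbove
    obtain ⟨y, hy, h⟩ := hdom fun _ => M
    have := hM ⟨y, hy, rfl⟩
    have := h 0
    simp at *
    omega
  · -- property (*)
    intro 𝒰 hlarge hnofin k χ
    obtain ⟨U, hUinj, hU𝒰, hUinf⟩ := exists_enum hlarge
    have hopen : ∀ n, ∃ S : Set (List ℕ), ∀ y : Y, y ∈ U n ↔ (y : ℕ → ℕ) ∈ OS S := by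
      intro n
      obtain ⟨O, hO, hOU⟩ := isOpen_induced_iff.1 (U n).2
      obtain ⟨S, hS⟩ := exists_OS hO
      refine ⟨S, fun y => ?_⟩
      rw [← hS]
      change y ∈ (U n).carrier ↔ _
      rw [← hOU]
      rfl
    choose S hS using hopen
    let V : Finset ℕ → Opens Y := fun H => sSup {W | ∃ j ∈ H, W = U j}
    have hV : ∀ H (y : Y), y ∈ V H ↔ ∃ j ∈ H, y ∈ U j := by
      intro H y
      simp only [V, Opens.mem_sSup]
      constructor
      · rintro ⟨_, ⟨j, hj, rfl⟩, hy⟩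
        exact ⟨j, hj, hy⟩
      · rintro ⟨j, hj, hy⟩
        exact ⟨U j, ⟨j, hj, rfl⟩, hy⟩
    let c : Finset ℕ → Finset ℕ → ℕ := fun H K => (χ s(V H, V K)).val
    obtain ⟨p, hpG, hp⟩ := htask S c k
    obtain ⟨hp1, hp2⟩ := hGY p hpG
    rcases hp (fun H K => (χ s(V H, V K)).isLt.le) with ⟨y, hy, hfin⟩ | ⟨F, hF⟩ |
      ⟨Gs, col, h1, h2, h3, h4⟩
    · exfalso
      refine hUinf ⟨y, hp1 hy⟩ (hfin.subset ?_)
      intro n hn
      exact (hS n _).1 hn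
    · exfalso
      obtain ⟨y, hy⟩ := hnofin (F.image U) (by
        intro W hW
        obtain ⟨j, _, rfl⟩ := Finset.mem_image.1 hW
        exact hU𝒰 j)
      obtain ⟨j, hj, hyj⟩ := hF y (hp2 y.2)
      exact hy (U j) (Finset.mem_image_of_mem U hj) ((hS j y).2 hyj)
    · have hun : ∀ H : Finset ℕ, unionOf (fun n => (Gs n).image U) H = V (H.biUnion Gs) := by
        intro H
        ext y
        change y ∈ unionOf (fun n => (Gs n).image U) H ↔ y ∈ V (H.biUnion Gs)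
        rw [unionOf_image, hV]
      refine ⟨fun n => (Gs n).image U, ?_, ?_, ?_, ?_, ?_⟩
      · intro n
        refine ⟨(h1 n).image U, fun W hW => ?_⟩
        obtain ⟨j, _, rfl⟩ := Finset.mem_image.1 hW
        exact hU𝒰 j
      · intro n m hnm
        exact (Finset.disjoint_image hUinj).2 (h2 n m hnm)
      · have hsub : ∀ W, W ∈ {W | ∃ n, W ∈ (Gs n).image U} → W ∈ 𝒰 := by
          rintro W ⟨n, hW⟩
          obtain ⟨j, _, rfl⟩ := Finset.mem_image.1 hW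
          exact hU𝒰 j
        have hinf : ∀ y : Y, {W | W ∈ {W | ∃ n, W ∈ (Gs n).image U} ∧ y ∈ W}.Infinite := by
          intro y
          have h5 := (h3 y (hp2 y.2)).image (f := U) hUinj.injOn
          refine h5.mono ?_
          rintro W ⟨j, ⟨⟨n, hn⟩, hyj⟩, rfl⟩
          exact ⟨⟨n, Finset.mem_image_of_mem U hn⟩, (hS j y).2 hyj⟩
        refine ⟨⟨fun W hW => hlarge.1.1 W (hsub W hW), fun y => ?_⟩, hinf⟩
        obtain ⟨W, hW1, hW2⟩ := (hinf y).nonempty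
        exact ⟨W, hW1, hW2⟩
      · rintro H K ⟨hH, hK, hHK⟩ heq
        obtain ⟨_, y, hy, ⟨j, hj, hyj⟩, hno⟩ := h4 H K hH hK hHK
        rw [hun, hun] at heq
        have h5 : (⟨y, hp1 hy⟩ : Y) ∈ V (K.biUnion Gs) := (hV _ _).2 ⟨j, hj, (hS j _).2 hyj⟩
        rw [← heq, hV] at h5
        obtain ⟨i, hi, hyi⟩ := h5
        exact hno i hi ((hS i _).1 hyi)
      · have h5 : Below {0} {1} := ⟨by simp, by simp, by simp⟩
        refine ⟨χ s(unionOf (fun n => (Gs n).image U) {0}, unionOf (fun n => (Gs n).image U) {1}),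
          ?_⟩
        rintro H K ⟨hH, hK, hHK⟩
        have h6 := (h4 H K hH hK hHK).1
        have h7 := (h4 {0} {1} h5.1 h5.2.1 h5.2.2).1
        rw [hun, hun, hun, hun]
        exact Fin.ext (h6.trans h7.symm)
  · -- not Menger
    intro hM
    let W : ℕ → ℕ → Opens Y := fun n m => ⟨{y | (y : ℕ → ℕ) n ≤ m}, by
      have : Continuous fun y : Y => (y : ℕ → ℕ) n :=
        (continuous_apply n).comp continuous_subtype_val
      exact (isOpen_discrete (Set.Iic m)).preimage this⟩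
    have hW : ∀ n m (y : Y), y ∈ W n m ↔ (y : ℕ → ℕ) n ≤ m := fun n m y => Iff.rfl
    obtain ⟨ℱ, hℱ1, hℱ2⟩ := hM (fun n => {U | U ≠ ⊥ ∧ ∃ m, U = W n m}) (by
      intro n
      refine ⟨?_, ?_⟩
      · rintro _ ⟨hne, m, rfl⟩
        refine ⟨hne, fun htop => ?_⟩
        obtain ⟨y, hy, h⟩ := hdom fun _ => m
        have h8 : (⟨y, hy⟩ : Y) ∈ W n m := by rw [htop]; trivial
        rw [hW] at h8
        have := h n
        simp only at h8
        omega
      · intro y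
        have hy : y ∈ W n ((y : ℕ → ℕ) n) := (hW _ _ _).2 le_rfl
        refine ⟨_, ⟨fun hbot => ?_, _, rfl⟩, hy⟩
        rw [hbot] at hy
        exact hy)
    have hbound : ∀ n, ∃ M, ∀ U ∈ ℱ n, ∀ y : Y, y ∈ U → (y : ℕ → ℕ) n ≤ M := by
      intro n
      have h8 : ∀ U ∈ ℱ n, ∃ m, U = W n m := fun U hU => (hℱ1 n U hU).2
      choose! f hf using h8
      refine ⟨(ℱ n).sup f, fun U hU y hy => ?_⟩
      rw [hf U hU, hW] at hy
      exact hy.trans (Finset.le_sup (f := f) hU)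
    choose g hg using hbound
    obtain ⟨y, hy, h⟩ := hdom g
    obtain ⟨U, ⟨n, hn⟩, hyU⟩ := hℱ2.2 ⟨y, hy⟩
    have h9 := hg n U hn _ hyU
    have h10 := h n
    simp only at h9
    omega

end Pool.Agent.Lib.MP_2a01b0_gt
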