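import Pool.Agent.Lib.MP_2a01b0_gt.BEnum
import Pool.Agent.Lib.MP_2a01b0_gt.CHSide

set_option autoImplicit false

/-!
# The generic set of points has the property (*) and is not Menger
-/

namespace Pool.Agent.Lib.MP_2a01b0_gt

open TopologicalSpace Pool.Agent.Ladder PiNat

theorem sumVal_Yn : sumVal Yn = ⊤ := by
  classical
  refine RO.eq_top_iff'.2 fun p0 => ?_
  unfold sumVal
  refine RO.mem_iInf.2 fun 𝒰 => RO.mem_iInf.2 fun hfam => RO.mem_iInf.2 fun k =>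
    RO.mem_iInf.2 fun χ => RO.mem_himp.2 fun p _ hp => RO.mem_iSup.2 fun q hq => ?_
  obtain ⟨hlarge, hnofin⟩ := RO.mem_inf.1 (RO.mem_of_le hp hq)
  obtain ⟨q1, hq1, U, hU𝒰, hUne, hUinf⟩ := exists_sequence hlarge
  -- unions
  let V : Finset ℕ → Opens Bai := fun H => sSup {W | ∃ j ∈ H, W = U j}
  have hV : ∀ H (y : Bai), y ∈ V H ↔ ∃ j ∈ H, y ∈ U j := by
    intro H y
    simp only [V, Opens.mem_sSup]
    constructor
    · rintro ⟨_, ⟨j, hj, rfl⟩, hy⟩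
      exact ⟨j, hj, hy⟩
    · rintro ⟨j, hj, hy⟩
      exact ⟨U j, ⟨j, hj, rfl⟩, hy⟩
  -- decide the colours
  obtain ⟨q2, hq2, hcol⟩ := meet_countable cnd_sigma
    (fun i : Finset ℕ × Finset ℕ => {r : Cnd | ∃ j, r ∈ χ.val (V i.1) (V i.2) j})
    (fun i q r ⟨j, h⟩ hr => ⟨j, RO.mem_of_le h hr⟩)
    (fun i q => by
      have h1 : q ∈ ⨆ j, χ.val (V i.1) (V i.2) j := by rw [χ.total]; exact RO.mem_top
      obtain ⟨r, hr, z, hz⟩ := RO.mem_iSup.1 h1 q le_rfl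
      exact ⟨r, ⟨z, hz⟩, hr⟩) q1
  choose cc hcc using hcol
  -- codes
  have hS : ∀ n, ∃ S : Set (List ℕ), ∀ y : Bai, y ∈ U n ↔ y ∈ OS S := by
    intro n
    obtain ⟨S, hS⟩ := exists_OS (U n).2
    refine ⟨S, fun y => ?_⟩
    rw [← hS]; rfl
  choose S hS using hS
  let c : Finset ℕ → Finset ℕ → ℕ := fun H K => (cc (H, K)).val
  obtain ⟨r, hr, hrq⟩ := dense_task S c k q2
  have hrp : r ≤ q := hrq.trans (hq2.trans hq1)
  rcases hr (fun H K => (cc (H, K)).isLt.le) with ⟨y, hy, hfin⟩ | ⟨F, hF⟩ | ⟨Gs, col, h1, h2, h3, h4⟩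
  · exfalso
    refine hUinf r (hrq.trans hq2) y hy (hfin.subset ?_)
    intro n hn
    exact (hS n _).1 hn
  · exfalso
    have h5 := RO.mem_iInf.1 hnofin (F.image U)
    have h6 := RO.mem_himp.1 h5 r hrp (ro_inf₂.2 (by
      intro W hW
      obtain ⟨j, _, rfl⟩ := Finset.mem_image.1 hW
      exact RO.mem_of_le (hU𝒰 j) (hrq.trans hq2)))
    obtain ⟨r', hr', y, hy, h7⟩ := ro_sup₂.1 h6 r le_rfl
    obtain ⟨r'', hr'', hy''⟩ := Yn_dense h7
    obtain ⟨j, hj, hyj⟩ := hF y (Z_sub (hr''.trans hr') hy'')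
    exact hy (U j) (Finset.mem_image_of_mem U hj) ((hS j y).2 hyj)
  -- the main case
  have hrq1 : r ≤ q1 := hrq.trans hq2
  let g0 : ℕ → Finset (Opens Bai) := fun n => (Gs n).image U
  have hfamle : ∀ W r', r' ≤ r → r' ∈ famOf Yn (chk g0) W → r' ∈ 𝒰 W := by
    intro W r' hr' h
    refine RO.mem_iff_dense.2 fun r'' hr'' => ?_
    obtain ⟨s1, hs1, n, h5⟩ := RO.mem_iSup.1 h r'' hr''
    obtain ⟨s2, hs2, F, h6⟩ := RO.mem_iSup.1 h5 s1 le_rfl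
    obtain ⟨s3, hs3, V', hV', h7⟩ := ro_sup₂.1 h6 s2 le_rfl
    obtain ⟨h7, h8⟩ := RO.mem_inf.1 h7
    have h9 : g0 n = F := mem_chk.1 h7
    rw [← h9] at hV'
    obtain ⟨j, hj, rfl⟩ := Finset.mem_image.1 hV'
    have hle : s3 ≤ r'' := hs3.trans (hs2.trans hs1)
    refine ⟨s3, hle, hfam _ _ s3 (RO.mem_inf.2 ⟨?_, eqVal_symm h8⟩)⟩
    exact RO.mem_of_le (hU𝒰 j) (hle.trans (hr''.trans (hr'.trans hrq1)))
  have hfamU : ∀ r' j n, j ∈ Gs n → r' ∈ famOf Yn (chk g0) (U j) := by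
    intro r' j n hj
    refine RO.mem_iSup.2 fun s1 hs1 => ⟨s1, le_rfl, n, RO.mem_iSup.2 fun s2 hs2 =>
      ⟨s2, le_rfl, g0 n, ro_sup₂.2 fun s3 hs3 => ⟨s3, le_rfl, U j, Finset.mem_image_of_mem U hj,
        RO.mem_inf.2 ⟨mem_chk.2 rfl, eqVal_refl _ _⟩⟩⟩⟩
  have hun : ∀ H : Finset ℕ, unionOf g0 H = V (H.biUnion Gs) := by
    intro H
    ext y
    change y ∈ unionOf (fun n => (Gs n).image U) H ↔ y ∈ V (H.biUnion Gs)
    rw [unionOf_image, hV]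
  have hbelow : Below {0} {1} := ⟨by simp, by simp, by simp⟩
  refine ⟨r, hrp, chk g0, RO.mem_inf.2 ⟨RO.mem_inf.2 ⟨RO.mem_inf.2 ⟨?_, ?_⟩, ?_⟩, ?_⟩⟩
  · -- contained in the family
    refine RO.mem_iInf.2 fun n => RO.mem_iInf.2 fun F => RO.mem_himp.2 fun r' hr' h => ro_inf₂.2 ?_
    intro W hW
    have h9 : g0 n = F := mem_chk.1 h
    rw [← h9] at hW
    obtain ⟨j, _, rfl⟩ := Finset.mem_image.1 hW
    exact RO.mem_of_le (hU𝒰 j) (hr'.trans hrq1)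
  · -- nonempty and disjoint
    refine RO.mem_inf.2 ⟨RO.mem_iInf.2 fun n => RO.mem_compl.2 fun r' _ h => ?_, ?_⟩
    · have h9 : g0 n = ∅ := mem_chk.1 h
      have h10 : ((Gs n).image U).Nonempty := (h1 n).image U
      rw [show (Gs n).image U = ∅ from h9] at h10
      exact Finset.not_nonempty_empty h10
    · refine RO.mem_iInf.2 fun n => RO.mem_iInf.2 fun m => RO.mem_iInf.2 fun hnm =>
        RO.mem_iInf.2 fun F => RO.mem_iInf.2 fun F' => RO.mem_himp.2 fun r' hr' h => ?_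
      obtain ⟨h5, h6⟩ := RO.mem_inf.1 h
      have h9 : g0 n = F := mem_chk.1 h5
      have h10 : g0 m = F' := mem_chk.1 h6
      refine ro_inf₂.2 fun W hW => ro_inf₂.2 fun W' hW' => ?_
      rw [← h9] at hW
      rw [← h10] at hW'
      obtain ⟨i, hi, rfl⟩ := Finset.mem_image.1 hW
      obtain ⟨j, hj, rfl⟩ := Finset.mem_image.1 hW'
      refine RO.mem_of_le (hUne i j ?_) (hr'.trans hrq1)
      rintro rfl
      exact Finset.disjoint_left.1 (h2 n m hnm) hi hj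
  · -- large
    refine RO.mem_inf.2 ⟨RO.mem_inf.2 ⟨?_, ?_⟩, ?_⟩
    · refine RO.mem_iInf.2 fun W => RO.mem_himp.2 fun r' hr' h => ?_
      have h5 := hfamle W r' hr' h
      have h6 := RO.mem_iInf.1 (RO.mem_inf.1 (RO.mem_inf.1 hlarge).1).1 W
      exact RO.mem_himp.1 h6 r' (hr'.trans hrp) h5
    · refine RO.mem_iInf.2 fun y => RO.mem_himp.2 fun r' hr' h => ro_sup₂.2 fun s1 hs1 => ?_
      obtain ⟨s2, hs2, hy⟩ := Yn_dense (RO.mem_of_le h hs1)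
      obtain ⟨j, ⟨n, hj⟩, hyj⟩ := (h3 y (Z_sub (hs2.trans (hs1.trans hr')) hy)).nonempty
      exact ⟨s2, hs2, U j, (hS j y).2 hyj, hfamU s2 j n hj⟩
    · refine RO.mem_iInf.2 fun y => RO.mem_himp.2 fun r' hr' h => RO.mem_iInf.2 fun F =>
        ro_sup₂.2 fun s1 hs1 => ?_
      obtain ⟨s2, hs2, hy⟩ := Yn_dense (RO.mem_of_le h hs1)
      have hJ := h3 y (Z_sub (hs2.trans (hs1.trans hr')) hy)
      -- decide the equality of the traces with the members of `F`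
      obtain ⟨s3, hs3, hdec⟩ := meet_countable cnd_sigma
        (fun i : ℕ × F => {q : Cnd | q ∈ eqVal Yn (U i.1) i.2 ∨ q ∈ (eqVal Yn (U i.1) i.2)ᶜ})
        (fun i q r h hr => by
          rcases h with h | h
          · exact Or.inl (RO.mem_of_le h hr)
          · exact Or.inr (RO.mem_of_le h hr))
        (fun i q => mem_or_compl _ q) s2
      have hs3q : s3 ≤ q1 := hs3.trans (hs2.trans (hs1.trans (hr'.trans hrq1)))
      have hbad : {j | ∃ W ∈ F, s3 ∈ eqVal Yn (U j) W}.Finite := by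
        have h5 : {j | ∃ W ∈ F, s3 ∈ eqVal Yn (U j) W} ⊆
            ⋃ W ∈ F, {j | s3 ∈ eqVal Yn (U j) W} := by
          rintro j ⟨W, hW, h⟩
          exact Set.mem_biUnion hW h
        refine (F.finite_toSet.biUnion fun W _ => ?_).subset h5
        refine Set.Subsingleton.finite ?_
        intro i hi j hj
        by_contra hne
        exact not_both (eqVal_trans hi (eqVal_symm hj)) (RO.mem_of_le (hUne i j hne) hs3q)
      obtain ⟨j, ⟨⟨n, hj⟩, hyj⟩, hjb⟩ := (hJ.sdiff hbad).nonempty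
      refine ⟨s3, hs3.trans hs2, U j, (hS j y).2 hyj, RO.mem_inf.2 ⟨hfamU s3 j n hj,
        ro_inf₂.2 fun W hW => ?_⟩⟩
      rcases hdec (j, ⟨W, hW⟩) with h | h
      · exact absurd ⟨W, hW, h⟩ hjb
      · exact h
  · -- homogeneous
    refine RO.mem_iSup.2 fun s0 hs0 => ⟨s0, le_rfl,
      cc (Finset.biUnion {0} Gs, Finset.biUnion {1} Gs), ?_⟩
    refine RO.mem_iInf.2 fun H => RO.mem_iInf.2 fun K => RO.mem_iInf.2 fun hHK =>
      RO.mem_iInf.2 fun g => RO.mem_himp.2 fun r' hr' h => ?_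
    have hg : ∀ i ∈ H ∪ K, g0 i = g i := fun i hi => mem_chk.1 (ro_inf₂.1 h i hi)
    have hgH : unionOf g H = V (H.biUnion Gs) := by
      rw [← hun]
      unfold unionOf
      congr 1
      ext W
      constructor
      · rintro ⟨i, hi, hW⟩
        exact ⟨i, hi, by rw [hg i (Finset.mem_union_left _ hi)]; exact hW⟩
      · rintro ⟨i, hi, hW⟩
        exact ⟨i, hi, by rw [← hg i (Finset.mem_union_left _ hi)]; exact hW⟩
    have hgK : unionOf g K = V (K.biUnion Gs) := by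
      rw [← hun]
      unfold unionOf
      congr 1
      ext W
      constructor
      · rintro ⟨i, hi, hW⟩
        exact ⟨i, hi, by rw [hg i (Finset.mem_union_right _ hi)]; exact hW⟩
      · rintro ⟨i, hi, hW⟩
        exact ⟨i, hi, by rw [← hg i (Finset.mem_union_right _ hi)]; exact hW⟩
    rw [hgH, hgK]
    obtain ⟨h5, y, hy, ⟨j, hj, hyj⟩, hno⟩ := h4 H K hHK.1 hHK.2.1 hHK.2.2
    have hr'r : r' ≤ r := hr'.trans hs0
    refine RO.mem_inf.2 ⟨RO.mem_compl.2 fun s hs heq => ?_, ?_⟩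
    · have hyY : s ∈ Yn y := RO.mem_of_le (Yn_of_mem hy) (hs.trans hr'r)
      have h6 : y ∈ V (K.biUnion Gs) := (hV _ _).2 ⟨j, hj, (hS j _).2 hyj⟩
      have h7 := eqVal_mem (eqVal_symm heq) hyY h6
      obtain ⟨i, hi, hyi⟩ := (hV _ _).1 h7
      exact hno i hi ((hS i _).1 hyi)
    · have h6 := (h4 {0} {1} hbelow.1 hbelow.2.1 hbelow.2.2).1
      have h7 : cc (H.biUnion Gs, K.biUnion Gs) =
          cc (Finset.biUnion {0} Gs, Finset.biUnion {1} Gs) := Fin.ext (h5.trans h6.symm)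
      rw [← h7]
      exact RO.mem_of_le (hcc (H.biUnion Gs, K.biUnion Gs)) (hr'r.trans hrq)

theorem mengerVal_Yn : mengerVal Yn = ⊥ := by
  classical
  refine RO.eq_bot_iff'.2 fun p hp => ?_
  let W : ℕ → ℕ → Opens Bai := fun n m => ⟨{y | y n ≤ m}, by
    have h : Continuous fun y : Bai => y n := continuous_apply n
    exact (isOpen_discrete (Set.Iic m)).preimage h⟩
  have hW : ∀ n m (y : Bai), y ∈ W n m ↔ y n ≤ m := fun n m y => Iff.rfl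
  let 𝒰 : ℕ → Opens Bai → RO Cnd := fun n U => (⨆ m, eqVal Yn U (W n m)) ⊓ (⨆ y, ⨆ (_ : y ∈ U), Yn y)
  have hfam : ∀ n, IsFam Yn (𝒰 n) := by
    intro n U V q hq
    obtain ⟨h1, h2⟩ := RO.mem_inf.1 hq
    obtain ⟨h3, h4⟩ := RO.mem_inf.1 h1
    refine RO.mem_inf.2 ⟨RO.mem_iSup.2 fun r hr => ?_, ro_sup₂.2 fun r hr => ?_⟩
    · obtain ⟨s, hs, m, h5⟩ := RO.mem_iSup.1 h3 r hr
      exact ⟨s, hs, m, eqVal_trans (eqVal_symm (RO.mem_of_le h2 (hs.trans hr))) h5⟩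
    · obtain ⟨s, hs, y, hy, h5⟩ := ro_sup₂.1 h4 r hr
      exact ⟨s, hs, y, eqVal_mem (RO.mem_of_le h2 (hs.trans hr)) h5 hy, h5⟩
  have hcov : ∀ n q, q ∈ coverVal Yn (𝒰 n) := by
    intro n q
    refine RO.mem_inf.2 ⟨RO.mem_iInf.2 fun U => RO.mem_himp.2 fun r _ hU => ?_,
      RO.mem_iInf.2 fun y => RO.mem_himp.2 fun r _ hy => ?_⟩
    · obtain ⟨h1, h2⟩ := RO.mem_inf.1 hU
      refine RO.mem_inf.2 ⟨h2, ro_sup₂.2 fun s hs => ?_⟩
      obtain ⟨s1, hs1, m, h5⟩ := RO.mem_iSup.1 h1 s hs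
      obtain ⟨s2, hs2, y, hy, hlt⟩ := exists_large (fun _ => m) s1
      refine ⟨s2, hs2.trans hs1, y, fun hyU => ?_, Yn_of_mem hy⟩
      have h6 := eqVal_mem (RO.mem_of_le h5 hs2) (Yn_of_mem hy) hyU
      rw [hW] at h6
      have := hlt n
      omega
    · refine ro_sup₂.2 fun s hs => ⟨s, le_rfl, W n (y n), (hW _ _ _).2 le_rfl,
        RO.mem_inf.2 ⟨RO.mem_iSup.2 fun s1 _ => ⟨s1, le_rfl, y n, eqVal_refl _ _⟩,
          ro_sup₂.2 fun s1 hs1 => ⟨s1, le_rfl, y, (hW _ _ _).2 le_rfl,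
            RO.mem_of_le hy (hs1.trans hs)⟩⟩⟩
  unfold mengerVal at hp
  have h1 := RO.mem_himp.1 (ro_inf₂.1 hp 𝒰 hfam) p le_rfl (RO.mem_iInf.2 fun n => hcov n p)
  obtain ⟨q, hq, s, h2⟩ := RO.mem_iSup.1 h1 p le_rfl
  obtain ⟨hsub, hcv⟩ := RO.mem_inf.1 h2
  obtain ⟨q1, hq1, F, hF⟩ := decide_seq cnd_sigma s q
  -- decide the bounds
  obtain ⟨q2, hq2, hdec⟩ := meet_countable cnd_sigma
    (fun i : (Σ n, F n) => {r : Cnd | (∃ m, r ∈ eqVal Yn (i.2 : Opens Bai) (W i.1 m)) ∨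
      r ∈ (⨆ m, eqVal Yn (i.2 : Opens Bai) (W i.1 m))ᶜ})
    (fun i r r' h hr => by
      rcases h with ⟨m, h⟩ | h
      · exact Or.inl ⟨m, RO.mem_of_le h hr⟩
      · exact Or.inr (RO.mem_of_le h hr))
    (fun i r => by
      obtain ⟨r1, h5 | h5, hr1⟩ := mem_or_compl (⨆ m, eqVal Yn (i.2 : Opens Bai) (W i.1 m)) r
      · obtain ⟨r2, hr2, m, h6⟩ := RO.mem_iSup.1 h5 r1 le_rfl
        exact ⟨r2, Or.inl ⟨m, h6⟩, hr2.trans hr1⟩
      · exact ⟨r1, Or.inr h5, hr1⟩) q1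
  have hbd : ∀ n, ∃ M, ∀ U ∈ F n, ∃ m, m ≤ M ∧ q2 ∈ eqVal Yn U (W n m) := by
    intro n
    have h3 : ∀ U ∈ F n, ∃ m, q2 ∈ eqVal Yn U (W n m) := by
      intro U hU
      rcases hdec ⟨n, ⟨U, hU⟩⟩ with h | h
      · exact h
      · exfalso
        have h6 := RO.mem_iInf.1 (RO.mem_iInf.1 hsub n) (F n)
        have h7 := ro_inf₂.1 (RO.mem_himp.1 h6 q2 (hq2.trans hq1) (RO.mem_of_le (hF n) hq2)) U hU
        exact not_both (RO.mem_inf.1 h7).1 h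
    choose! f hf using h3
    exact ⟨(F n).sup f, fun U hU => ⟨f U, Finset.le_sup (f := f) hU, hf U hU⟩⟩
  choose g hg using hbd
  obtain ⟨r, hr, y, hy, hlt⟩ := exists_large g q2
  have h3 := RO.mem_himp.1 (RO.mem_iInf.1 (RO.mem_inf.1 hcv).2 y) r (hr.trans (hq2.trans hq1))
    (Yn_of_mem hy)
  obtain ⟨s1, hs1, U, hyU, h4⟩ := ro_sup₂.1 h3 r le_rfl
  obtain ⟨s2, hs2, n, h5⟩ := RO.mem_iSup.1 h4 s1 le_rfl
  obtain ⟨s3, hs3, F', h6⟩ := RO.mem_iSup.1 h5 s2 le_rfl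
  obtain ⟨s4, hs4, V, hV, h7⟩ := ro_sup₂.1 h6 s3 le_rfl
  obtain ⟨h7, h8⟩ := RO.mem_inf.1 h7
  have hs4r : s4 ≤ r := hs4.trans (hs3.trans (hs2.trans hs1))
  have hF' : F' = F n := seq_unique h7 (RO.mem_of_le (hF n) (hs4r.trans (hr.trans hq2)))
  rw [hF'] at hV
  obtain ⟨m, hm, h9⟩ := hg n V hV
  have hyY : s4 ∈ Yn y := RO.mem_of_le (Yn_of_mem hy) hs4r
  have h10 : y ∈ V := eqVal_mem h8 hyY hyU
  have h11 := eqVal_mem (RO.mem_of_le h9 (hs4r.trans hr)) hyY h10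
  rw [hW] at h11
  have := hlt n
  omega

end Pool.Agent.Lib.MP_2a01b0_gt
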