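import Mathlib.Topology.MetricSpace.PiNat
import Mathlib.Data.Set.Finite.Lattice

set_option autoImplicit false

/-!
# Laver type conditions

Nodes are reversed finite sequences (`PiNat.res`).  A condition assigns to each node an infinite
set of allowed next values.
-/

namespace Pool.Agent.Lib.MP_2a01b0_gt

open PiNat

/-- functions which follow `A` at almost all places -/
def star (A : List ℕ → Set ℕ) : Set (ℕ → ℕ) := {y | ∃ n, ∀ i, n ≤ i → y i ∈ A (res y i)}

/-- some Laver subtree of `A` with stem `s` has all its branches in `O` -/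
def LF (A : List ℕ → Set ℕ) (O : Set (ℕ → ℕ)) (s : List ℕ) : Prop :=
  ∃ B : List ℕ → Set ℕ, (∀ t, B t ⊆ A t ∧ (B t).Infinite) ∧
    ∀ y, res y s.length = s → (∀ i, s.length ≤ i → y i ∈ B (res y i)) → y ∈ O

theorem LF_of_cyl {A : List ℕ → Set ℕ} (hA : ∀ t, (A t).Infinite) {O : Set (ℕ → ℕ)} {s : List ℕ}
    (h : ∀ y, res y s.length = s → y ∈ O) : LF A O s :=
  ⟨A, fun t => ⟨le_rfl, hA t⟩, fun y hy _ => h y hy⟩

theorem LF_mono {A : List ℕ → Set ℕ} {O O' : Set (ℕ → ℕ)} (hO : O ⊆ O') {s : List ℕ}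
    (h : LF A O s) : LF A O' s := by
  obtain ⟨B, hB, h⟩ := h
  exact ⟨B, hB, fun y hy hf => hO (h y hy hf)⟩

theorem res_suffix (y : ℕ → ℕ) {n m : ℕ} (h : n ≤ m) : res y n <:+ res y m := by
  induction h with
  | refl => exact List.suffix_rfl
  | step _ ih => exact ih.trans (by rw [res_succ]; exact List.suffix_cons _ _)

theorem res_of_suffix {y : ℕ → ℕ} {m : ℕ} {t : List ℕ} (h : t <:+ res y m) :
    res y t.length = t := by
  have hlen : t.length ≤ m := by
    have := h.length_le
    rwa [res_length] at this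
  have h1 : res y t.length <:+ res y m := res_suffix y hlen
  have h2 := List.suffix_of_suffix_length_le h1 h (by rw [res_length])
  exact h2.eq_of_length (by rw [res_length])

theorem LF_glue {A : List ℕ → Set ℕ} (hA : ∀ t, (A t).Infinite) {O : Set (ℕ → ℕ)} {s : List ℕ}
    (h : {m | m ∈ A s ∧ LF A O (m :: s)}.Infinite) : LF A O s := by
  classical
  let M : Set ℕ := {m | m ∈ A s ∧ LF A O (m :: s)}
  have hM : ∀ m ∈ M, LF A O (m :: s) := fun m hm => hm.2
  unfold LF at hM
  choose! Bm hBm1 hBm2 using hM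
  let B : List ℕ → Set ℕ := fun t =>
    {k | (t = s ∧ k ∈ M) ∨ (∃ m ∈ M, (m :: s) <:+ t ∧ k ∈ Bm m t) ∨
      (t ≠ s ∧ (∀ m ∈ M, ¬ (m :: s) <:+ t) ∧ k ∈ A t)}
  refine ⟨B, ?_, ?_⟩
  · intro t
    constructor
    · rintro k (⟨rfl, hk⟩ | ⟨m, hm, _, hk⟩ | ⟨_, _, hk⟩)
      · exact hk.1
      · exact (hBm1 m hm t).1 hk
      · exact hk
    · by_cases h1 : t = s
      · exact h.mono fun k hk => Or.inl ⟨h1, hk⟩
      · by_cases h2 : ∃ m ∈ M, (m :: s) <:+ t
        · obtain ⟨m, hm, hmt⟩ := h2
          exact (hBm1 m hm t).2.mono fun k hk => Or.inr (Or.inl ⟨m, hm, hmt, hk⟩)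
        · push Not at h2
          exact (hA t).mono fun k hk => Or.inr (Or.inr ⟨h1, h2, hk⟩)
  · intro y hy hf
    have h0 := hf s.length le_rfl
    rw [hy] at h0
    have hm : y s.length ∈ M := by
      rcases h0 with ⟨_, hk⟩ | ⟨m, hm, hmt, hk⟩ | ⟨h1, _, _⟩
      · exact hk
      · exfalso
        have := hmt.length_le
        simp at this
      · exact absurd rfl h1
    have hres : res y (s.length + 1) = y s.length :: s := by
      rw [res_succ, hy]
    refine hBm2 _ hm y (by simpa using hres) ?_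
    intro i hi
    simp only [List.length_cons] at hi
    have hsuf : (y s.length :: s) <:+ res y i := by
      rw [← hres]; exact res_suffix y hi
    rcases hf i (by omega) with ⟨h1, _⟩ | ⟨m, hm', hmt, hk⟩ | ⟨_, h2, _⟩
    · exfalso
      have := congrArg List.length h1
      rw [res_length] at this
      omega
    · have h3 := res_of_suffix hmt
      simp only [List.length_cons] at h3
      rw [hres] at h3
      have h4 : y s.length = m := (List.cons.inj h3).1
      rw [h4]; exact hk
    · exact absurd hsuf (h2 _ hm)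

theorem exists_branch0 (step : List ℕ → ℕ) : ∃ y : ℕ → ℕ, ∀ i, y i = step (res y i) := by
  let L : ℕ → List ℕ := fun n => Nat.rec [] (fun _ l => step l :: l) n
  have hL : ∀ n, L (n + 1) = step (L n) :: L n := fun n => rfl
  refine ⟨fun n => step (L n), ?_⟩
  have h : ∀ n, res (fun n => step (L n)) n = L n := by
    intro n
    induction n with
    | zero => rfl
    | succ n ih => rw [res_succ, ih, hL]
  intro i
  rw [h i]

theorem exists_branch (step : List ℕ → ℕ) (s : List ℕ) :
    ∃ y : ℕ → ℕ, res y s.length = s ∧ ∀ i, s.length ≤ i → y i = step (res y i) := by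
  obtain ⟨y, hy⟩ := exists_branch0 fun t =>
    if t.length < s.length then s.getD (s.length - 1 - t.length) 0 else step t
  refine ⟨y, ?_, ?_⟩
  · have h : ∀ n, n ≤ s.length → res y n = s.drop (s.length - n) := by
      intro n
      induction n with
      | zero => intro _; simp
      | succ n ih =>
        intro hn
        rw [res_succ, ih (by omega), hy n, res_length, if_pos (by omega)]
        have h1 : s.length - (n + 1) < s.length := by omega
        rw [List.drop_eq_getElem_cons h1]
        have h2 : s.length - (n + 1) + 1 = s.length - n := by omega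
        have h3 : s.length - 1 - n = s.length - (n + 1) := by omega
        rw [h2, h3]
        simp [List.getD, h1]
    have := h s.length le_rfl
    simpa using this
  · intro i hi
    rw [hy i, res_length, if_neg (by omega)]

/-- openness in terms of nodes -/
def IsO (U : Set (ℕ → ℕ)) : Prop := ∀ y ∈ U, ∃ n, ∀ z, res z n = res y n → z ∈ U

theorem isO_of_isOpen {U : Set (ℕ → ℕ)} (hU : IsOpen U) : IsO U := by
  intro y hy
  obtain ⟨V, ⟨x, n, rfl⟩, hyV, hVU⟩ :=
    (PiNat.isTopologicalBasis_cylinders (fun _ : ℕ => ℕ)).exists_subset_of_mem_open hy hU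
  refine ⟨n, fun z hz => hVU ?_⟩
  rw [cylinder_eq_res] at hyV ⊢
  exact hz.trans hyV

/-- Key lemma: if every branch is covered infinitely often, then `Good` indices suffice. -/
theorem LF_all {A : List ℕ → Set ℕ} (hA : ∀ t, (A t).Infinite) {U : ℕ → Set (ℕ → ℕ)}
    (hU : ∀ k, IsO (U k)) (hcov : ∀ y ∈ star A, {k | y ∈ U k}.Infinite) {Good : Set ℕ}
    (hG : ∀ t, (∀ n, {m | m ∈ A t ∧ ∃ k, n ≤ k ∧ LF A (U k) (m :: t)}.Infinite) →
      {m | m ∈ A t ∧ ∃ k ∈ Good, LF A (U k) (m :: t)}.Infinite) (s : List ℕ) :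
    LF A (⋃ k ∈ Good, U k) s := by
  classical
  by_contra hs
  have hglue : ∀ t, ¬ LF A (⋃ k ∈ Good, U k) t →
      {m | m ∈ A t ∧ LF A (⋃ k ∈ Good, U k) (m :: t)}.Finite := by
    intro t ht
    by_contra hinf
    exact ht (LF_glue hA hinf)
  have hnt : ∀ t, ¬ LF A (⋃ k ∈ Good, U k) t →
      ∃ n, {m | m ∈ A t ∧ ∃ k, n ≤ k ∧ LF A (U k) (m :: t)}.Finite := by
    intro t ht
    by_contra hcon
    push Not at hcon
    have h1 := hG t fun n => hcon n
    refine h1 ((hglue t ht).subset ?_)
    rintro m ⟨hm, k, hk, hLF⟩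
    exact ⟨hm, LF_mono (Set.subset_biUnion_of_mem hk) hLF⟩
  obtain ⟨n₀, hn₀⟩ := hnt s hs
  -- good nodes for the construction of the branch
  let Q : List ℕ → Prop := fun t => ¬ LF A (⋃ k ∈ Good, U k) t ∧
    {m | m ∈ A t ∧ ∃ k, n₀ ≤ k ∧ LF A (U k) (m :: t)}.Finite
  have hstep : ∀ t, Q t → ∃ m, m ∈ A t ∧ Q (m :: t) ∧ ∀ k, n₀ ≤ k → ¬ LF A (U k) (m :: t) := by
    rintro t ⟨ht1, ht2⟩
    have h1 := hglue t ht1
    obtain ⟨m, hm⟩ := ((hA t).sdiff (h1.union ht2)).nonempty
    have hm1 : m ∈ A t := hm.1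
    have hm2 : ¬ LF A (⋃ k ∈ Good, U k) (m :: t) := fun h => hm.2 (Or.inl ⟨hm1, h⟩)
    have hm3 : ∀ k, n₀ ≤ k → ¬ LF A (U k) (m :: t) := fun k hk h =>
      hm.2 (Or.inr ⟨hm1, k, hk, h⟩)
    refine ⟨m, hm1, ⟨hm2, ?_⟩, hm3⟩
    obtain ⟨n, hn⟩ := hnt _ hm2
    have hfin : ∀ k, n₀ ≤ k → {j | j ∈ A (m :: t) ∧ LF A (U k) (j :: m :: t)}.Finite := by
      intro k hk
      by_contra hinf
      exact hm3 k hk (LF_glue hA hinf)
    refine (hn.union ((Set.finite_lt_nat n).biUnion (t := fun k =>
      {j | n₀ ≤ k ∧ j ∈ A (m :: t) ∧ LF A (U k) (j :: m :: t)}) ?_)).subset ?_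
    · intro k _
      by_cases hk : n₀ ≤ k
      · exact (hfin k hk).subset fun j hj => hj.2
      · exact Set.Finite.subset Set.finite_empty fun j hj => absurd hj.1 hk
    · rintro j ⟨hj, k, hk, hLF⟩
      by_cases hkn : n ≤ k
      · exact Or.inl ⟨hj, k, hkn, hLF⟩
      · right
        simp only [Set.mem_iUnion]
        exact ⟨k, not_le.1 hkn, hk, hj, hLF⟩
  let step : List ℕ → ℕ := fun t => if h : Q t then (hstep t h).choose else 0
  obtain ⟨y, hy0, hy⟩ := exists_branch step s
  have hQ : ∀ i, s.length ≤ i → Q (res y i) := by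
    intro i hi
    induction hi with
    | refl => rw [hy0]; exact ⟨hs, hn₀⟩
    | step hle ih =>
      have h1 := (hstep _ ih).choose_spec
      rw [res_succ, hy _ hle]
      simp only [step, dif_pos ih]
      exact h1.2.1
  have hyA : ∀ i, s.length ≤ i → y i ∈ A (res y i) ∧
      ∀ k, n₀ ≤ k → ¬ LF A (U k) (res y (i + 1)) := by
    intro i hi
    have h1 := (hstep _ (hQ i hi)).choose_spec
    rw [res_succ, hy i hi]
    simp only [step, dif_pos (hQ i hi)]
    exact ⟨h1.1, h1.2.2⟩
  have hystar : y ∈ star A := ⟨s.length, fun i hi => (hyA i hi).1⟩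
  obtain ⟨k, hk, hkn⟩ := (hcov y hystar).exists_gt n₀
  obtain ⟨n, hn⟩ := hU k y hk
  have hlt : s.length ≤ max n s.length := le_max_right _ _
  refine (hyA _ hlt).2 k hkn.le (LF_of_cyl hA fun z hz => hn z ?_)
  rw [res_length] at hz
  have h2 : n ≤ max n s.length + 1 := le_trans (le_max_left _ _) (Nat.le_succ _)
  rw [res_eq_res] at hz ⊢
  intro j hj
  exact hz (lt_of_lt_of_le hj h2)

/-- fusion: if every open set of a decreasing sequence is forced everywhere, then some stronger
condition has all its (almost) branches in all of them. -/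
theorem exists_refine {A : List ℕ → Set ℕ} {O : ℕ → Set (ℕ → ℕ)} (hanti : Antitone O)
    (hO : ∀ N, IsO (O N)) (h : ∀ N s, LF A (O N) s) :
    ∃ A' : List ℕ → Set ℕ, (∀ t, A' t ⊆ A t ∧ (A' t).Infinite) ∧
      ∀ y ∈ star A', ∀ N, y ∈ O N := by
  classical
  unfold LF at h
  choose B hB1 hB2 using h
  -- the state: starting node and threshold of the current plan
  let Dn : ℕ → List ℕ → Prop := fun N t => ∀ z, res z t.length = t → z ∈ O N
  let nxt : List ℕ → ℕ → List ℕ × ℕ → List ℕ × ℕ := fun t m st =>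
    if Dn st.2 (m :: t) then (m :: t, st.2 + 1)
    else if m ∈ B st.2 st.1 t then st else (m :: t, st.2)
  let σ : List ℕ → List ℕ × ℕ := fun t => List.rec (([], 0) : List ℕ × ℕ)
    (fun m t st => nxt t m st) t
  have hσ : ∀ m t, σ (m :: t) = nxt t m (σ t) := fun m t => rfl
  refine ⟨fun t => B (σ t).2 (σ t).1 t, fun t => hB1 _ _ t, ?_⟩
  rintro y ⟨n₀, hn₀⟩
  have hInv : ∀ n, (σ (res y n)).1.length ≤ n ∧
      res y (σ (res y n)).1.length = (σ (res y n)).1 ∧
      ∀ j, (σ (res y n)).1.length ≤ j → j < n →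
        y j ∈ B (σ (res y n)).2 (σ (res y n)).1 (res y j) := by
    intro n
    induction n with
    | zero =>
      refine ⟨le_rfl, rfl, fun j _ hj => absurd hj (by omega)⟩
    | succ n ih =>
      rw [res_succ, hσ]
      simp only [nxt]
      split_ifs with h1 h2
      · refine ⟨by simp, ?_, fun j hj hj' => ?_⟩
        · simp only [List.length_cons, res_length]
          rw [res_succ]
        · simp at hj; omega
      · refine ⟨ih.1.trans (Nat.le_succ n), ih.2.1, fun j hj hj' => ?_⟩
        rcases Nat.lt_succ_iff_lt_or_eq.1 hj' with h3 | h3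
        · exact ih.2.2 j hj h3
        · rw [h3]; exact h2
      · refine ⟨by simp, ?_, fun j hj hj' => ?_⟩
        · simp only [List.length_cons, res_length]
          rw [res_succ]
        · simp at hj; omega
  -- progress
  have hprog : ∀ n, n₀ ≤ n → ∃ m, n < m ∧ (σ (res y m)).2 = (σ (res y n)).2 + 1 ∧
      y ∈ O (σ (res y n)).2 := by
    intro n hn
    have hconst : ∀ m, n ≤ m → (∀ i, n < i → i ≤ m → ¬ Dn (σ (res y n)).2 (res y i)) →
        σ (res y m) = σ (res y n) := by
      intro m hm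
      induction hm with
      | refl => intro _; rfl
      | @step m hm ih =>
        intro hno
        have ih' := ih fun i hi hi' => hno i hi (Nat.le_succ_of_le hi')
        rw [res_succ, hσ]
        simp only [nxt]
        rw [ih']
        have h1 : ¬ Dn (σ (res y n)).2 (y m :: res y m) := by
          rw [← res_succ]
          exact hno _ (Nat.lt_succ_of_le hm) le_rfl
        have h2 := hn₀ m (hn.trans hm)
        simp only [ih'] at h2
        rw [if_neg h1, if_pos h2]
    have hex : ∃ m, n < m ∧ Dn (σ (res y n)).2 (res y m) := by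
      by_contra hcon
      push Not at hcon
      have hall : ∀ m, n ≤ m → σ (res y m) = σ (res y n) := fun m hm =>
        hconst m hm fun i hi _ => hcon i hi
      obtain ⟨hi1, hi2, hi3⟩ := hInv n
      have hyO : y ∈ O (σ (res y n)).2 := by
        refine hB2 _ _ y hi2 fun j hj => ?_
        rcases lt_or_ge j n with hjn | hjn
        · exact hi3 j hj hjn
        · have := hn₀ j (hn.trans hjn)
          simp only [hall j hjn] at this
          exact this
      obtain ⟨l, hl⟩ := hO _ y hyO
      refine hcon (max l (n + 1)) (by omega) ?_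
      intro z hz
      refine hl z ?_
      rw [res_length] at hz
      rw [res_eq_res] at hz ⊢
      exact fun j hj => hz (lt_of_lt_of_le hj (le_max_left _ _))
    have hm := Nat.find_spec hex
    have hmin := fun i (hi : i < Nat.find hex) => Nat.find_min hex hi
    obtain ⟨m', hm'⟩ : ∃ m', Nat.find hex = m' + 1 := ⟨Nat.find hex - 1, by omega⟩
    rw [hm'] at hm hmin
    refine ⟨m' + 1, hm.1, ?_, ?_⟩
    · have h1 : σ (res y m') = σ (res y n) := by
        refine hconst m' (by omega) fun i hi hi' hD => hmin i (by omega) ⟨hi, hD⟩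
      rw [res_succ, hσ]
      simp only [nxt]
      rw [h1]
      have h2 : Dn (σ (res y n)).2 (y m' :: res y m') := by rw [← res_succ]; exact hm.2
      rw [if_pos h2]
    · exact hm.2 y (by rw [res_length])
  -- hence all thresholds are reached
  have hall : ∀ K, ∃ n, n₀ ≤ n ∧ (σ (res y n₀)).2 + K ≤ (σ (res y n)).2 := by
    intro K
    induction K with
    | zero => exact ⟨n₀, le_rfl, le_rfl⟩
    | succ K ih =>
      obtain ⟨n, hn, hK⟩ := ih
      obtain ⟨m, hm, hm2, _⟩ := hprog n hn
      exact ⟨m, by omega, by omega⟩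
  intro N
  obtain ⟨n, hn, hK⟩ := hall N
  obtain ⟨m, hm, hm2, hyO⟩ := hprog n hn
  exact hanti (by omega) hyO

end Pool.Agent.Lib.MP_2a01b0_gt
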