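import Pool.Agent.Lib.MP_2a01b0_gt.MillikenTaylor
import Pool.Agent.Lib.MP_2a01b0_gt.Laver
import Mathlib.Logic.Denumerable
import Mathlib.Order.Interval.Finset.Nat

set_option autoImplicit false

/-!
# The density lemma
-/

namespace Pool.Agent.Lib.MP_2a01b0_gt

open PiNat

theorem exists_bound {b i : ℕ} {P : ℕ → ℕ → Prop} (h : ∀ j, j ≤ i → ∃ k, b ≤ k ∧ P j k) :
    ∃ b', b < b' ∧ ∀ j, j ≤ i → ∃ k, b ≤ k ∧ k < b' ∧ P j k := by
  choose! f hf1 hf2 using h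
  refine ⟨(Finset.range (i + 1)).sup f + b + 1, by omega, fun j hj => ⟨f j, hf1 j hj, ?_, hf2 j hj⟩⟩
  have : f j ≤ (Finset.range (i + 1)).sup f := Finset.le_sup (f := f) (by simp; omega)
  omega

/-- many intervals between `b i` and `b (i+1)` -/
theorem exists_intervals {R : ℕ → ℕ → ℕ → Prop} (h : ∀ i b, ∃ b', b < b' ∧ R i b b') :
    ∃ b : ℕ → ℕ, StrictMono b ∧ b 0 = 0 ∧ ∀ i, R i (b i) (b (i + 1)) := by
  choose f hf1 hf2 using h
  let b : ℕ → ℕ := fun n => Nat.rec 0 (fun i x => f i x) n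
  have hb : ∀ i, b (i + 1) = f i (b i) := fun i => rfl
  refine ⟨b, strictMono_nat_of_lt_succ fun i => by rw [hb]; exact hf1 _ _, rfl, fun i => ?_⟩
  rw [hb]; exact hf2 _ _

theorem blocks_lt {G : ℕ → Finset ℕ} (hne : ∀ n, (G n).Nonempty)
    (h : ∀ n, ∀ a ∈ G n, ∀ b ∈ G (n + 1), a < b) {n m : ℕ} (hnm : n < m) :
    ∀ a ∈ G n, ∀ b ∈ G m, a < b := by
  induction hnm with
  | refl => exact h n
  | @step m _ ih =>
    intro a ha b hb
    obtain ⟨c, hc⟩ := hne m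
    exact (ih a ha c hc).trans (h m c hc b hb)

theorem core {A : List ℕ → Set ℕ} (hA : ∀ t, (A t).Infinite) {Z : Set (ℕ → ℕ)}
    (hZ : Z.Countable) {U : ℕ → Set (ℕ → ℕ)} (hU : ∀ k, IsO (U k))
    (h1 : ∀ y ∈ star A, {k | y ∈ U k}.Infinite) (h2 : ∀ y ∈ Z, {k | y ∈ U k}.Infinite)
    (h3 : ∀ F : Finset ℕ, ∃ y ∈ Z, ∀ k ∈ F, y ∉ U k) {κ : Type} [Finite κ]
    (c : Finset ℕ → Finset ℕ → κ) :
    ∃ A' : List ℕ → Set ℕ, (∀ t, A' t ⊆ A t ∧ (A' t).Infinite) ∧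
      ∃ (G : ℕ → Finset ℕ) (col : κ), (∀ n, (G n).Nonempty) ∧
        (∀ n m, n ≠ m → Disjoint (G n) (G m)) ∧
        (∀ y ∈ Z ∪ star A', {j | (∃ n, j ∈ G n) ∧ y ∈ U j}.Infinite) ∧
        ∀ H K : Finset ℕ, H.Nonempty → K.Nonempty → (∀ a ∈ H, ∀ b ∈ K, a < b) →
          c (H.biUnion G) (K.biUnion G) = col ∧
          ∃ y ∈ Z, (∃ j ∈ K.biUnion G, y ∈ U j) ∧ ∀ j ∈ H.biUnion G, y ∉ U j := by
  classical
  have hZne : Z.Nonempty := by
    obtain ⟨y, hy, _⟩ := h3 ∅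
    exact ⟨y, hy⟩
  obtain ⟨z, hz⟩ := hZ.exists_eq_range hZne
  have hzZ : ∀ j, z j ∈ Z := fun j => by rw [hz]; exact ⟨j, rfl⟩
  let T : ℕ → List ℕ := fun j => Denumerable.ofNat (List ℕ) j
  have hT : ∀ t, T (Encodable.encode t) = t := fun t => Denumerable.ofNat_encode t
  let type1 : List ℕ → Prop := fun t =>
    ∀ n, {m | m ∈ A t ∧ ∃ k, n ≤ k ∧ LF A (U k) (m :: t)}.Infinite
  -- one step
  have hstep : ∀ i b, ∃ b', b < b' ∧
      ((∀ j, j ≤ i → ∃ k, b ≤ k ∧ k < b' ∧ z j ∈ U k) ∧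
      (∃ y ∈ Z, (∃ k, b ≤ k ∧ k < b' ∧ y ∈ U k) ∧ ∀ k, k < b → y ∉ U k) ∧
      ∀ j, j ≤ i → type1 (T j) → ∃ m, i ≤ m ∧ m ∈ A (T j) ∧
        ∃ k, b ≤ k ∧ k < b' ∧ LF A (U k) (m :: T j)) := by
    intro i b
    obtain ⟨b1, hb1, hr1⟩ : ∃ b', b < b' ∧ ∀ j, j ≤ i → ∃ k, b ≤ k ∧ k < b' ∧ z j ∈ U k := by
      refine exists_bound fun j _ => ?_
      obtain ⟨k, hk, hbk⟩ := (h2 _ (hzZ j)).exists_gt b
      exact ⟨k, hbk.le, hk⟩
    obtain ⟨y, hyZ, hy⟩ := h3 (Finset.range b)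
    obtain ⟨k2, hk2, hbk2⟩ := (h2 y hyZ).exists_gt b
    obtain ⟨b3, hb3, hr3⟩ : ∃ b', b < b' ∧ ∀ j, j ≤ i → ∃ k, b ≤ k ∧ k < b' ∧
        (type1 (T j) → ∃ m, i ≤ m ∧ m ∈ A (T j) ∧ LF A (U k) (m :: T j)) := by
      refine exists_bound fun j _ => ?_
      by_cases ht : type1 (T j)
      · obtain ⟨m, ⟨hm, k, hk, hLF⟩, him⟩ := (ht b).exists_gt i
        exact ⟨k, hk, fun _ => ⟨m, him.le, hm, hLF⟩⟩
      · exact ⟨b, le_rfl, fun h => absurd h ht⟩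
    refine ⟨max b1 (max (k2 + 1) b3), lt_of_lt_of_le hb1 (le_max_left _ _), ?_, ?_, ?_⟩
    · intro j hj
      obtain ⟨k, hk1, hk2, hk3⟩ := hr1 j hj
      exact ⟨k, hk1, lt_of_lt_of_le hk2 (le_max_left _ _), hk3⟩
    · refine ⟨y, hyZ, ⟨k2, hbk2.le, ?_, hk2⟩, fun k hk => hy k (Finset.mem_range.2 hk)⟩
      omega
    · intro j hj ht
      obtain ⟨k, hk1, hk2, hk3⟩ := hr3 j hj
      obtain ⟨m, hm1, hm2, hm3⟩ := hk3 ht
      refine ⟨m, hm1, hm2, k, hk1, ?_, hm3⟩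
      omega
  obtain ⟨b, hbmono, _, hb⟩ := exists_intervals hstep
  have hbi : ∀ i, i ≤ b i := fun i => hbmono.id_le i
  let J : ℕ → Finset ℕ := fun i => Finset.Ico (b i) (b (i + 1))
  obtain ⟨G', col, hG'1, hG'2, hG'3⟩ := milliken_taylor fun H K => c (H.biUnion J) (K.biUnion J)
  have hG'lt : ∀ n m, n < m → ∀ a ∈ G' n, ∀ b ∈ G' m, a < b := fun n m h =>
    blocks_lt hG'1 hG'2 h
  let G : ℕ → Finset ℕ := fun n => (G' n).biUnion J
  have hGH : ∀ H : Finset ℕ, H.biUnion G = (H.biUnion G').biUnion J := by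
    intro H
    simp only [G, Finset.biUnion_biUnion]
  -- large indices in `⋃ G' n`
  have hbigG : ∀ M : ℕ, ∃ n, ∃ i ∈ G' n, M ≤ i := by
    have : ∀ n, ∀ i ∈ G' n, n ≤ i := by
      intro n
      induction n with
      | zero => intro i _; omega
      | succ n ih =>
        intro i hi
        obtain ⟨a, ha⟩ := hG'1 n
        have h1 := ih a ha
        have h2 := hG'2 n a ha i hi
        omega
    intro M
    obtain ⟨i, hi⟩ := hG'1 M
    exact ⟨M, i, hi, this M i hi⟩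
  have hmemJ : ∀ n i k, i ∈ G' n → b i ≤ k → k < b (i + 1) → k ∈ G n := by
    intro n i k hi h1 h2
    exact Finset.mem_biUnion.2 ⟨i, hi, Finset.mem_Ico.2 ⟨h1, h2⟩⟩
  -- the open sets to be forced
  let O : ℕ → Set (ℕ → ℕ) := fun N => ⋃ k ∈ {k | N ≤ k ∧ ∃ n, k ∈ G n}, U k
  have hOanti : Antitone O := by
    intro N M hNM
    refine Set.biUnion_subset_biUnion_left ?_
    rintro k ⟨h1, h2⟩
    exact ⟨hNM.trans h1, h2⟩
  have hOo : ∀ N, IsO (O N) := by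
    intro N y hy
    simp only [O, Set.mem_iUnion] at hy
    obtain ⟨k, hk, hy⟩ := hy
    obtain ⟨n, hn⟩ := hU k y hy
    refine ⟨n, fun w hw => ?_⟩
    simp only [O, Set.mem_iUnion]
    exact ⟨k, hk, hn w hw⟩
  have hLF : ∀ N s, LF A (O N) s := by
    intro N s
    refine LF_all hA hU h1 ?_ s
    intro t ht
    rw [Set.infinite_iff_exists_gt]
    intro M
    obtain ⟨n, i, hi, hMi⟩ := hbigG (M + 1 + N + Encodable.encode t)
    obtain ⟨_, _, hr⟩ := hb i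
    obtain ⟨m, hm1, hm2, k, hk1, hk2, hk3⟩ := hr (Encodable.encode t) (by omega)
      (by rw [hT]; exact ht)
    rw [hT] at hm2 hk3
    refine ⟨m, ⟨hm2, k, ⟨?_, n, hmemJ n i k hi hk1 hk2⟩, hk3⟩, by omega⟩
    have := hbi i
    omega
  obtain ⟨A', hA', hstar⟩ := exists_refine hOanti hOo hLF
  refine ⟨A', hA', G, col, ?_, ?_, ?_, ?_⟩
  · intro n
    obtain ⟨i, hi⟩ := hG'1 n
    exact ⟨b i, hmemJ n i _ hi le_rfl (hbmono (Nat.lt_succ_self i))⟩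
  · have key : ∀ n m, n < m → Disjoint (G n) (G m) := by
      intro n m hnm
      rw [Finset.disjoint_left]
      intro k hk1 hk2
      obtain ⟨i, hi, hki⟩ := Finset.mem_biUnion.1 hk1
      obtain ⟨j, hj, hkj⟩ := Finset.mem_biUnion.1 hk2
      have hij := hG'lt n m hnm i hi j hj
      have h4 := (Finset.mem_Ico.1 hki).2
      have h5 := (Finset.mem_Ico.1 hkj).1
      have h6 : b (i + 1) ≤ b j := hbmono.monotone hij
      omega
    intro n m hnm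
    rcases Nat.lt_or_gt_of_ne hnm with h | h
    · exact key n m h
    · exact (key m n h).symm
  · rintro y (hy | hy)
    · rw [hz] at hy
      obtain ⟨j, rfl⟩ := hy
      rw [Set.infinite_iff_exists_gt]
      intro M
      obtain ⟨n, i, hi, hMi⟩ := hbigG (M + 1 + j)
      obtain ⟨k, hk1, hk2, hk3⟩ := (hb i).1 j (by omega)
      refine ⟨k, ⟨⟨n, hmemJ n i k hi hk1 hk2⟩, hk3⟩, ?_⟩
      have := hbi i
      omega
    · rw [Set.infinite_iff_exists_gt]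
      intro M
      have := hstar y hy (M + 1)
      simp only [O, Set.mem_iUnion] at this
      obtain ⟨k, ⟨hk1, n, hk2⟩, hk3⟩ := this
      exact ⟨k, ⟨⟨n, hk2⟩, hk3⟩, by omega⟩
  · intro H K hH hK hHK
    refine ⟨?_, ?_⟩
    · rw [hGH, hGH]
      exact hG'3 H K hH hK hHK
    · have hne : (K.biUnion G').Nonempty := by
        obtain ⟨n, hn⟩ := hK
        obtain ⟨i, hi⟩ := hG'1 n
        exact ⟨i, Finset.mem_biUnion.2 ⟨n, hn, hi⟩⟩
      obtain ⟨i, hi⟩ := hne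
      obtain ⟨y, hyZ, ⟨k, hk1, hk2, hk3⟩, hy⟩ := (hb i).2.1
      refine ⟨y, hyZ, ⟨k, ?_, hk3⟩, ?_⟩
      · rw [hGH]
        exact Finset.mem_biUnion.2 ⟨i, hi, Finset.mem_Ico.2 ⟨hk1, hk2⟩⟩
      · intro j hj
        rw [hGH] at hj
        obtain ⟨i', hi', hji'⟩ := Finset.mem_biUnion.1 hj
        obtain ⟨n, hn, hin⟩ := Finset.mem_biUnion.1 hi
        obtain ⟨n', hn', hin'⟩ := Finset.mem_biUnion.1 hi'
        have hlt := hG'lt n' n (hHK n' hn' n hn) i' hin' i hin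
        refine hy j ?_
        have h4 := (Finset.mem_Ico.1 hji').2
        have h6 : b (i' + 1) ≤ b i := hbmono.monotone hlt
        omega

end Pool.Agent.Lib.MP_2a01b0_gt
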