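import Pool.Agent.Lib.MP_2a01b0_gt.Defs
import Mathlib.Analysis.Normed.Group.FunctionSeries
import Mathlib.Analysis.SpecificLimits.Basic
import Mathlib.Topology.Compactness.Lindelof

set_option autoImplicit false

/-!
# Property (*) implies Lindelof; continuous functions witnessing that `X` is not Menger
-/

namespace Pool.Agent.Lib.MP_2a01b0_gt

open TopologicalSpace

variable {X : Type*} [TopologicalSpace X]

theorem exists_countable_subcover (hX : SumProp' X) {ι : Type*} (U : ι → Set X)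
    (hU : ∀ i, IsOpen (U i)) (hcov : ∀ x, ∃ i, x ∈ U i) :
    ∃ t : Set ι, t.Countable ∧ ∀ x, ∃ i ∈ t, x ∈ U i := by
  classical
  by_contra hcon
  push Not at hcon
  have hfin : ∀ F : Finset ι, ∃ x, ∀ i ∈ F, x ∉ U i := fun F =>
    hcon (F : Set ι) F.countable_toSet
  let W : Finset ι → Opens X := fun F => ⟨⋃ i ∈ F, U i, isOpen_biUnion fun i _ => hU i⟩
  have hW : ∀ F x, x ∈ W F ↔ ∃ i ∈ F, x ∈ U i := by
    intro F x
    change x ∈ ⋃ i ∈ F, U i ↔ _
    simp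
  let 𝒰 : Set (Opens X) := {V | V ≠ ⊥ ∧ ∃ F, V = W F}
  -- finite families of members of `𝒰`
  have hfam : ∀ ℱ : Finset (Opens X), (∀ V ∈ ℱ, V ∈ 𝒰) → ∃ F : Finset ι, ∀ V ∈ ℱ, ∀ x ∈ V,
      ∃ i ∈ F, x ∈ U i := by
    intro ℱ hℱ
    have h1 : ∀ V ∈ ℱ, ∃ F, V = W F := fun V hV => (hℱ V hV).2
    choose! f hf using h1
    refine ⟨ℱ.biUnion f, fun V hV x hx => ?_⟩
    rw [hf V hV, hW] at hx
    obtain ⟨i, hi, hxi⟩ := hx
    exact ⟨i, Finset.mem_biUnion.2 ⟨V, hV, hi⟩, hxi⟩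
  have hno : NoFiniteSubcover 𝒰 := by
    intro ℱ hℱ
    obtain ⟨F, hF⟩ := hfam ℱ hℱ
    obtain ⟨x, hx⟩ := hfin F
    refine ⟨x, fun V hV hxV => ?_⟩
    obtain ⟨i, hi, hxi⟩ := hF V hV x hxV
    exact hx i hi hxi
  have hlarge : LargeCover 𝒰 := by
    refine ⟨⟨?_, ?_⟩, ?_⟩
    · rintro V ⟨hV, F, rfl⟩
      refine ⟨hV, fun htop => ?_⟩
      obtain ⟨x, hx⟩ := hfin F
      have h1 : x ∈ W F := by rw [htop]; trivial
      obtain ⟨i, hi, hxi⟩ := (hW F x).1 h1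
      exact hx i hi hxi
    · intro x
      obtain ⟨i, hi⟩ := hcov x
      have hx : x ∈ W {i} := (hW _ _).2 ⟨i, by simp, hi⟩
      refine ⟨W {i}, ⟨fun hbot => ?_, _, rfl⟩, hx⟩
      rw [hbot] at hx
      exact hx
    · intro x hfinx
      obtain ⟨F, hF⟩ := hfam hfinx.toFinset fun V hV => (hfinx.mem_toFinset.1 hV).1
      obtain ⟨y, hy⟩ := hfin F
      obtain ⟨i, hi⟩ := hcov x
      obtain ⟨j, hj⟩ := hcov y
      have hx : x ∈ W {i, j} := (hW _ _).2 ⟨i, by simp, hi⟩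
      have hy' : y ∈ W {i, j} := (hW _ _).2 ⟨j, by simp, hj⟩
      have hmem : W {i, j} ∈ hfinx.toFinset := by
        rw [hfinx.mem_toFinset]
        refine ⟨⟨fun hbot => ?_, _, rfl⟩, hx⟩
        rw [hbot] at hx
        exact hx
      obtain ⟨l, hl, hyl⟩ := hF _ hmem y hy'
      exact hy l hl hyl
  obtain ⟨ℱ, h1, _, h3, _⟩ := hX 𝒰 hlarge hno 1 fun _ => 0
  choose F hF using fun n => hfam (ℱ n) (h1 n).2
  obtain ⟨x, hx⟩ := hcon (⋃ n, (F n : Set ι)) (Set.countable_iUnion fun n => (F n).countable_toSet)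
  obtain ⟨V, ⟨n, hV⟩, hxV⟩ := h3.1.2 x
  obtain ⟨i, hi, hxi⟩ := hF n V hV x hxV
  exact hx i (Set.mem_iUnion.2 ⟨n, hi⟩) hxi

theorem lindelof_of_sumProp (hX : SumProp' X) : LindelofSpace X := by
  refine ⟨isLindelof_of_countable_subcover fun {ι} U hU hcov => ?_⟩
  obtain ⟨t, ht, htc⟩ := exists_countable_subcover hX U hU fun x => by
    have := hcov (Set.mem_univ x)
    simpa using this
  refine ⟨t, ht, fun x _ => ?_⟩
  obtain ⟨i, hi, hx⟩ := htc x
  exact Set.mem_biUnion hi hx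

/-- a continuous function bounded only on sets covered by finitely many members of `𝒰` -/
theorem exists_fun [CompletelyRegularSpace X] [Nonempty X] [LindelofSpace X] {𝒰 : Set (Opens X)}
    (h𝒰 : ∀ x, ∃ U ∈ 𝒰, x ∈ U) :
    ∃ g : X → ℝ, Continuous g ∧ (∀ x, 0 < g x) ∧
      ∀ r : ℝ, ∃ ℱ : Finset (Opens X), (∀ U ∈ ℱ, U ∈ 𝒰) ∧ ∀ x, g x ≤ r → ∃ U ∈ ℱ, x ∈ U := by
  classical
  choose Ux hUx1 hUx2 using h𝒰
  have h1 : ∀ x : X, ∃ c : X → ℝ, Continuous c ∧ 0 < c x ∧ (∀ y, 0 ≤ c y ∧ c y ≤ 1) ∧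
      ∀ y, 0 < c y → y ∈ Ux x := by
    intro x
    obtain ⟨f, hf1, hf2, hf3⟩ := CompletelyRegularSpace.completely_regular x ((Ux x : Set X)ᶜ)
      (Ux x).isOpen.isClosed_compl (fun h => h (hUx2 x))
    refine ⟨fun y => 1 - (f y : ℝ), ?_, ?_, ?_, ?_⟩
    · exact continuous_const.sub (continuous_subtype_val.comp hf1)
    · simp [hf2]
    · intro y
      have h1 := (f y).2.1
      have h2 := (f y).2.2
      constructor <;> linarith
    · intro y hy
      by_contra hcon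
      have h1 : f y = 1 := hf3 hcon
      simp [h1] at hy
  choose c hc1 hc2 hc3 hc4 using h1
  obtain ⟨t, ht, htcov'⟩ := (isLindelof_univ (X := X)).elim_countable_subcover
    (fun x => {y | 0 < c x y}) (fun x => isOpen_lt continuous_const (hc1 x))
    fun x _ => Set.mem_iUnion.2 ⟨x, hc2 x⟩
  have htcov : ∀ x, ∃ i ∈ t, x ∈ {y | 0 < c i y} := fun x => by
    simpa using htcov' (Set.mem_univ x)
  have htne : t.Nonempty := by
    obtain ⟨x⟩ := (inferInstance : Nonempty X)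
    obtain ⟨i, hi, _⟩ := htcov x
    exact ⟨i, hi⟩
  obtain ⟨p, hp⟩ := ht.exists_eq_range htne
  have hu : Summable fun m : ℕ => (1 / 2 : ℝ) ^ m := summable_geometric_two
  have hbound : ∀ m (y : X), ‖(1 / 2 : ℝ) ^ m * c (p m) y‖ ≤ (1 / 2 : ℝ) ^ m := by
    intro m y
    have h2 := hc3 (p m) y
    rw [norm_mul, Real.norm_of_nonneg (by positivity), Real.norm_of_nonneg h2.1]
    exact mul_le_of_le_one_right (by positivity) h2.2
  have hsum : ∀ y : X, Summable fun m : ℕ => (1 / 2 : ℝ) ^ m * c (p m) y := fun y =>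
    Summable.of_norm_bounded hu fun m => hbound m y
  have hnn : ∀ m (y : X), 0 ≤ (1 / 2 : ℝ) ^ m * c (p m) y := fun m y =>
    mul_nonneg (by positivity) (hc3 _ _).1
  let s : X → ℝ := fun y => ∑' m : ℕ, (1 / 2 : ℝ) ^ m * c (p m) y
  have hs : Continuous s :=
    continuous_tsum (fun m => continuous_const.mul (hc1 (p m))) hu hbound
  have hspos : ∀ y, 0 < s y := by
    intro y
    obtain ⟨i, hi, hy⟩ := htcov y
    rw [hp] at hi
    obtain ⟨m, rfl⟩ := hi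
    exact (hsum y).tsum_pos (fun m => hnn m y) m (mul_pos (by positivity) hy)
  refine ⟨fun y => (s y)⁻¹, hs.inv₀ fun y => (hspos y).ne', fun y => inv_pos.2 (hspos y), ?_⟩
  intro r
  obtain ⟨M, hM⟩ : ∃ M : ℕ, (1 / 2 : ℝ) ^ M * 2 < (max r 1)⁻¹ := by
    have hpos : 0 < (max r 1)⁻¹ / 2 := by positivity
    obtain ⟨M, hM⟩ := exists_pow_lt_of_lt_one hpos (by norm_num : (1 / 2 : ℝ) < 1)
    exact ⟨M, by linarith⟩
  refine ⟨(Finset.range M).image fun m => Ux (p m), ?_, ?_⟩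
  · intro U hU
    obtain ⟨m, _, rfl⟩ := Finset.mem_image.1 hU
    exact hUx1 _
  · intro y hy
    by_contra hcon
    push Not at hcon
    have h0 : ∀ m < M, c (p m) y = 0 := by
      intro m hm
      by_contra hne
      have hpos : 0 < c (p m) y := lt_of_le_of_ne (hc3 _ _).1 (Ne.symm hne)
      exact hcon _ (Finset.mem_image_of_mem _ (Finset.mem_range.2 hm)) (hc4 _ _ hpos)
    have h2 : s y ≤ (1 / 2 : ℝ) ^ M * 2 := by
      have h3 := (hsum y).sum_add_tsum_nat_add M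
      have h4 : ∑ i ∈ Finset.range M, (1 / 2 : ℝ) ^ i * c (p i) y = 0 := by
        refine Finset.sum_eq_zero fun i hi => ?_
        rw [h0 i (Finset.mem_range.1 hi), mul_zero]
      rw [h4, zero_add] at h3
      change s y ≤ _
      rw [show s y = ∑' m : ℕ, (1 / 2 : ℝ) ^ m * c (p m) y from rfl, ← h3]
      have h5 : ∑' i : ℕ, (1 / 2 : ℝ) ^ (i + M) = (1 / 2 : ℝ) ^ M * 2 := by
        simp_rw [pow_add, mul_comm _ ((1 / 2 : ℝ) ^ M)]
        rw [tsum_mul_left, tsum_geometric_two]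
      rw [← h5]
      refine Summable.tsum_le_tsum (fun i => ?_) ((summable_nat_add_iff M).2 (hsum y))
        ((summable_nat_add_iff M).2 hu)
      exact mul_le_of_le_one_right (by positivity) (hc3 _ _).2
    have h6 : (max r 1)⁻¹ ≤ s y := by
      have h7 : (s y)⁻¹ ≤ max r 1 := hy.trans (le_max_left _ _)
      exact inv_le_of_inv_le₀ (hspos y) h7
    linarith

/-- if `X` has (*) and is not Menger, there are continuous functions not simultaneously bounded by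
any sequence -/
theorem exists_funs [CompletelyRegularSpace X] [Nonempty X] (hX : SumProp' X) (hM : ¬ Menger X) :
    ∃ g : ℕ → X → ℝ, (∀ n, Continuous (g n)) ∧ (∀ n x, 0 < g n x) ∧
      ∀ r : ℕ → ℝ, ∃ x, ∀ n, r n < g n x := by
  unfold Menger at hM
  push Not at hM
  obtain ⟨𝒰, h𝒰, hno⟩ := hM
  have := lindelof_of_sumProp hX
  choose g hg1 hg2 hg3 using fun n => exists_fun (h𝒰 n).2
  refine ⟨g, hg1, hg2, fun r => ?_⟩
  by_contra hcon
  push Not at hcon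
  choose ℱ hℱ1 hℱ2 using fun n => hg3 n (r n)
  refine hno ℱ hℱ1 ⟨?_, ?_⟩
  · rintro U ⟨n, hn⟩
    exact (h𝒰 n).1 U (hℱ1 n U hn)
  · intro x
    obtain ⟨n, hn⟩ := hcon x
    obtain ⟨U, hU, hxU⟩ := hℱ2 n x hn
    exact ⟨U, ⟨n, hU⟩, hxU⟩

end Pool.Agent.Lib.MP_2a01b0_gt
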