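import Pool.Agent.Lib.MP_2a01b0_gt.Laver
import Pool.Agent.Lib.MP_2a01b0_gt.Lindelof
import Mathlib.Topology.Compactness.SigmaCompact

set_option autoImplicit false

/-!
# Hurewicz dichotomy for continuous images of the Baire space

A Tychonoff space which is a continuous image of the Baire space and is not σ-compact contains a
closed copy of the Baire space.
-/

namespace Pool.Agent.Lib.MP_2a01b0_gt

open PiNat TopologicalSpace

/-- a chain of nodes determines a branch -/
theorem exists_limit_branch {L : ℕ → List ℕ} (h1 : ∀ n, L n <:+ L (n + 1))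
    (h2 : ∀ n, n ≤ (L n).length) : ∃ z : ℕ → ℕ, ∀ n, res z (L n).length = L n := by
  have hmono : ∀ n m, n ≤ m → L n <:+ L m := by
    intro n m hnm
    induction hnm with
    | refl => exact List.suffix_rfl
    | step _ ih => exact ih.trans (h1 _)
  have hz : ∀ n, ∃ z : ℕ → ℕ, res z (L n).length = L n := fun n => by
    obtain ⟨z, hz, _⟩ := exists_branch (fun _ => 0) (L n)
    exact ⟨z, hz⟩
  choose w hw using hz
  have hw' : ∀ n m, n ≤ m → res (w m) (L n).length = L n := by
    intro n m hnm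
    apply res_of_suffix (m := (L m).length)
    rw [hw m]
    exact hmono n m hnm
  refine ⟨fun i => w (i + 1) i, fun n => ?_⟩
  rw [← hw n, res_length, res_eq_res]
  intro i hi
  rcases le_total n (i + 1) with h | h
  · have h3 := hw' n (i + 1) h
    rw [← hw n, res_length, res_eq_res] at h3
    exact h3 hi
  · have h3 := hw' (i + 1) n h
    rw [← hw (i + 1), res_length, res_eq_res] at h3
    exact (h3 (lt_of_lt_of_le (Nat.lt_succ_self i) (h2 (i + 1)))).symm

variable {X : Type*} [TopologicalSpace X]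

/-- covered by countably many compact sets -/
def SmallSet (A : Set X) : Prop := ∃ K : ℕ → Set X, (∀ n, IsCompact (K n)) ∧ A ⊆ ⋃ n, K n

theorem SmallSet.mono {A B : Set X} (h : A ⊆ B) (hB : SmallSet B) : SmallSet A := by
  obtain ⟨K, hK, hB⟩ := hB
  exact ⟨K, hK, h.trans hB⟩

theorem SmallSet.iUnion {A : ℕ → Set X} (h : ∀ n, SmallSet (A n)) : SmallSet (⋃ n, A n) := by
  choose K hK hA using h
  refine ⟨fun n => K n.unpair.1 n.unpair.2, fun n => hK _ _, ?_⟩
  intro x hx
  obtain ⟨n, hn⟩ := Set.mem_iUnion.1 hx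
  obtain ⟨m, hm⟩ := Set.mem_iUnion.1 (hA n hn)
  refine Set.mem_iUnion.2 ⟨Nat.pair n m, ?_⟩
  rw [Nat.unpair_pair]
  exact hm

theorem SmallSet.of_closure {A : Set X} (h : IsCompact (closure A)) : SmallSet A :=
  ⟨fun _ => closure A, fun _ => h, fun _ hx => Set.mem_iUnion.2 ⟨0, subset_closure hx⟩⟩

/-- in a Lindelof Tychonoff space a set with non-compact closure carries an unbounded continuous
function -/
theorem exists_unbounded [T35Space X] [LindelofSpace X] [Nonempty X] {A : Set X}
    (hA : ¬ IsCompact (closure A)) : ∃ g : X → ℝ, Continuous g ∧ ∀ r : ℝ, ∃ x ∈ A, r < g x := by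
  classical
  rw [isCompact_iff_finite_subcover] at hA
  push Not at hA
  obtain ⟨ι, U, hU, hcov, hno⟩ := hA
  obtain ⟨g, hg, _, hgb⟩ := exists_fun (X := X)
    (𝒰 := {W | (∃ i, W = ⟨U i, hU i⟩) ∨ W = ⟨(closure A)ᶜ, isClosed_closure.isOpen_compl⟩}) (by
      intro x
      by_cases hx : x ∈ closure A
      · obtain ⟨i, hi⟩ := Set.mem_iUnion.1 (hcov hx)
        exact ⟨⟨U i, hU i⟩, Or.inl ⟨i, rfl⟩, hi⟩
      · exact ⟨_, Or.inr rfl, hx⟩)
  refine ⟨g, hg, fun r => ?_⟩
  by_contra hcon
  push Not at hcon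
  obtain ⟨ℱ, hℱ, hr⟩ := hgb r
  have hcl : closure A ⊆ {x | g x ≤ r} :=
    closure_minimal hcon (isClosed_le hg continuous_const)
  have hidx : ∀ W ∈ ℱ, ∃ t : Finset ι, ∀ x ∈ W, x ∈ closure A → ∃ i ∈ t, x ∈ U i := by
    intro W hW
    rcases hℱ W hW with ⟨i, rfl⟩ | rfl
    · exact ⟨{i}, fun x hx _ => ⟨i, by simp, hx⟩⟩
    · exact ⟨∅, fun x hx hx' => absurd hx' hx⟩
  choose! t ht using hidx
  refine hno (ℱ.biUnion t) fun x hx => ?_
  obtain ⟨W, hW, hxW⟩ := hr x (hcl hx)
  obtain ⟨i, hi, hxi⟩ := ht W hW x hxW hx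
  exact Set.mem_biUnion (Finset.mem_biUnion.2 ⟨W, hW, hi⟩) hxi

section Tree

variable {f : (ℕ → ℕ) → X}

/-- image of a cylinder -/
def img (f : (ℕ → ℕ) → X) (s : List ℕ) : Set X := f '' {z | res z s.length = s}

omit [TopologicalSpace X] in
theorem img_mono {s t : List ℕ} (h : s <:+ t) : img f t ⊆ img f s := by
  rintro _ ⟨z, hz, rfl⟩
  refine ⟨z, ?_, rfl⟩
  have hz' : res z t.length = t := hz
  exact res_of_suffix (m := t.length) (by rw [hz']; exact h)

theorem exists_split [T35Space X] [LindelofSpace X] (hf : Continuous f) {s : List ℕ}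
    (hs : ¬ SmallSet (img f s)) : ∃ g : X → ℝ, Continuous g ∧ ∀ M : ℝ, ∃ (t : List ℕ) (c : ℝ),
      s <:+ t ∧ s.length < t.length ∧ ¬ SmallSet (img f t) ∧ M < c ∧
      ∀ x ∈ img f t, |g x - c| < 1 / 4 := by
  classical
  have hX : Nonempty X := ⟨f fun _ => 0⟩
  let A : Set X := img f s \ ⋃ t ∈ {t : List ℕ | SmallSet (img f t)}, img f t
  have hA : ¬ SmallSet A := by
    intro h
    refine hs ?_
    have h1 : img f s ⊆ A ∪ ⋃ n : ℕ, (fun n : ℕ =>
        if SmallSet (img f (Denumerable.ofNat (List ℕ) n)) then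
          img f (Denumerable.ofNat (List ℕ) n) else ∅) n := by
      intro x hx
      by_cases hx' : x ∈ ⋃ t ∈ {t : List ℕ | SmallSet (img f t)}, img f t
      · right
        simp only [Set.mem_iUnion] at hx'
        obtain ⟨t, ht, hxt⟩ := hx'
        refine Set.mem_iUnion.2 ⟨Encodable.encode t, ?_⟩
        have ht' : SmallSet (img f t) := ht
        simp only [Denumerable.ofNat_encode, if_pos ht']
        exact hxt
      · exact Or.inl ⟨hx, hx'⟩
    have h2 : SmallSet (⋃ n : ℕ, (fun n : ℕ =>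
        if SmallSet (img f (Denumerable.ofNat (List ℕ) n)) then
          img f (Denumerable.ofNat (List ℕ) n) else ∅) n) := by
      refine SmallSet.iUnion fun n => ?_
      by_cases h : SmallSet (img f (Denumerable.ofNat (List ℕ) n))
      · simp only [if_pos h]; exact h
      · simp only [if_neg h]
        exact ⟨fun _ => ∅, fun _ => isCompact_empty, Set.empty_subset _⟩
    have h3 : SmallSet (⋃ n : ℕ, (fun n : ℕ => if n = 0 then A else
        ⋃ n : ℕ, (fun n : ℕ =>
        if SmallSet (img f (Denumerable.ofNat (List ℕ) n)) then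
          img f (Denumerable.ofNat (List ℕ) n) else ∅) n) n) := by
      refine SmallSet.iUnion fun n => ?_
      by_cases hn : n = 0
      · simp only [if_pos hn]; exact h
      · simp only [if_neg hn]; exact h2
    refine h3.mono (h1.trans ?_)
    rintro x (hx | hx)
    · exact Set.mem_iUnion.2 ⟨0, hx⟩
    · exact Set.mem_iUnion.2 ⟨1, hx⟩
  obtain ⟨g, hg, hgu⟩ := exists_unbounded (A := A) fun h => hA (SmallSet.of_closure h)
  refine ⟨g, hg, fun M => ?_⟩
  obtain ⟨x, ⟨⟨z, hz, rfl⟩, hx2⟩, hM⟩ := hgu M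
  have hbig : ∀ l, ¬ SmallSet (img f (res z l)) := by
    intro l hl
    refine hx2 ?_
    simp only [Set.mem_iUnion]
    exact ⟨res z l, hl, z, by simp [res_length], rfl⟩
  have hopen : IsOpen {z' | |g (f z') - g (f z)| < 1 / 4} :=
    isOpen_lt ((hg.comp hf).sub continuous_const).abs continuous_const
  obtain ⟨l, hl⟩ := isO_of_isOpen hopen z (by simp)
  refine ⟨res z (max l (s.length + 1)), g (f z), ?_, ?_, hbig _, hM, ?_⟩
  · have hz' : res z s.length = s := hz
    have h1 := res_suffix z (n := s.length) (m := max l (s.length + 1)) (by omega)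
    rwa [hz'] at h1
  · rw [res_length]; omega
  · rintro _ ⟨z', hz', rfl⟩
    refine hl z' ?_
    have h1 : res z' (res z (max l (s.length + 1))).length = res z (max l (s.length + 1)) := hz'
    rw [res_length] at h1
    rw [res_eq_res] at h1 ⊢
    exact fun i hi => h1 (lt_of_lt_of_le hi (le_max_left _ _))

theorem exists_seq_split [T35Space X] [LindelofSpace X] (hf : Continuous f) {s : List ℕ}
    (hs : ¬ SmallSet (img f s)) : ∃ (g : X → ℝ) (t : ℕ → List ℕ) (c : ℕ → ℝ), Continuous g ∧
      (∀ j, s <:+ t j ∧ s.length < (t j).length ∧ ¬ SmallSet (img f (t j)) ∧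
      ∀ x ∈ img f (t j), |g x - c j| < 1 / 4) ∧ ∀ j j', c j - c j' < 1 → c j' - c j < 1 →
        j = j' := by
  obtain ⟨g, hg, h⟩ := exists_split hf hs
  choose t c h1 h2 h3 h4 h5 using h
  let M : ℕ → ℝ := fun j => Nat.rec 0 (fun _ x => c x + 1) j
  have hM : ∀ j, M (j + 1) = c (M j) + 1 := fun j => rfl
  have hlt : ∀ i j, i < j → c (M i) + 1 < c (M j) := by
    intro i j hij
    induction hij with
    | refl => have := h4 (M (i + 1)); rw [hM] at this; exact this
    | @step m _ ih =>
      have := h4 (M (m + 1))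
      rw [hM] at this
      have h6 : c (M (m + 1)) = c (M (m.succ)) := rfl
      rw [← h6, hM]
      linarith
  refine ⟨g, fun j => t (M j), fun j => c (M j), hg, fun j => ⟨h1 _, h2 _, h3 _, h5 _⟩, ?_⟩
  intro j j' hj hj'
  rcases lt_trichotomy j j' with h | h | h
  · have := hlt j j' h; linarith
  · exact h
  · have := hlt j' j h; linarith

end Tree

/-- **Hurewicz dichotomy** -/
theorem exists_closedEmbedding [T35Space X] {f : (ℕ → ℕ) → X} (hf : Continuous f)
    (hsurj : Function.Surjective f) (hX : ¬ SigmaCompactSpace X) :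
    ∃ e : (ℕ → ℕ) → X, Topology.IsClosedEmbedding e := by
  classical
  have hL : LindelofSpace X := by
    refine ⟨?_⟩
    rw [← Set.image_univ_of_surjective hsurj]
    exact isLindelof_univ.image hf
  have hroot : ¬ SmallSet (img f []) := by
    rintro ⟨K, hK, hcov⟩
    refine hX ⟨⟨K, hK, ?_⟩⟩
    rw [Set.eq_univ_iff_forall]
    intro x
    obtain ⟨z, rfl⟩ := hsurj x
    exact hcov ⟨z, by simp, rfl⟩
  let Big : Type := {s : List ℕ // ¬ SmallSet (img f s)}
  choose g t c hg ht hc using fun s : Big => exists_seq_split hf s.2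
  let τ : List ℕ → Big := fun u => List.rec (⟨[], hroot⟩ : Big)
    (fun j _ s => ⟨t s j, (ht s j).2.2.1⟩) u
  have hτ : ∀ j u, τ (j :: u) = ⟨t (τ u) j, (ht (τ u) j).2.2.1⟩ := fun j u => rfl
  have hlim : ∀ y : ℕ → ℕ, ∃ z : ℕ → ℕ, ∀ n, res z (τ (res y n)).1.length = (τ (res y n)).1 := by
    intro y
    refine exists_limit_branch (L := fun n => (τ (res y n)).1) ?_ ?_
    · intro n
      simp only [res_succ, hτ]
      exact (ht _ _).1
    · intro n
      induction n with
      | zero => exact Nat.zero_le _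
      | succ n ih =>
        simp only [res_succ, hτ]
        have := (ht (τ (res y n)) (y n)).2.1
        omega
  have hlen : ∀ (y : ℕ → ℕ) n, n ≤ (τ (res y n)).1.length := by
    intro y n
    induction n with
    | zero => exact Nat.zero_le _
    | succ n ih =>
      simp only [res_succ, hτ]
      have := (ht (τ (res y n)) (y n)).2.1
      omega
  choose ζ hζ using hlim
  -- the image of `ζ y` is in the right piece
  have hpiece : ∀ (y : ℕ → ℕ) n, |g (τ (res y n)) (f (ζ y)) - c (τ (res y n)) (y n)| < 1 / 4 := by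
    intro y n
    refine (ht (τ (res y n)) (y n)).2.2.2 _ ⟨ζ y, ?_, rfl⟩
    have := hζ y (n + 1)
    simp only [res_succ, hτ] at this
    exact this
  have hζc : Continuous ζ := by
    rw [continuous_pi_iff]
    intro i
    rw [continuous_discrete_rng]
    intro a
    rw [isOpen_iff_mem_nhds]
    intro y hy
    have hcyl : {y' | res y' (i + 1) = res y (i + 1)} ∈ nhds y := by
      have h1 := (PiNat.isOpen_cylinder (fun _ : ℕ => ℕ) y (i + 1)).mem_nhds
        (PiNat.self_mem_cylinder y (i + 1))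
      rwa [cylinder_eq_res] at h1
    refine Filter.mem_of_superset hcyl ?_
    intro y' hy'
    have h1 := hζ y (i + 1)
    have h2 := hζ y' (i + 1)
    rw [show res y' (i + 1) = res y (i + 1) from hy'] at h2
    have h3 := h2.trans h1.symm
    rw [res_eq_res] at h3
    have h4 := h3 (lt_of_lt_of_le (Nat.lt_succ_self i) (hlen y (i + 1)))
    have hy0 : ζ y i = a := hy
    change ζ y' i = a
    rw [h4, hy0]
  refine ⟨fun y => f (ζ y), ?_⟩
  refine Topology.IsClosedEmbedding.of_continuous_injective_isClosedMap (hf.comp hζc) ?_ ?_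
  · intro y y' hyy
    have key : ∀ n, res y n = res y' n := by
      intro n
      induction n with
      | zero => rfl
      | succ n ih =>
        rw [res_succ, res_succ, ih]
        congr 1
        have h1 := abs_lt.1 (hpiece y n)
        have h2 := abs_lt.1 (hpiece y' n)
        have hyy' : f (ζ y) = f (ζ y') := hyy
        rw [ih, hyy'] at h1
        refine hc (τ (res y' n)) (y n) (y' n) ?_ ?_ <;> linarith [h1.1, h1.2, h2.1, h2.2]
    exact res_injective (funext key)
  · intro A hA
    rw [isClosed_iff_ultrafilter]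
    intro x u hux hAu
    let 𝒲 : Ultrafilter (ℕ → ℕ) := Ultrafilter.ofComapInfPrincipal hAu
    have hA𝒲 : A ∈ 𝒲 := Ultrafilter.ofComapInfPrincipal_mem hAu
    have hmap : 𝒲.map (fun y => f (ζ y)) = u := Ultrafilter.ofComapInfPrincipal_eq_of_map hAu
    have htend : Filter.Tendsto (fun y => f (ζ y)) 𝒲 (nhds x) := by
      change Filter.map (fun y => f (ζ y)) (𝒲 : Filter (ℕ → ℕ)) ≤ nhds x
      rw [← Ultrafilter.coe_map, hmap]
      exact hux
    have hres : ∀ n, ∃ l : List ℕ, {y | res y n = l} ∈ 𝒲 := by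
      intro n
      induction n with
      | zero => exact ⟨[], by simp only [res_zero]; exact Filter.univ_mem⟩
      | succ n ih =>
        obtain ⟨l, hl⟩ := ih
        have h1 : {y | |g (τ l) (f (ζ y)) - g (τ l) x| < 1 / 8} ∈ 𝒲 := by
          have h2 : {x' | |g (τ l) x' - g (τ l) x| < 1 / 8} ∈ nhds x :=
            (isOpen_lt ((hg (τ l)).sub continuous_const).abs continuous_const).mem_nhds (by simp)
          exact htend h2
        have h3 := Filter.inter_mem hl h1
        obtain ⟨y0, hy0, hy0'⟩ := Ultrafilter.nonempty_of_mem h3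
        refine ⟨y0 n :: l, Filter.mem_of_superset h3 ?_⟩
        rintro y ⟨hy, hy'⟩
        have hyl : res y n = l := hy
        have hyl0 : res y0 n = l := hy0
        have h4 := abs_lt.1 (hpiece y n)
        have h5 := abs_lt.1 (hpiece y0 n)
        rw [hyl] at h4
        rw [hyl0] at h5
        have h6 := abs_lt.1 (show |g (τ l) (f (ζ y)) - g (τ l) x| < 1 / 8 from hy')
        have h7 := abs_lt.1 (show |g (τ l) (f (ζ y0)) - g (τ l) x| < 1 / 8 from hy0')
        change res y (n + 1) = y0 n :: l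
        rw [res_succ, hyl]
        congr 1
        refine hc (τ l) (y n) (y0 n) ?_ ?_ <;> linarith [h4.1, h4.2, h5.1, h5.2, h6.1, h6.2, h7.1, h7.2]
    have hval : ∀ i, ∃ j, {y : ℕ → ℕ | y i = j} ∈ 𝒲 := by
      intro i
      obtain ⟨l, hl⟩ := hres (i + 1)
      obtain ⟨y0, hy0⟩ := Ultrafilter.nonempty_of_mem hl
      refine ⟨y0 i, Filter.mem_of_superset hl ?_⟩
      intro y hy
      have h1 : res y (i + 1) = res y0 (i + 1) := by
        rw [show res y (i + 1) = l from hy, show res y0 (i + 1) = l from hy0]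
      rw [res_eq_res] at h1
      exact h1 (Nat.lt_succ_self i)
    choose y₀ hy₀ using hval
    have h𝒲y : (𝒲 : Filter (ℕ → ℕ)) ≤ nhds y₀ := by
      rw [← Filter.tendsto_id', tendsto_pi_nhds]
      intro i
      rw [nhds_discrete, Filter.tendsto_pure]
      exact hy₀ i
    have hyA : y₀ ∈ A := isClosed_iff_ultrafilter.1 hA y₀ 𝒲 h𝒲y hA𝒲
    have hy2 : Filter.Tendsto (fun y => f (ζ y)) 𝒲 (nhds (f (ζ y₀))) :=
      ((hf.comp hζc).tendsto y₀).mono_left h𝒲y
    exact ⟨y₀, hyA, tendsto_nhds_unique hy2 htend⟩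

end Pool.Agent.Lib.MP_2a01b0_gt
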