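import Pool.Agent.Lib.MP_2a01b0_gt.Colour
import Pool.Agent.Lib.MP_2a01b0_gt.Core
import Pool.Agent.Lib.MP_2a01b0_gt.Hurewicz

set_option autoImplicit false

/-!
# Spaces with a closed copy of the Baire space fail (*)
-/

namespace Pool.Agent.Lib.MP_2a01b0_gt

open TopologicalSpace

/-- a space with a closed copy of the Baire space does not have property (*) -/
theorem not_sumProp_of_closedEmbedding {X : Type*} [TopologicalSpace X] {e : (ℕ → ℕ) → X}
    (he : Topology.IsClosedEmbedding e) : ¬ SumProp' X := by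
  classical
  -- the cover
  let P : ℕ → Set (ℕ → ℕ) := fun k => {y | y k.unpair.1 = k.unpair.2}
  have hP : ∀ k, IsOpen (P k) := by
    intro k
    have h1 : Continuous fun y : ℕ → ℕ => y k.unpair.1 := continuous_apply k.unpair.1
    exact (isOpen_discrete ({k.unpair.2} : Set ℕ)).preimage h1
  let U : ℕ → Opens X := fun k => ⟨(e '' (P k)ᶜ)ᶜ,
    (he.isClosedMap _ (hP k).isClosed_compl).isOpen_compl⟩
  have hUe : ∀ k y, e y ∈ U k ↔ y k.unpair.1 = k.unpair.2 := by
    intro k y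
    change e y ∈ (e '' (P k)ᶜ)ᶜ ↔ _
    rw [Set.mem_compl_iff, he.injective.mem_set_image]
    simp [P]
  have hUx : ∀ k x, x ∉ Set.range e → x ∈ U k := by
    intro k x hx
    change x ∈ (e '' (P k)ᶜ)ᶜ
    rintro ⟨y, _, rfl⟩
    exact hx ⟨y, rfl⟩
  -- a function avoiding a finite set except possibly at one place
  have hav : ∀ (F : Finset ℕ), ∃ y : ℕ → ℕ, ∀ k ∈ F, y k.unpair.1 ≠ k.unpair.2 := by
    intro F
    refine ⟨fun _ => F.sup id + 1, fun k hk h => ?_⟩
    have h1 : k ≤ F.sup id := Finset.le_sup (f := id) hk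
    have h2 := Nat.unpair_right_le k
    simp only at h
    omega
  have hav2 : ∀ (F : Finset ℕ) (l : ℕ), l ∉ F → ∃ y : ℕ → ℕ, y l.unpair.1 = l.unpair.2 ∧
      ∀ k ∈ F, y k.unpair.1 ≠ k.unpair.2 := by
    intro F l hl
    refine ⟨fun n => if n = l.unpair.1 then l.unpair.2 else F.sup id + 1, by simp,
      fun k hk h => ?_⟩
    have h1 : k ≤ F.sup id := Finset.le_sup (f := id) hk
    have h2 := Nat.unpair_right_le k
    simp only at h
    by_cases hkl : k.unpair.1 = l.unpair.1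
    · rw [if_pos hkl] at h
      refine hl ?_
      have : k = l := by
        rw [← Nat.pair_unpair k, ← Nat.pair_unpair l, hkl, h]
      rwa [← this]
    · rw [if_neg hkl] at h
      omega
  -- the intervals
  obtain ⟨b, hb, hb0, hbR⟩ := exists_intervals (R := fun i b b' => ∀ n, n ≤ i →
    ∃ k, b ≤ k ∧ k < b' ∧ k.unpair.1 = n) (by
      intro i b
      exact exists_bound fun n _ => ⟨Nat.pair n b, Nat.right_le_pair n b, by simp⟩)
  refine not_sumProp U ?_ ?_ ?_ ?_ hb hb0 ?_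
  · intro F F' h
    have key : ∀ F F' : Finset ℕ, (∀ x, (∃ k ∈ F, x ∈ U k) → ∃ k ∈ F', x ∈ U k) → F ⊆ F' := by
      intro F F' h l hl
      by_contra hl'
      obtain ⟨y, hy1, hy2⟩ := hav2 F' l hl'
      obtain ⟨k, hk, hyk⟩ := h (e y) ⟨l, hl, (hUe _ _).2 hy1⟩
      exact hy2 k hk ((hUe _ _).1 hyk)
    exact Finset.Subset.antisymm (key F F' fun x => (h x).1) (key F' F fun x => (h x).2)
  · intro k h
    have h1 : e (fun _ => k.unpair.2) ∈ U k := (hUe _ _).2 rfl
    rw [h] at h1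
    exact h1
  · intro F
    obtain ⟨y, hy⟩ := hav F
    exact ⟨e y, fun k hk h => hy k hk ((hUe _ _).1 h)⟩
  · intro x
    by_cases hx : x ∈ Set.range e
    · obtain ⟨y, rfl⟩ := hx
      have h1 : Function.Injective fun n : ℕ => Nat.pair n (y n) := by
        intro n m hnm
        have := congrArg (fun k => (Nat.unpair k).1) hnm
        simpa using this
      refine (Set.infinite_range_of_injective h1).mono ?_
      rintro _ ⟨n, rfl⟩
      exact (hUe _ _).2 (by simp)
    · have : {k | x ∈ U k} = Set.univ := by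
        rw [Set.eq_univ_iff_forall]
        exact fun k => hUx k x hx
      rw [this]
      exact Set.infinite_univ
  · intro I hI
    have h1 : ∀ n : ℕ, ∃ m : ℕ, ∃ i ∈ I, b i ≤ Nat.pair n m ∧ Nat.pair n m < b (i + 1) := by
      intro n
      obtain ⟨i, hi, hni⟩ := hI.exists_gt n
      obtain ⟨k, hk1, hk2, hk3⟩ := hbR i n hni.le
      refine ⟨k.unpair.2, i, hi, ?_⟩
      rw [← hk3, Nat.pair_unpair]
      exact ⟨hk1, hk2⟩
    choose y i hi hy1 hy2 using h1
    refine ⟨e y, Set.Finite.subset Set.finite_empty ?_⟩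
    rintro k ⟨hk1, hk2⟩
    refine hk2 ?_
    have h3 : y k.unpair.1 = k.unpair.2 := (hUe _ _).1 hk1
    simp only [Set.mem_iUnion]
    refine ⟨i k.unpair.1, hi _, ?_⟩
    have h4 := hy1 k.unpair.1
    have h5 := hy2 k.unpair.1
    rw [h3, Nat.pair_unpair] at h4 h5
    exact ⟨h4, h5⟩

/-- σ-compact spaces are Menger -/
theorem menger_of_sigmaCompact {X : Type*} [TopologicalSpace X] [SigmaCompactSpace X] :
    Menger X := by
  classical
  intro 𝒰 h𝒰
  have h : ∀ n, ∃ ℱ : Finset (Opens X), (∀ U ∈ ℱ, U ∈ 𝒰 n) ∧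
      ∀ x ∈ compactCovering X n, ∃ U ∈ ℱ, x ∈ U := by
    intro n
    obtain ⟨t, ht⟩ := (isCompact_compactCovering X n).elim_finite_subcover
      (fun U : 𝒰 n => (U.1 : Set X)) (fun U => U.1.isOpen) (by
        intro x _
        obtain ⟨U, hU, hx⟩ := (h𝒰 n).2 x
        exact Set.mem_iUnion.2 ⟨⟨U, hU⟩, hx⟩)
    refine ⟨t.image Subtype.val, ?_, ?_⟩
    · intro U hU
      obtain ⟨V, _, rfl⟩ := Finset.mem_image.1 hU
      exact V.2
    · intro x hx
      have := ht hx
      simp only [Set.mem_iUnion] at this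
      obtain ⟨V, hV, hxV⟩ := this
      exact ⟨V.1, Finset.mem_image_of_mem _ hV, hxV⟩
  choose ℱ h1 h2 using h
  refine ⟨ℱ, h1, ?_, ?_⟩
  · rintro U ⟨n, hn⟩
    exact (h𝒰 n).1 U (h1 n U hn)
  · intro x
    obtain ⟨n, hn⟩ := exists_mem_compactCovering x
    obtain ⟨U, hU, hx⟩ := h2 n x hn
    exact ⟨U, ⟨n, hU⟩, hx⟩

theorem sigmaCompact_of_sumProp {X : Type*} [TopologicalSpace X] [T35Space X]
    {f : (ℕ → ℕ) → X} (hf : Continuous f) (hsurj : Function.Surjective f) (hX : SumProp' X) :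
    SigmaCompactSpace X := by
  by_contra h
  obtain ⟨e, he⟩ := exists_closedEmbedding hf hsurj h
  exact not_sumProp_of_closedEmbedding he hX

end Pool.Agent.Lib.MP_2a01b0_gt
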