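import Pool.Agent.Lib.MP_2a01b0_gt.Defs
import Mathlib.Data.Finset.Preimage
import Mathlib.Data.Nat.Find
import Mathlib.Data.Set.Finite.Lattice

set_option autoImplicit false

/-!
# The colouring

A large cover whose finite unions determine their index sets, together with an interval partition
such that inside every infinite union of intervals there is almost the whole trace of some point,
refutes the property (*).
-/

namespace Pool.Agent.Lib.MP_2a01b0_gt

open TopologicalSpace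

/-- index of the interval containing `k` -/
noncomputable def ivl (b : ℕ → ℕ) (k : ℕ) : ℕ := Nat.findGreatest (fun i => b i ≤ k) k

theorem ivl_spec {b : ℕ → ℕ} (hb : StrictMono b) (hb0 : b 0 = 0) (k : ℕ) :
    b (ivl b k) ≤ k ∧ k < b (ivl b k + 1) := by
  classical
  constructor
  · exact Nat.findGreatest_spec (P := fun i => b i ≤ k) (Nat.zero_le k) (by simp [hb0])
  · by_contra hcon
    have h1 : b (ivl b k + 1) ≤ k := not_lt.1 hcon
    have h2 : ivl b k + 1 ≤ k := le_trans (hb.id_le _) h1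
    have h3 : ivl b k + 1 ≤ ivl b k := Nat.le_findGreatest (P := fun i => b i ≤ k) h2 h1
    omega

theorem ivl_eq {b : ℕ → ℕ} (hb : StrictMono b) (hb0 : b 0 = 0) {k i : ℕ} (h1 : b i ≤ k)
    (h2 : k < b (i + 1)) : ivl b k = i := by
  obtain ⟨h3, h4⟩ := ivl_spec hb hb0 k
  rcases lt_trichotomy (ivl b k) i with h | h | h
  · have : b (ivl b k + 1) ≤ b i := hb.monotone h
    omega
  · exact h
  · have : b (i + 1) ≤ b (ivl b k) := hb.monotone h
    omega

theorem not_sumProp {X : Type*} [TopologicalSpace X] (U : ℕ → Opens X)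
    (hinj : ∀ F F' : Finset ℕ, (∀ x, (∃ k ∈ F, x ∈ U k) ↔ ∃ k ∈ F', x ∈ U k) → F = F')
    (hne : ∀ k, U k ≠ ⊥) (hno : ∀ F : Finset ℕ, ∃ x, ∀ k ∈ F, x ∉ U k)
    (hinf : ∀ x, {k | x ∈ U k}.Infinite)
    {b : ℕ → ℕ} (hb : StrictMono b) (hb0 : b 0 = 0)
    (hbI : ∀ I : Set ℕ, I.Infinite → ∃ x, ({k | x ∈ U k} \ ⋃ i ∈ I, Set.Ico (b i) (b (i + 1))).Finite) :
    ¬ SumProp' X := by
  classical
  intro hX
  -- finite unions
  let V : Finset ℕ → Opens X := fun F => sSup {W | ∃ j ∈ F, W = U j}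
  have hV : ∀ F x, x ∈ V F ↔ ∃ j ∈ F, x ∈ U j := by
    intro F x
    simp only [V, Opens.mem_sSup]
    constructor
    · rintro ⟨_, ⟨j, hj, rfl⟩, hy⟩
      exact ⟨j, hj, hy⟩
    · rintro ⟨j, hj, hy⟩
      exact ⟨U j, ⟨j, hj, rfl⟩, hy⟩
  have hVinj : Function.Injective V := by
    intro F F' h
    refine hinj F F' fun x => ?_
    rw [← hV, ← hV, h]
  have hUV : ∀ k, U k = V {k} := by
    intro k
    ext x
    change x ∈ U k ↔ x ∈ V {k}
    rw [hV]; simp
  have hUinj : Function.Injective U := by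
    intro k k' h
    rw [hUV, hUV] at h
    exact Finset.singleton_injective (hVinj h)
  -- the cover
  have hmemU : ∀ W, W ∈ Set.range U → W ≠ ⊥ ∧ W ≠ ⊤ := by
    rintro _ ⟨k, rfl⟩
    refine ⟨hne k, fun h => ?_⟩
    obtain ⟨x, hx⟩ := hno {k}
    have h1 := hx k (Finset.mem_singleton_self k)
    rw [h] at h1
    exact h1 trivial
  have hlarge : LargeCover (Set.range U) := by
    refine ⟨⟨hmemU, fun x => ?_⟩, fun x => ?_⟩
    · obtain ⟨k, hk⟩ := (hinf x).nonempty
      exact ⟨_, ⟨k, rfl⟩, hk⟩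
    · refine ((hinf x).image (f := U) hUinj.injOn).mono ?_
      rintro _ ⟨k, hk, rfl⟩
      exact ⟨⟨k, rfl⟩, hk⟩
  have hidx : ∀ ℱ : Finset (Opens X), (∀ W ∈ ℱ, W ∈ Set.range U) →
      ∃ F : Finset ℕ, ∀ k, k ∈ F ↔ U k ∈ ℱ := by
    intro ℱ _
    exact ⟨ℱ.preimage U hUinj.injOn, fun k => Finset.mem_preimage⟩
  have hnofin : NoFiniteSubcover (Set.range U) := by
    intro ℱ hℱ
    obtain ⟨F, hF⟩ := hidx ℱ hℱ
    obtain ⟨x, hx⟩ := hno F
    refine ⟨x, fun W hW h => ?_⟩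
    obtain ⟨k, rfl⟩ := hℱ W hW
    exact hx k ((hF k).2 hW) h
  -- the colouring
  let top : Finset ℕ → ℕ := fun F => F.sup (ivl b)
  let E : Finset ℕ → Finset ℕ → Prop := fun F F' => ∃ k ∈ F', ivl b k = top F + 1
  let χ : Sym2 (Opens X) → Fin 2 := fun z =>
    if ∃ F F', z = s(V F, V F') ∧ E F F' then 1 else 0
  have hχ : ∀ F F', χ s(V F, V F') = 1 ↔ E F F' ∨ E F' F := by
    intro F F'
    simp only [χ]
    constructor
    · intro h
      have h1 : ∃ F₁ F₂, s(V F, V F') = s(V F₁, V F₂) ∧ E F₁ F₂ := by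
        by_contra hcon
        rw [if_neg hcon] at h
        exact absurd h (by decide)
      obtain ⟨F₁, F₂, h2, h3⟩ := h1
      rw [Sym2.eq_iff] at h2
      rcases h2 with ⟨h4, h5⟩ | ⟨h4, h5⟩
      · rw [hVinj h4, hVinj h5]; exact Or.inl h3
      · rw [hVinj h4, hVinj h5]; exact Or.inr h3
    · rintro (h | h)
      · rw [if_pos ⟨F, F', rfl, h⟩]
      · rw [if_pos ⟨F', F, Sym2.eq_swap, h⟩]
  obtain ⟨ℱ, h1, h2, h3, _, j, h5⟩ := hX _ hlarge hnofin 2 χ
  choose F hF using fun n => hidx (ℱ n) (h1 n).2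
  have hFne : ∀ n, (F n).Nonempty := by
    intro n
    obtain ⟨W, hW⟩ := (h1 n).1
    obtain ⟨k, rfl⟩ := (h1 n).2 W hW
    exact ⟨k, (hF n k).2 hW⟩
  have hFdisj : ∀ n m, n ≠ m → ∀ k ∈ F n, k ∉ F m := by
    intro n m hnm k hk hk'
    exact Finset.disjoint_left.1 (h2 n m hnm) ((hF n k).1 hk) ((hF m k).1 hk')
  have hun : ∀ H : Finset ℕ, unionOf ℱ H = V (H.biUnion F) := by
    intro H
    ext x
    change x ∈ unionOf ℱ H ↔ x ∈ V (H.biUnion F)
    rw [hV]
    simp only [unionOf, Opens.mem_sSup, Finset.mem_biUnion]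
    constructor
    · rintro ⟨W, ⟨i, hi, hW⟩, hx⟩
      obtain ⟨k, rfl⟩ := (h1 i).2 W hW
      exact ⟨k, ⟨i, hi, (hF i k).2 hW⟩, hx⟩
    · rintro ⟨k, ⟨i, hi, hk⟩, hx⟩
      exact ⟨U k, ⟨i, hi, (hF i k).1 hk⟩, hx⟩
  -- almost all intervals are met
  have hmeet : {i | ∀ n, ∀ k ∈ F n, ivl b k ≠ i}.Finite := by
    by_contra hinf'
    obtain ⟨x, hfin⟩ := hbI _ hinf'
    refine h3.2 x ?_
    refine (hfin.image U).subset ?_
    rintro W ⟨⟨n, hW⟩, hx⟩
    obtain ⟨k, rfl⟩ := (h1 n).2 W hW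
    refine ⟨k, ⟨hx, fun hmem => ?_⟩, rfl⟩
    simp only [Set.mem_iUnion] at hmem
    obtain ⟨i, hi, hki⟩ := hmem
    exact hi n k ((hF n k).2 hW) (ivl_eq hb hb0 hki.1 hki.2)
  obtain ⟨l₀, hl₀⟩ := hmeet.bddAbove
  have hcov : ∀ i, l₀ < i → ∃ n, ∃ k ∈ F n, ivl b k = i := by
    intro i hi
    by_contra hcon
    push Not at hcon
    have := hl₀ (show i ∈ {i | ∀ n, ∀ k ∈ F n, ivl b k ≠ i} from hcon)
    omega
  -- few `F n` meet an initial segment
  have hsmall : ∀ N : ℕ, {n | ∃ k ∈ F n, k < N}.Finite := by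
    intro N
    have hex : ∀ n, ∃ k ∈ F n, (∃ k ∈ F n, k < N) → k < N := by
      intro n
      by_cases h : ∃ k ∈ F n, k < N
      · obtain ⟨k, hk, hkN⟩ := h
        exact ⟨k, hk, fun _ => hkN⟩
      · obtain ⟨k, hk⟩ := hFne n
        exact ⟨k, hk, fun h' => absurd h' h⟩
    choose kk hkk1 hkk2 using hex
    refine Set.Finite.of_finite_image (f := kk) ((Set.finite_lt_nat N).subset ?_) ?_
    · rintro _ ⟨n, hn, rfl⟩
      exact hkk2 n hn
    · intro n _ m _ hnm
      by_contra hne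
      exact hFdisj n m hne _ (hkk1 n) (by rw [hnm]; exact hkk1 m)
  have hbelow : ∀ H K : Finset ℕ, Below H K → χ s(V (H.biUnion F), V (K.biUnion F)) = j := by
    intro H K hHK
    rw [← hun, ← hun]
    exact h5 H K hHK
  by_cases hj : j = 1
  · -- colour 1
    let N : ℕ := b (top (F 0) + 2)
    obtain ⟨n, hn0, hn⟩ : ∃ n, 0 < n ∧ ¬ ∃ k ∈ F n, k < N := by
      by_contra hcon
      push Not at hcon
      refine Set.infinite_of_injective_forall_mem (f := fun n : ℕ => n + 1)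
        (fun a b h => by simpa using h) (fun n => ?_) (hsmall N)
      exact hcon (n + 1) (Nat.succ_pos n)
    have h6 := hbelow {0} {n} ⟨by simp, by simp, by simpa using hn0⟩
    rw [hj] at h6
    simp only [Finset.singleton_biUnion] at h6
    rcases (hχ _ _).1 h6 with ⟨k, hk, hkt⟩ | ⟨k, hk, hkt⟩
    · refine hn ⟨k, hk, ?_⟩
      have := (ivl_spec hb hb0 k).2
      rw [hkt] at this
      exact this
    · obtain ⟨k', hk'⟩ := hFne n
      refine hn ⟨k', hk', ?_⟩
      have h7 : ivl b k' ≤ top (F n) := Finset.le_sup (f := ivl b) hk'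
      have h8 : ivl b k ≤ top (F 0) := Finset.le_sup (f := ivl b) hk
      have h9 := (ivl_spec hb hb0 k').2
      have h10 : b (ivl b k' + 1) ≤ N := hb.monotone (by omega)
      omega
  · -- colour 0
    obtain ⟨n, k₀, hk₀, hk₀l⟩ := hcov (l₀ + 1) (Nat.lt_succ_self _)
    let H : Finset ℕ := Finset.range (n + 1)
    have htop : l₀ + 1 ≤ top (H.biUnion F) := by
      rw [← hk₀l]
      exact Finset.le_sup (f := ivl b) (Finset.mem_biUnion.2 ⟨n, by simp [H], hk₀⟩)
    obtain ⟨m, k, hk, hkt⟩ := hcov (top (H.biUnion F) + 1) (by omega)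
    have hm : n < m := by
      by_contra hcon
      have h6 : k ∈ H.biUnion F :=
        Finset.mem_biUnion.2 ⟨m, by simp only [H, Finset.mem_range]; omega, hk⟩
      have h7 : ivl b k ≤ top (H.biUnion F) := Finset.le_sup (f := ivl b) h6
      omega
    have h6 := hbelow H {m} ⟨by simp [H], by simp, by
      intro a ha c hc
      simp only [H, Finset.mem_range] at ha
      rw [Finset.mem_singleton] at hc
      omega⟩
    have h7 : χ s(V (H.biUnion F), V (({m} : Finset ℕ).biUnion F)) = 1 := by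
      rw [hχ]
      left
      exact ⟨k, by simpa using hk, hkt⟩
    exact hj (h6.symm.trans h7)

end Pool.Agent.Lib.MP_2a01b0_gt
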