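import Pool.Agent.Lib.MP_2a01b0_gt.ClosedCopy
import Mathlib.MeasureTheory.Constructions.Polish.Basic

set_option autoImplicit false

/-!
# Continuous images, and the case of spaces with analytic images
-/

namespace Pool.Agent.Lib.MP_2a01b0_gt

open TopologicalSpace

theorem SumProp'.image {X Y : Type*} [TopologicalSpace X] [TopologicalSpace Y] (h : SumProp' X)
    {φ : X → Y} (hφ : Continuous φ) (hs : Function.Surjective φ) : SumProp' Y := by
  classical
  intro 𝒰 hlarge hno k χ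
  let C : Opens Y → Opens X := fun U => ⟨φ ⁻¹' U, U.isOpen.preimage hφ⟩
  have hC : ∀ U x, x ∈ C U ↔ φ x ∈ U := fun U x => Iff.rfl
  have hCinj : Function.Injective C := by
    intro U V hUV
    ext y
    obtain ⟨x, rfl⟩ := hs y
    change φ x ∈ U ↔ φ x ∈ V
    rw [← hC, ← hC, hUV]
  have hCbot : ∀ U, U ≠ ⊥ → C U ≠ ⊥ := by
    intro U hU h
    apply hU
    apply hCinj
    rw [h]
    ext x
    rfl
  have hCtop : ∀ U, U ≠ ⊤ → C U ≠ ⊤ := by
    intro U hU h
    apply hU
    apply hCinj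
    rw [h]
    ext x
    rfl
  let inv : Opens X → Opens Y := Function.invFun C
  have hinv : ∀ U, inv (C U) = U := Function.leftInverse_invFun hCinj
  have hlarge' : LargeCover (C '' 𝒰) := by
    refine ⟨⟨?_, fun x => ?_⟩, fun x => ?_⟩
    · rintro _ ⟨U, hU, rfl⟩
      exact ⟨hCbot U (hlarge.1.1 U hU).1, hCtop U (hlarge.1.1 U hU).2⟩
    · obtain ⟨U, hU, hx⟩ := hlarge.1.2 (φ x)
      exact ⟨C U, ⟨U, hU, rfl⟩, hx⟩
    · refine ((hlarge.2 (φ x)).image (f := C) hCinj.injOn).mono ?_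
      rintro _ ⟨U, ⟨hU, hx⟩, rfl⟩
      exact ⟨⟨U, hU, rfl⟩, hx⟩
  have hno' : NoFiniteSubcover (C '' 𝒰) := by
    intro ℱ hℱ
    obtain ⟨y, hy⟩ := hno (ℱ.image inv) (by
      intro V hV
      obtain ⟨W, hW, rfl⟩ := Finset.mem_image.1 hV
      obtain ⟨U, hU, rfl⟩ := hℱ W hW
      rw [hinv]; exact hU)
    obtain ⟨x, rfl⟩ := hs y
    refine ⟨x, fun W hW hx => ?_⟩
    obtain ⟨U, hU, rfl⟩ := hℱ W hW
    refine hy U ?_ hx
    rw [← hinv U]
    exact Finset.mem_image_of_mem inv hW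
  obtain ⟨ℱ, h1, h2, h3, h4, j, h5⟩ := h _ hlarge' hno' k fun z => χ (Sym2.map inv z)
  have hmem : ∀ n W, W ∈ ℱ n → ∃ U ∈ 𝒰, C U = W := fun n W hW => (h1 n).2 W hW
  have hCmem : ∀ n U, U ∈ (ℱ n).image inv ↔ C U ∈ ℱ n := by
    intro n U
    constructor
    · intro hU
      obtain ⟨W, hW, rfl⟩ := Finset.mem_image.1 hU
      obtain ⟨V, _, rfl⟩ := hmem n W hW
      rw [hinv]; exact hW
    · intro hU
      rw [← hinv U]
      exact Finset.mem_image_of_mem inv hU
  have hun : ∀ H, unionOf ℱ H = C (unionOf (fun n => (ℱ n).image inv) H) := by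
    intro H
    ext x
    change x ∈ unionOf ℱ H ↔ φ x ∈ unionOf (fun n => (ℱ n).image inv) H
    simp only [unionOf, Opens.mem_sSup]
    constructor
    · rintro ⟨W, ⟨i, hi, hW⟩, hx⟩
      obtain ⟨U, _, rfl⟩ := hmem i W hW
      exact ⟨U, ⟨i, hi, (hCmem i U).2 hW⟩, hx⟩
    · rintro ⟨U, ⟨i, hi, hU⟩, hx⟩
      exact ⟨C U, ⟨i, hi, (hCmem i U).1 hU⟩, hx⟩
  refine ⟨fun n => (ℱ n).image inv, fun n => ⟨(h1 n).1.image inv, fun U hU => ?_⟩, ?_, ?_, ?_, j,
    ?_⟩
  · obtain ⟨V, hV, hVU⟩ := hmem n _ ((hCmem n U).1 hU)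
    rw [← hCinj hVU]; exact hV
  · intro n m hnm
    rw [Finset.disjoint_left]
    intro U hU hU'
    exact Finset.disjoint_left.1 (h2 n m hnm) ((hCmem n U).1 hU) ((hCmem m U).1 hU')
  · have hmemU : ∀ n U, U ∈ (ℱ n).image inv → U ∈ 𝒰 := by
      intro n U hU
      obtain ⟨V, hV, hVU⟩ := hmem n _ ((hCmem n U).1 hU)
      rw [← hCinj hVU]; exact hV
    have hinf : ∀ y, {U | U ∈ {U | ∃ n, U ∈ (ℱ n).image inv} ∧ y ∈ U}.Infinite := by
      intro y
      obtain ⟨x, rfl⟩ := hs y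
      intro hfin
      refine h3.2 x ((hfin.image C).subset ?_)
      rintro W ⟨⟨n, hW⟩, hx⟩
      obtain ⟨U, _, rfl⟩ := hmem n W hW
      exact ⟨U, ⟨⟨n, (hCmem n U).2 hW⟩, hx⟩, rfl⟩
    refine ⟨⟨?_, fun y => ?_⟩, hinf⟩
    · rintro U ⟨n, hU⟩
      exact hlarge.1.1 U (hmemU n U hU)
    · obtain ⟨U, hU1, hU2⟩ := (hinf y).nonempty
      exact ⟨U, hU1, hU2⟩
  · intro H K hHK heq
    refine h4 H K hHK ?_
    rw [hun, hun, heq]
  · intro H K hHK
    have := h5 H K hHK
    rw [hun, hun, Sym2.map_mk, hinv, hinv] at this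
    exact this

/-- if all continuous images of `X` in `ℝ^ℕ` are analytic and `X` has (*), then `X` is Menger -/
theorem menger_of_analytic_images {X : Type*} [TopologicalSpace X] [T35Space X] [Nonempty X]
    (hA : ∀ G : X → ℕ → ℝ, Continuous G → MeasureTheory.AnalyticSet (Set.range G))
    (hX : SumProp' X) : Menger X := by
  by_contra hM
  obtain ⟨g, hg1, hg2, hg3⟩ := exists_funs hX hM
  let G : X → ℕ → ℝ := fun x n => g n x
  have hG : Continuous G := continuous_pi hg1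
  have hGs : Function.Surjective (Set.rangeFactorization G) := Set.rangeFactorization_surjective
  have hGc : Continuous (Set.rangeFactorization G) := hG.subtype_mk _
  have hY : SumProp' (Set.range G) := hX.image hGc hGs
  obtain ⟨f, hf, hfr⟩ : ∃ f : (ℕ → ℕ) → (ℕ → ℝ), Continuous f ∧ Set.range f = Set.range G := by
    have h1 := hA G hG
    rw [MeasureTheory.AnalyticSet] at h1
    rcases h1 with h1 | h1
    · exfalso
      obtain ⟨x⟩ := (inferInstance : Nonempty X)
      have : G x ∈ Set.range G := ⟨x, rfl⟩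
      rw [h1] at this
      exact this
    · exact h1
  have hfm : ∀ z, f z ∈ Set.range G := fun z => by rw [← hfr]; exact ⟨z, rfl⟩
  let f' : (ℕ → ℕ) → Set.range G := fun z => ⟨f z, hfm z⟩
  have hf' : Continuous f' := hf.subtype_mk _
  have hf's : Function.Surjective f' := by
    rintro ⟨y, hy⟩
    have hy' : y ∈ Set.range f := by rw [hfr]; exact hy
    obtain ⟨z, hz⟩ := hy'
    exact ⟨z, Subtype.ext hz⟩
  have hσ : SigmaCompactSpace (Set.range G) := sigmaCompact_of_sumProp hf' hf's hY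
  -- bound the coordinates on the compact pieces
  have hb : ∀ n m, ∃ r : ℝ, ∀ y ∈ compactCovering (Set.range G) n, (y : ℕ → ℝ) m ≤ r := by
    intro n m
    have h1 : Continuous fun y : Set.range G => (y : ℕ → ℝ) m :=
      (continuous_apply m).comp continuous_subtype_val
    obtain ⟨r, hr⟩ := ((isCompact_compactCovering (Set.range G) n).image h1).bddAbove
    exact ⟨r, fun y hy => hr ⟨y, hy, rfl⟩⟩
  choose r hr using hb
  obtain ⟨x, hx⟩ := hg3 fun n => r n n
  obtain ⟨n, hn⟩ := exists_mem_compactCovering (⟨G x, x, rfl⟩ : Set.range G)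
  have h1 := hr n n _ hn
  have h2 := hx n
  simp only [G] at h1
  linarith

end Pool.Agent.Lib.MP_2a01b0_gt
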