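import Pool.Agent.Lib.MP_2a01b0_gt.Defs
import Mathlib.Topology.Order.Lattice
import Mathlib.Topology.Instances.Real.Lemmas
import Mathlib.Topology.LocallyFinite
import Mathlib.Data.Nat.Pairing
import Mathlib.Data.Set.Card
import Mathlib.Logic.Equiv.Finset
import Mathlib.Data.Finset.Preimage

set_option autoImplicit false

/-!
# A large cover whose finite unions determine their index sets
-/

namespace Pool.Agent.Lib.MP_2a01b0_gt

open TopologicalSpace

variable {X : Type*} [TopologicalSpace X]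

/-- the output of the marker construction -/
structure Marked (X : Type*) [TopologicalSpace X] where
  /-- the cover -/
  U : ℕ → Opens X
  /-- the markers -/
  p : Finset ℕ → X
  /-- marker `p E` is in `U k` iff `k ∉ E` -/
  hp : ∀ E k, p E ∈ U k ↔ k ∉ E
  hinf : ∀ x, {k | x ∈ U k}.Infinite
  /-- the set of good points -/
  Q : Set X
  /-- the sparse trace -/
  K : X → Set ℕ
  hQ : ∀ x ∈ Q, ({k | x ∈ U k} \ K x).Finite
  hK : ∀ h : ℕ → ℕ, ∃ x ∈ Q, ∀ n, (K x ∩ Set.Iio (h n)).ncard ≤ 2 * n

theorem exists_marked {g : ℕ → X → ℝ} (hg1 : ∀ n, Continuous (g n)) (hg2 : ∀ n x, 0 < g n x)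
    (hg3 : ∀ r : ℕ → ℝ, ∃ x, ∀ n, r n < g n x) : Nonempty (Marked X) := by
  classical
  -- the markers
  have hnx : ∀ x, ∃ y, g 0 x + 2 < g 0 y := fun x => by
    obtain ⟨y, hy⟩ := hg3 fun _ => g 0 x + 2
    exact ⟨y, hy 0⟩
  choose nx hnx using hnx
  obtain ⟨x0, _⟩ := hg3 fun _ => 0
  let q : ℕ → X := fun j => Nat.rec x0 (fun _ x => nx x) j
  have hq1 : ∀ j, g 0 (q j) + 2 < g 0 (q (j + 1)) := fun j => hnx _
  have hq : ∀ i j, i < j → g 0 (q i) + 2 < g 0 (q j) := by
    intro i j hij
    induction hij with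
    | refl => exact hq1 i
    | @step m _ ih => have := hq1 m; linarith
  let p : Finset ℕ → X := fun E => q (Encodable.encode E)
  have hpsep : ∀ E E' : Finset ℕ, |g 0 (p E) - g 0 (p E')| < 2 → E = E' := by
    intro E E' h
    by_contra hne
    have h1 : Encodable.encode E ≠ Encodable.encode E' := fun h =>
      hne (Encodable.encode_injective h)
    rw [abs_lt] at h
    rcases Nat.lt_or_gt_of_ne h1 with h2 | h2
    · have := hq _ _ h2
      simp only [p] at h
      linarith [h.1]
    · have := hq _ _ h2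
      simp only [p] at h
      linarith [h.2]
  let D : ℕ → Set X := fun k => {x | |g k.unpair.1 x - (k.unpair.2 : ℝ)| < 1}
  have hD : ∀ k, IsOpen (D k) := fun k =>
    isOpen_lt ((hg1 _).sub continuous_const).abs continuous_const
  let N : Finset ℕ → ℕ → Set X := fun E k =>
    ⋂ n ∈ Finset.range (k + 1), {x | |g n x - g n (p E)| < 1 / ((k : ℝ) + 1)}
  have hN : ∀ E k, IsOpen (N E k) := fun E k =>
    isOpen_biInter_finset fun n _ => isOpen_lt ((hg1 _).sub continuous_const).abs continuous_const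
  have hNmem : ∀ E k x, x ∈ N E k ↔ ∀ n, n ≤ k → |g n x - g n (p E)| < 1 / ((k : ℝ) + 1) := by
    intro E k x
    simp only [N, Set.mem_iInter, Finset.mem_range, Nat.lt_succ_iff, Set.mem_ofPred_eq]
  have hle1 : ∀ k : ℕ, 1 / ((k : ℝ) + 1) ≤ 1 := by
    intro k
    rw [div_le_one (by positivity)]
    have : (0 : ℝ) ≤ k := Nat.cast_nonneg k
    linarith
  have hN0 : ∀ E k x, x ∈ N E k → |g 0 x - g 0 (p E)| < 1 := fun E k x hx =>
    lt_of_lt_of_le ((hNmem E k x).1 hx 0 (Nat.zero_le _)) (hle1 k)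
  have huniq : ∀ x E E', |g 0 x - g 0 (p E)| < 1 → |g 0 x - g 0 (p E')| < 1 → E = E' := by
    intro x E E' h1 h2
    refine hpsep E E' ?_
    rw [abs_lt] at *
    constructor <;> linarith [h1.1, h1.2, h2.1, h2.2]
  let C : Finset ℕ → Set X := fun E => {x | ∀ n, g n x = g n (p E)}
  have hC : ∀ E, IsClosed (C E) := by
    intro E
    have : C E = ⋂ n, {x | g n x = g n (p E)} := by ext x; simp [C]
    rw [this]
    exact isClosed_iInter fun n => isClosed_eq (hg1 n) continuous_const
  have hlf : LocallyFinite C := by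
    intro x
    refine ⟨{y | |g 0 y - g 0 x| < 1}, ?_, ?_⟩
    · exact (isOpen_lt ((hg1 0).sub continuous_const).abs continuous_const).mem_nhds (by simp)
    · refine Set.Subsingleton.finite ?_
      rintro E ⟨y, hy, hy'⟩ E' ⟨z, hz, hz'⟩
      refine huniq x E E' ?_ ?_
      · rw [← hy 0, abs_sub_comm]; exact hy'
      · rw [← hz 0, abs_sub_comm]; exact hz'
  have hP : IsClosed (⋃ E, C E) := hlf.isClosed_iUnion hC
  let U : ℕ → Opens X := fun k =>
    ⟨(D k \ ⋃ E, C E) ∪ ⋃ E ∈ {E : Finset ℕ | k ∉ E}, N E k,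
      ((hD k).sdiff hP).union (isOpen_biUnion fun E _ => hN E k)⟩
  have hUmem : ∀ k x, x ∈ U k ↔ (x ∈ D k ∧ ∀ E, x ∉ C E) ∨ ∃ E, k ∉ E ∧ x ∈ N E k := by
    intro k x
    change x ∈ (D k \ ⋃ E, C E) ∪ ⋃ E ∈ {E : Finset ℕ | k ∉ E}, N E k ↔ _
    simp only [Set.mem_union, Set.mem_sdiff, Set.mem_iUnion, not_exists, Set.mem_ofPred_eq,
      exists_prop]
  have hCU : ∀ E x k, x ∈ C E → (x ∈ U k ↔ k ∉ E) := by
    intro E x k hx
    rw [hUmem]
    constructor
    · rintro (⟨_, h⟩ | ⟨E', hk, hxE'⟩)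
      · exact absurd hx (h E)
      · have h1 : |g 0 x - g 0 (p E)| < 1 := by rw [hx 0]; simp
        rw [huniq x E E' h1 (hN0 _ _ _ hxE')]
        exact hk
    · intro hk
      refine Or.inr ⟨E, hk, (hNmem _ _ _).2 fun n _ => ?_⟩
      rw [hx n]
      simp only [sub_self, abs_zero]
      positivity
  have hpC : ∀ E, p E ∈ C E := fun E n => rfl
  -- good points
  have hfin : ∀ x, (∀ E, x ∉ C E) → {k | ∃ E, x ∈ N E k}.Finite := by
    intro x hx
    by_cases hE : ∃ E, |g 0 x - g 0 (p E)| < 1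
    · obtain ⟨E, hE⟩ := hE
      have h1 := hx E
      simp only [C, Set.mem_ofPred_eq, not_forall] at h1
      obtain ⟨n, hn⟩ := h1
      have hpos : 0 < |g n x - g n (p E)| := abs_pos.2 (sub_ne_zero.2 hn)
      obtain ⟨M, hM⟩ := exists_nat_one_div_lt hpos
      refine (Set.finite_lt_nat (max n M)).subset ?_
      rintro k ⟨E', hk⟩
      have hEE : E = E' := huniq x E E' hE (hN0 _ _ _ hk)
      subst hEE
      by_contra hcon
      have hcon' : max n M ≤ k := not_lt.1 hcon
      have h2 := (hNmem _ _ _).1 hk n (le_trans (le_max_left _ _) hcon')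
      have h3 : 1 / ((k : ℝ) + 1) ≤ 1 / ((M : ℝ) + 1) := by
        apply one_div_le_one_div_of_le (by positivity)
        have : (M : ℝ) ≤ k := by exact_mod_cast le_trans (le_max_right _ _) hcon'
        linarith
      linarith
    · push Not at hE
      refine Set.Finite.subset Set.finite_empty ?_
      rintro k ⟨E, hk⟩
      exact absurd (hN0 _ _ _ hk) (not_lt.2 (hE E))
  have hfloor : ∀ n x, |g n x - (⌊g n x⌋₊ : ℝ)| < 1 := by
    intro n x
    have h1 := Nat.floor_le (hg2 n x).le
    have h2 := Nat.lt_floor_add_one (g n x)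
    rw [abs_lt]
    constructor <;> linarith
  refine ⟨⟨U, p, fun E k => hCU E (p E) k (hpC E), ?_, {x | ∀ E, x ∉ C E},
    fun x => {k | x ∈ D k}, ?_, ?_⟩⟩
  · intro x
    by_cases hx : ∃ E, x ∈ C E
    · obtain ⟨E, hE⟩ := hx
      have : {k | x ∈ U k} = (E : Set ℕ)ᶜ := by
        ext k
        simp only [Set.mem_ofPred_eq, Set.mem_compl_iff, Finset.mem_coe]
        exact hCU E x k hE
      rw [this]
      exact E.finite_toSet.infinite_compl
    · push Not at hx
      have h1 : Function.Injective fun n : ℕ => Nat.pair n ⌊g n x⌋₊ := by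
        intro n m hnm
        have := congrArg (fun k => (Nat.unpair k).1) hnm
        simpa using this
      refine (Set.infinite_range_of_injective h1).mono ?_
      rintro _ ⟨n, rfl⟩
      refine (hUmem _ _).2 (Or.inl ⟨?_, hx⟩)
      simp only [D, Set.mem_ofPred_eq, Nat.unpair_pair]
      exact hfloor n x
  · intro x hx
    refine (hfin x hx).subset ?_
    rintro k ⟨hk1, hk2⟩
    rcases (hUmem _ _).1 hk1 with ⟨h, _⟩ | ⟨E, _, hE⟩
    · exact absurd h hk2
    · exact ⟨E, hE⟩
  · intro h
    -- monotone majorant of `h`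
    let h' : ℕ → ℕ := fun n => (Finset.range (n + 1)).sup h
    have hh' : ∀ n m, n ≤ m → h n ≤ h' m := fun n m hnm =>
      Finset.le_sup (f := h) (Finset.mem_range.2 (by omega))
    obtain ⟨x, hx⟩ := hg3 fun n => max ((h' n : ℝ) + 1) (g n (q n))
    refine ⟨x, fun E hE => ?_, fun n => ?_⟩
    · have h1 := lt_of_le_of_lt (le_max_right _ _) (hx (Encodable.encode E))
      rw [hE (Encodable.encode E)] at h1
      exact absurd h1 (lt_irrefl _)
    · have hsub : {k | x ∈ D k} ∩ Set.Iio (h n) ⊆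
          ((Finset.range n).image (fun m => Nat.pair m ⌊g m x⌋₊) ∪
            (Finset.range n).image (fun m => Nat.pair m (⌊g m x⌋₊ + 1)) : Finset ℕ) := by
        rintro k ⟨hk1, hk2⟩
        simp only [D, Set.mem_ofPred_eq] at hk1
        have hk1' := abs_lt.1 hk1
        have hkle : k.unpair.2 ≤ k := Nat.unpair_right_le k
        have hlt : k.unpair.1 < n := by
          by_contra hcon
          have h1 := lt_of_le_of_lt (le_max_left _ _) (hx k.unpair.1)
          have h2 : h n ≤ h' k.unpair.1 := hh' _ _ (not_lt.1 hcon)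
          have h3 : (k.unpair.2 : ℝ) ≤ k := by exact_mod_cast hkle
          have h4 : (k : ℝ) < h n := by exact_mod_cast hk2
          have h5 : (h n : ℝ) ≤ h' k.unpair.1 := by exact_mod_cast h2
          linarith [hk1'.2]
        have h1 : ⌊g k.unpair.1 x⌋₊ ≤ k.unpair.2 := by
          have h2 : g k.unpair.1 x < ((k.unpair.2 + 1 : ℕ) : ℝ) := by
            push_cast; linarith [hk1'.2]
          have := (Nat.floor_lt (hg2 _ x).le).2 h2
          omega
        have h2 : k.unpair.2 ≤ ⌊g k.unpair.1 x⌋₊ + 1 := by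
          have h3 := Nat.lt_floor_add_one (g k.unpair.1 x)
          have h4 : (k.unpair.2 : ℝ) < ((⌊g k.unpair.1 x⌋₊ + 2 : ℕ) : ℝ) := by
            push_cast; linarith [hk1'.1]
          have h5 : k.unpair.2 < ⌊g k.unpair.1 x⌋₊ + 2 := by exact_mod_cast h4
          omega
        simp only [Finset.coe_union, Finset.coe_image, Finset.coe_range, Set.mem_union,
          Set.mem_image, Set.mem_Iio]
        rcases Nat.eq_or_lt_of_le h1 with h3 | h3
        · left
          exact ⟨k.unpair.1, hlt, by rw [h3, Nat.pair_unpair]⟩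
        · right
          refine ⟨k.unpair.1, hlt, ?_⟩
          have h4 : ⌊g k.unpair.1 x⌋₊ + 1 = k.unpair.2 := by omega
          rw [h4, Nat.pair_unpair]
      have h1 := Set.ncard_le_ncard hsub (Finset.finite_toSet _)
      rw [Set.ncard_coe_finset] at h1
      refine h1.trans ((Finset.card_union_le _ _).trans ?_)
      have h2 := Finset.card_image_le (s := Finset.range n) (f := fun m => Nat.pair m ⌊g m x⌋₊)
      have h3 := Finset.card_image_le (s := Finset.range n)
        (f := fun m => Nat.pair m (⌊g m x⌋₊ + 1))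
      rw [Finset.card_range] at h2 h3
      omega

end Pool.Agent.Lib.MP_2a01b0_gt
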