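import Mathlib.Combinatorics.Hindman
import Mathlib.Data.Finset.Lattice.Fold
import Mathlib.Data.Fintype.Basic

set_option autoImplicit false

/-!
# The Milliken-Taylor theorem for pairs

For every colouring `c` of pairs of finite sets of natural numbers with finitely many colours there
are nonempty finite sets `G 0 < G 1 < ...` such that `c (G_H) (G_K)` is constant for nonempty
finite `H < K`, where `G_H` is the union of the `G i`, `i ∈ H`.
-/

namespace Pool.Agent.Lib.MP_2a01b0_gt

open Filter

/-- Finite sets of natural numbers, as a semigroup under union. -/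
def FU : Type := Finset ℕ

namespace FU

instance : Semigroup FU where
  mul a b := ((show Finset ℕ from a) ∪ (show Finset ℕ from b) : Finset ℕ)
  mul_assoc a _ _ := Finset.union_assoc (show Finset ℕ from a) _ _

end FU

attribute [local instance] Ultrafilter.mul Ultrafilter.semigroup

/-- There is an idempotent ultrafilter on the finite sets, concentrating on sets beyond every `n`. -/
theorem exists_idem : ∃ e : Ultrafilter (Finset ℕ),
    (∀ n : ℕ, ∀ᶠ H : Finset ℕ in e, H.Nonempty ∧ ∀ i ∈ H, n ≤ i) ∧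
    ∀ p : Finset ℕ → Prop, (∀ᶠ m in e, p m) → ∀ᶠ m in e, ∀ᶠ m' in e, p (m ∪ m') := by
  classical
  let Q : ℕ → FU → Prop := fun n H => (show Finset ℕ from H).Nonempty ∧
    ∀ i ∈ (show Finset ℕ from H), n ≤ i
  let S : Set (Ultrafilter FU) := ⋂ n, { U | ∀ᶠ m in U, Q n m }
  have h := exists_idempotent_in_compact_subsemigroup ?_ S ?_ ?_ ?_
  · rcases h with ⟨U, hU, U_idem⟩
    refine ⟨U, ?_, ?_⟩
    · intro n
      exact Set.mem_iInter.mp hU n
    · intro p hp
      have h2 : ∀ᶠ m : FU in ((U * U : Ultrafilter FU) : Filter FU), p m := by rw [U_idem]; exact hp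
      exact (Ultrafilter.eventually_mul U U p).1 h2
  · exact Ultrafilter.continuous_mul_left
  · apply IsCompact.nonempty_iInter_of_sequence_nonempty_isCompact_isClosed
    · intro n U hU
      refine Filter.Eventually.mono hU ?_
      intro m hm
      exact ⟨hm.1, fun i hi => le_trans (Nat.le_succ n) (hm.2 i hi)⟩
    · intro n
      refine ⟨pure (show FU from ({n} : Finset ℕ)), ?_⟩
      refine Ultrafilter.mem_pure.mpr ?_
      exact ⟨Finset.singleton_nonempty n, fun i hi => by rw [Finset.mem_singleton.1 hi]⟩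
    · exact (ultrafilter_isClosed_basic _).isCompact
    · intro n
      apply ultrafilter_isClosed_basic
  · exact IsClosed.isCompact (isClosed_iInter fun i => ultrafilter_isClosed_basic _)
  · intro U hU V hV
    rw [Set.mem_iInter] at *
    intro n
    rw [Set.mem_ofPred_eq, Ultrafilter.eventually_mul]
    filter_upwards [hU n] with m hm
    filter_upwards [hV n] with m' hm'
    refine ⟨?_, ?_⟩
    · exact hm.1.mono Finset.subset_union_left
    · intro i hi
      rcases Finset.mem_union.1 hi with hi | hi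
      · exact hm.2 i hi
      · exact hm'.2 i hi

section MT

variable {κ : Type} [Finite κ] (c : Finset ℕ → Finset ℕ → κ) (e : Ultrafilter (Finset ℕ))

theorem exists_color (f : Finset ℕ → κ) : ∃ j : κ, ∀ᶠ H in e, f H = j := by
  have hfin : (Set.univ : Set κ).Finite := Set.finite_univ
  have h : (⋃ j ∈ (Set.univ : Set κ), {H | f H = j}) ∈ (e : Filter (Finset ℕ)) := by
    have : (⋃ j ∈ (Set.univ : Set κ), {H | f H = j}) = Set.univ := by
      ext H; simp
    rw [this]; exact Filter.univ_mem
  rcases (Ultrafilter.finite_biUnion_mem_iff hfin).1 h with ⟨j, _, hj⟩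
  exact ⟨j, hj⟩

/-- state of the construction -/
structure St (A : Set (Finset ℕ)) where
  s : Set (Finset ℕ)
  P : Set (Finset ℕ)
  hs : s ∈ e
  hsA : s ⊆ A
  hP : P.Finite
  hPA : P ⊆ A
  hPs : ∀ h ∈ P, ∀ m ∈ s, h ∪ m ∈ A

variable {e}

omit [Finite κ] in
theorem exists_step {A : Set (Finset ℕ)} {j : κ}
    (hbig : ∀ n : ℕ, ∀ᶠ H : Finset ℕ in e, H.Nonempty ∧ ∀ i ∈ H, n ≤ i)
    (hidem : ∀ p : Finset ℕ → Prop, (∀ᶠ m in e, p m) → ∀ᶠ m in e, ∀ᶠ m' in e, p (m ∪ m'))
    (hA : ∀ H ∈ A, ∀ᶠ K in e, c H K = j) (S : St e A) :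
    ∃ (g : Finset ℕ) (S' : St e A), g.Nonempty ∧ g ∈ S.s ∧ S'.s ⊆ S.s ∧
      (∀ m ∈ S'.s, g ∪ m ∈ S.s) ∧ (∀ m ∈ S'.s, ∀ a ∈ g, ∀ b ∈ m, a < b) ∧
      S.P ⊆ S'.P ∧ g ∈ S'.P ∧ (∀ h ∈ S.P, h ∪ g ∈ S'.P) ∧
      (∀ h ∈ S'.P, ∀ m ∈ S'.s, c h m = j) := by
  have h1 : ∀ᶠ g in e, g ∈ S.s ∧ g.Nonempty ∧ ∀ᶠ m in e, g ∪ m ∈ S.s := by
    filter_upwards [S.hs, hbig 0, hidem (fun m => m ∈ S.s) S.hs] with g hg1 hg2 hg3
    exact ⟨hg1, hg2.1, hg3⟩
  obtain ⟨g, hg1, hg2, hg3⟩ := h1.exists
  let P' : Set (Finset ℕ) := S.P ∪ {g} ∪ (fun h => h ∪ g) '' S.P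
  have hP' : P'.Finite := (S.hP.union (Set.finite_singleton g)).union (S.hP.image _)
  have hP'A : P' ⊆ A := by
    rintro h ((hh | hh) | ⟨h', hh', rfl⟩)
    · exact S.hPA hh
    · rw [Set.mem_singleton_iff.1 hh]; exact S.hsA hg1
    · exact S.hPs h' hh' g hg1
  let s' : Set (Finset ℕ) := S.s ∩ {m | g ∪ m ∈ S.s} ∩ {m | ∀ h ∈ P', c h m = j} ∩
    {m | m.Nonempty ∧ ∀ i ∈ m, g.sup id + 1 ≤ i}
  have hs' : s' ∈ e := by
    refine Filter.inter_mem (Filter.inter_mem (Filter.inter_mem S.hs hg3) ?_) (hbig _)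
    have : ∀ᶠ m in (e : Filter (Finset ℕ)), ∀ h ∈ P', c h m = j :=
      (Filter.eventually_all_finite hP').2 fun h hh => hA h (hP'A hh)
    exact this
  refine ⟨g, ⟨s', P', hs', fun m hm => S.hsA hm.1.1.1, hP', hP'A, ?_⟩, hg2, hg1, ?_, ?_, ?_, ?_, ?_,
    ?_, ?_⟩
  · rintro h ((hh | hh) | ⟨h', hh', rfl⟩) m hm
    · exact S.hPs h hh m hm.1.1.1
    · rw [Set.mem_singleton_iff.1 hh]; exact S.hsA hm.1.1.2
    · change h' ∪ g ∪ m ∈ A
      rw [Finset.union_assoc]
      exact S.hPs h' hh' _ hm.1.1.2
  · exact fun m hm => hm.1.1.1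
  · exact fun m hm => hm.1.1.2
  · intro m hm a ha b hb
    have h1 := hm.2.2 b hb
    have h2 : a ≤ g.sup id := Finset.le_sup (f := id) ha
    omega
  · exact fun h hh => Or.inl (Or.inl hh)
  · exact Or.inl (Or.inr rfl)
  · exact fun h hh => Or.inr ⟨h, hh, rfl⟩
  · exact fun h hh m hm => hm.1.2 h hh

end MT

/-- **Milliken-Taylor theorem** for pairs. -/
theorem milliken_taylor {κ : Type} [Finite κ] (c : Finset ℕ → Finset ℕ → κ) :
    ∃ (G : ℕ → Finset ℕ) (j : κ), (∀ n, (G n).Nonempty) ∧
      (∀ n, ∀ a ∈ G n, ∀ b ∈ G (n + 1), a < b) ∧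
      ∀ H K : Finset ℕ, H.Nonempty → K.Nonempty → (∀ a ∈ H, ∀ b ∈ K, a < b) →
        c (H.biUnion G) (K.biUnion G) = j := by
  classical
  obtain ⟨e, hbig, hidem⟩ := exists_idem
  choose col hcol using fun H : Finset ℕ => exists_color (κ := κ) e (fun K => c H K)
  obtain ⟨j, hj⟩ := exists_color (κ := κ) e col
  let A : Set (Finset ℕ) := {H | col H = j}
  have hA : ∀ H ∈ A, ∀ᶠ K in e, c H K = j := by
    intro H hH
    have := hcol H
    rw [show col H = j from hH] at this
    exact this
  let S0 : St e A := ⟨A, ∅, hj, le_rfl, Set.finite_empty, Set.empty_subset _, by simp⟩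
  choose g nx h1 h2 h3 h4 h5 h6 h7 h8 h9 using fun S : St e A => exists_step c hbig hidem hA S
  let S : ℕ → St e A := fun n => Nat.rec S0 (fun _ s => nx s) n
  have hS : ∀ n, S (n + 1) = nx (S n) := fun n => rfl
  let G : ℕ → Finset ℕ := fun n => g (S n)
  have hmono : ∀ n m, n ≤ m → (S m).s ⊆ (S n).s := by
    intro n m hnm
    induction hnm with
    | refl => exact le_rfl
    | step _ ih => exact (h3 _).trans ih
  have hPmono : ∀ n m, n ≤ m → (S n).P ⊆ (S m).P := by
    intro n m hnm
    induction hnm with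
    | refl => exact le_rfl
    | step _ ih => exact ih.trans (h6 _)
  -- unions of late sets
  have hlate : ∀ (k : ℕ) (K : Finset ℕ), K.card = k → K.Nonempty → ∀ n, (∀ i ∈ K, n ≤ i) →
      K.biUnion G ∈ (S n).s := by
    intro k
    induction k with
    | zero =>
      intro K hK hne
      rw [Finset.card_eq_zero] at hK
      exact absurd hne (by rw [hK]; simp)
    | succ k ih =>
      intro K hK hne n hn
      let a := K.min' hne
      have haK : a ∈ K := K.min'_mem hne
      have hna : n ≤ a := hn a haK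
      have hins : K = insert a (K.erase a) := (Finset.insert_erase haK).symm
      by_cases hK' : (K.erase a).Nonempty
      · have h10 : (K.erase a).biUnion G ∈ (S (a + 1)).s := by
          refine ih _ ?_ hK' (a + 1) ?_
          · rw [Finset.card_erase_of_mem haK, hK]; rfl
          · intro i hi
            have hi1 := Finset.mem_erase.1 hi
            have := K.min'_le i hi1.2
            have h11 : a ≤ i := this
            have h12 : i ≠ a := hi1.1
            omega
        have h11 := h4 (S a) _ h10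
        rw [hins, Finset.biUnion_insert]
        exact hmono n a hna h11
      · rw [Finset.not_nonempty_iff_eq_empty] at hK'
        rw [hins, hK']
        simp only [insert_empty_eq, Finset.singleton_biUnion]
        exact hmono n a hna (h2 _)
  have hearly : ∀ (n : ℕ) (H : Finset ℕ), H.Nonempty → (∀ i ∈ H, i < n) →
      H.biUnion G ∈ (S n).P := by
    intro n
    induction n with
    | zero =>
      intro H hne hH
      obtain ⟨i, hi⟩ := hne
      exact absurd (hH i hi) (by omega)
    | succ n ih =>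
      intro H hne hH
      by_cases hn : n ∈ H
      · have hins : H = insert n (H.erase n) := (Finset.insert_erase hn).symm
        by_cases hH' : (H.erase n).Nonempty
        · have h10 : (H.erase n).biUnion G ∈ (S n).P := by
            refine ih _ hH' ?_
            intro i hi
            have hi1 := Finset.mem_erase.1 hi
            have := hH i hi1.2
            have h12 : i ≠ n := hi1.1
            omega
          have h11 := h8 (S n) _ h10
          rw [hins, Finset.biUnion_insert, Finset.union_comm]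
          exact h11
        · rw [Finset.not_nonempty_iff_eq_empty] at hH'
          rw [hins, hH']
          simp only [insert_empty_eq, Finset.singleton_biUnion]
          exact h7 _
      · refine h6 (S n) (ih H hne ?_)
        intro i hi
        have := hH i hi
        have h12 : i ≠ n := fun h => hn (h ▸ hi)
        omega
  refine ⟨G, j, fun n => h1 _, ?_, ?_⟩
  · intro n a ha b hb
    exact h5 (S n) (G (n + 1)) (h2 (S (n + 1))) a ha b hb
  · intro H K hH hK hHK
    let b := K.min' hK
    have hbK : b ∈ K := K.min'_mem hK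
    have hb0 : 0 < b := by
      obtain ⟨a, ha⟩ := hH
      have := hHK a ha b hbK
      omega
    obtain ⟨m, hm⟩ : ∃ m, b = m + 1 := ⟨b - 1, by omega⟩
    have e1 : H.biUnion G ∈ (S (m + 1)).P := hearly (m + 1) H hH fun i hi => by
      rw [← hm]; exact hHK i hi b hbK
    have e2 : K.biUnion G ∈ (S (m + 1)).s := hlate _ K rfl hK (m + 1) fun i hi => by
      rw [← hm]; exact K.min'_le i hi
    exact h9 (S m) _ e1 _ e2

end Pool.Agent.Lib.MP_2a01b0_gt
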