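import Pool.Agent.Lib.MP_2a01b0_gt.Defs
import Pool.Agent.Lib.MP_2a01b0_gt.Core
import Mathlib.Order.Filter.Ultrafilter.Basic

set_option autoImplicit false

/-!
# Combinatorial consequences of `𝔲 < 𝔤`
-/

namespace Pool.Agent.Lib.MP_2a01b0_gt

open Cardinal

/-- `𝔲 < 𝔤` gives an ultrafilter with a base `ℬ` such that any `ℬ`-indexed family of groupwise
dense families has a common member. -/
theorem ug_extract (h : uNumber < gNumber) :
    ∃ (𝒲 : Ultrafilter ℕ) (ℬ : Set (Set ℕ)), (𝒲 : Filter ℕ) ≤ Filter.cofinite ∧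
      (𝒲 : Filter ℕ).HasBasis (fun B => B ∈ ℬ) id ∧
      ∀ 𝒢 : Set ℕ → Set (Set ℕ), (∀ B ∈ ℬ, GroupwiseDense (𝒢 B)) → ∃ Z, ∀ B ∈ ℬ, Z ∈ 𝒢 B := by
  have hne : {κ : Cardinal.{0} | ∃ (𝒲 : Ultrafilter ℕ) (ℬ : Set (Set ℕ)),
    (𝒲 : Filter ℕ) ≤ Filter.cofinite ∧ (𝒲 : Filter ℕ).HasBasis (fun B => B ∈ ℬ) id ∧
      #ℬ = κ}.Nonempty := by
    refine ⟨_, Filter.hyperfilter ℕ, {B | B ∈ (Filter.hyperfilter ℕ : Filter ℕ)},
      Filter.hyperfilter_le_cofinite, ?_, rfl⟩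
    exact Filter.basis_sets _
  obtain ⟨𝒲, ℬ, h1, h2, h3⟩ := csInf_mem hne
  refine ⟨𝒲, ℬ, h1, h2, fun 𝒢 h𝒢 => ?_⟩
  by_contra hcon
  push Not at hcon
  have hg : gNumber ≤ #(𝒢 '' ℬ) := by
    refine csInf_le' ⟨𝒢 '' ℬ, ?_, ?_, rfl⟩
    · rintro _ ⟨B, hB, rfl⟩
      exact h𝒢 B hB
    · rw [Set.eq_empty_iff_forall_notMem]
      intro Z hZ
      obtain ⟨B, hB, hZB⟩ := hcon Z
      exact hZB (hZ _ ⟨B, hB, rfl⟩)
  have hle : #(𝒢 '' ℬ) ≤ #ℬ := mk_image_le
  have : uNumber = #ℬ := h3.symm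
  rw [this] at h
  exact absurd (hg.trans hle) (not_le.2 h)

theorem exists_seq_gt (a : ℕ → ℕ) (ha : StrictMono a) (E : ℕ → ℕ) :
    ∃ i : ℕ → ℕ, StrictMono i ∧ ∀ l, E (a (i l + 1) - 1) < a (i (l + 1)) := by
  have h : ∀ _l j : ℕ, ∃ j', j < j' ∧ E (a (j + 1) - 1) < a j' := by
    intro _ j
    refine ⟨max (j + 1) (E (a (j + 1) - 1) + 1), by omega, ?_⟩
    have := ha.id_le (max (j + 1) (E (a (j + 1) - 1) + 1))
    simp only [id] at this
    omega
  obtain ⟨i, hi, _, hi'⟩ := exists_intervals h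
  exact ⟨i, hi, hi'⟩

/-- a family of functions indexed by `ℬ` is not dominating -/
theorem not_dominating {ℬ : Set (Set ℕ)}
    (hℬ : ∀ 𝒢 : Set ℕ → Set (Set ℕ), (∀ B ∈ ℬ, GroupwiseDense (𝒢 B)) → ∃ Z, ∀ B ∈ ℬ, Z ∈ 𝒢 B)
    (hne : ℬ.Nonempty)
    (e : Set ℕ → ℕ → ℕ) : ∃ h : ℕ → ℕ, ∀ B ∈ ℬ, ∃ n, e B n < h n := by
  classical
  -- monotone majorant
  let E : Set ℕ → ℕ → ℕ := fun B n => (Finset.range (n + 1)).sup (e B)
  have hE : ∀ B n, e B n ≤ E B n := fun B n => Finset.le_sup (f := e B) (by simp)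
  have hEm : ∀ B, Monotone (E B) := fun B n m hnm =>
    Finset.sup_mono (Finset.range_mono (by omega))
  obtain ⟨Y, hY⟩ := hℬ (fun B => {Y | Y.Infinite ∧ ∀ N, ∃ y ∈ Y, N ≤ y ∧
      ∀ y' ∈ Y, y < y' → E B y < y'}) (by
    intro B _
    refine ⟨fun Y hY => hY.1, ?_, ?_⟩
    · rintro Y ⟨_, hgap⟩ Z hZ hfin
      refine ⟨hZ, fun N => ?_⟩
      obtain ⟨N0, hN0⟩ := hfin.bddAbove
      obtain ⟨z0, hz0, hz0'⟩ := hZ.exists_gt (max N N0)
      obtain ⟨y, hy, hy1, hy2⟩ := hgap z0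
      -- the last element of `Z` below `y`
      obtain ⟨z, hz, hz1, hz2⟩ : ∃ z ∈ Z, z ≤ y ∧ ∀ z' ∈ Z, z' ≤ y → z' ≤ z := by
        have hne : (Finset.filter (fun z => z ∈ Z) (Finset.range (y + 1))).Nonempty :=
          ⟨z0, by simp; exact ⟨by omega, hz0⟩⟩
        refine ⟨_, (Finset.mem_filter.1 (Finset.max'_mem _ hne)).2, ?_, ?_⟩
        · have := (Finset.mem_filter.1 (Finset.max'_mem _ hne)).1
          have := Finset.mem_range.1 this
          omega
        · intro z' hz' hle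
          exact Finset.le_max' _ _ (Finset.mem_filter.2 ⟨Finset.mem_range.2 (by omega), hz'⟩)
      refine ⟨z, hz, ?_, ?_⟩
      · have := hz2 z0 hz0 hy1
        omega
      · intro z' hz' hlt
        have h1 : y < z' := by
          by_contra hcon
          have := hz2 z' hz' (not_lt.1 hcon)
          omega
        have h2 : z' ∈ Y := by
          by_contra hcon
          have := hN0 ⟨hz', hcon⟩
          omega
        exact lt_of_le_of_lt (hEm B hz1) (hy2 z' h2 h1)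
    · intro a ha _
      obtain ⟨i, hi, hi'⟩ := exists_seq_gt a ha (E B)
      have hmem : ∀ l y, a (i l) ≤ y → y < a (i l + 1) →
          y ∈ ⋃ n ∈ Set.range i, Set.Ico (a n) (a (n + 1)) := by
        intro l y h1 h2
        simp only [Set.mem_iUnion]
        exact ⟨i l, ⟨l, rfl⟩, h1, h2⟩
      refine ⟨Set.range i, Set.infinite_range_of_injective hi.injective, ?_, ?_⟩
      · rw [Set.infinite_iff_exists_gt]
        intro M
        refine ⟨a (i (M + 1)), hmem _ _ le_rfl (ha (Nat.lt_succ_self _)), ?_⟩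
        have h1 := ha.id_le (i (M + 1))
        have h2 := hi.id_le (M + 1)
        simp only [id] at h1 h2
        omega
      · intro N
        have h0 : a (i N) < a (i N + 1) := ha (Nat.lt_succ_self _)
        refine ⟨a (i N + 1) - 1, hmem N _ (by omega) (by omega), ?_, ?_⟩
        · have h1 := ha.id_le (i N)
          have h2 := hi.id_le N
          simp only [id] at h1 h2
          omega
        · intro y' hy' hlt
          simp only [Set.mem_iUnion] at hy'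
          obtain ⟨_, ⟨l, rfl⟩, hl1, hl2⟩ := hy'
          have h3 : N < l := by
            by_contra hcon
            have h4 : i l ≤ i N := hi.monotone (not_lt.1 hcon)
            have h5 : a (i l + 1) ≤ a (i N + 1) := ha.monotone (by omega)
            omega
          have h6 : i (N + 1) ≤ i l := hi.monotone h3
          have h7 : a (i (N + 1)) ≤ a (i l) := ha.monotone h6
          exact lt_of_lt_of_le (hi' N) (h7.trans hl1))
  obtain ⟨B0, hB0⟩ := hne
  have hYinf : Y.Infinite := (hY B0 hB0).1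
  choose nx hnx1 hnx2 using fun n => hYinf.exists_gt n
  refine ⟨nx, fun B hB => ?_⟩
  obtain ⟨y, hy, _, hy2⟩ := (hY B hB).2 0
  exact ⟨y, lt_of_le_of_lt (hE B y) (hy2 _ (hnx1 y) (hnx2 y))⟩

end Pool.Agent.Lib.MP_2a01b0_gt
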