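import Pool.Agent.Lib.MP_2a01b0_gt.UG
import Mathlib.Data.Set.Card

set_option autoImplicit false

/-!
# The main combinatorial lemma from `𝔲 < 𝔤`
-/

namespace Pool.Agent.Lib.MP_2a01b0_gt

open Cardinal

/-- `k` and `m` are not separated by `Z` -/
def NSep (Z : Set ℕ) (k m : ℕ) : Prop := ∀ z ∈ Z, z ≤ k ↔ z ≤ m

/-- maximal element of `I` with `b i ≤ k` -/
theorem exists_last {I : Set ℕ} {b : ℕ → ℕ} (hb : StrictMono b) {i₀ k : ℕ} (hi₀ : i₀ ∈ I)
    (hk : b i₀ ≤ k) : ∃ i ∈ I, b i ≤ k ∧ ∀ i' ∈ I, b i' ≤ k → i' ≤ i := by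
  classical
  have hne : (Finset.filter (fun i => i ∈ I ∧ b i ≤ k) (Finset.range (k + 1))).Nonempty := by
    refine ⟨i₀, Finset.mem_filter.2 ⟨Finset.mem_range.2 ?_, hi₀, hk⟩⟩
    have := hb.id_le i₀
    simp only [id] at this
    omega
  have hm := (Finset.mem_filter.1 (Finset.max'_mem _ hne)).2
  refine ⟨_, hm.1, hm.2, fun i' hi' hk' => Finset.le_max' _ _ (Finset.mem_filter.2
    ⟨Finset.mem_range.2 ?_, hi', hk'⟩)⟩
  have := hb.id_le i'
  simp only [id] at this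
  omega

theorem ug_main {𝒲 : Ultrafilter ℕ} {ℬ : Set (Set ℕ)}
    (h𝒲 : (𝒲 : Filter ℕ) ≤ Filter.cofinite)
    (hbasis : (𝒲 : Filter ℕ).HasBasis (fun B => B ∈ ℬ) id)
    (hℬ : ∀ 𝒢 : Set ℕ → Set (Set ℕ), (∀ B ∈ ℬ, GroupwiseDense (𝒢 B)) → ∃ Z, ∀ B ∈ ℬ, Z ∈ 𝒢 B)
    {𝒦 : Set (Set ℕ)}
    (h𝒦 : ∀ h : ℕ → ℕ, ∃ K ∈ 𝒦, ∀ n, (K ∩ Set.Iio (h n)).ncard ≤ 2 * n) :
    ∃ b : ℕ → ℕ, StrictMono b ∧ b 0 = 0 ∧ ∀ I : Set ℕ, I.Infinite →
      ∃ K ∈ 𝒦, (K \ ⋃ i ∈ I, Set.Ico (b i) (b (i + 1))).Finite := by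
  classical
  by_contra hcon
  push Not at hcon
  have hBmem : ∀ B ∈ ℬ, B ∈ 𝒲 := fun B hB => hbasis.mem_of_mem hB
  have hBinf : ∀ B ∈ ℬ, B.Infinite := by
    intro B hB hfin
    have h1 : Bᶜ ∈ (𝒲 : Filter ℕ) := h𝒲 (by simpa using hfin)
    exact 𝒲.compl_notMem_iff.2 (hBmem B hB) h1
  obtain ⟨B0, hB0, _⟩ := hbasis.mem_iff.1 (Filter.univ_mem (f := (𝒲 : Filter ℕ)))
  -- the groupwise dense families
  obtain ⟨Z, hZ⟩ := hℬ (fun B => {Z | Z.Infinite ∧ ∀ K ∈ 𝒦,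
      {k | k ∈ K ∧ ∃ m ∈ B, NSep Z k m}.Infinite}) (by
    intro B hB
    refine ⟨fun Z hZ => hZ.1, ?_, ?_⟩
    · rintro Z ⟨hZinf, hZ⟩ Z' hZ' hfin
      refine ⟨hZ', fun K hK => ?_⟩
      obtain ⟨N0, hN0⟩ := hfin.bddAbove
      obtain ⟨z0, hz0, hz0'⟩ := hZinf.exists_gt N0
      have h1 := (hZ K hK).sdiff (Set.finite_lt_nat z0)
      refine h1.mono ?_
      rintro k ⟨⟨hk, m, hm, hsep⟩, hkz⟩
      have hkz' : z0 ≤ k := not_lt.1 hkz
      have hmz : z0 ≤ m := (hsep z0 hz0).1 hkz'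
      refine ⟨hk, m, hm, fun z hz => ?_⟩
      by_cases hzZ : z ∈ Z
      · exact hsep z hzZ
      · have : z ≤ N0 := hN0 ⟨hz, hzZ⟩
        constructor <;> intro _ <;> omega
    · intro a ha ha0
      obtain ⟨j, hj, hj0, hjB⟩ := exists_intervals (R := fun _ j j' => ∃ m ∈ B,
        a (j + 1) ≤ m ∧ m < a j') (by
          intro _ j
          obtain ⟨m, hm, hm'⟩ := (hBinf B hB).exists_gt (a (j + 1))
          refine ⟨max (j + 1) (m + 1), by omega, m, hm, hm'.le, ?_⟩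
          have := ha.id_le (max (j + 1) (m + 1))
          simp only [id] at this
          omega)
      have hbmono : StrictMono fun i => a (j i) := ha.comp hj
      obtain ⟨I, hI, hIK⟩ := hcon (fun i => a (j i)) hbmono (by simp [hj0, ha0])
      refine ⟨j '' I, hI.image hj.injective.injOn, ?_, ?_⟩
      · rw [Set.infinite_iff_exists_gt]
        intro M
        obtain ⟨i, hi, hi'⟩ := hI.exists_gt M
        refine ⟨a (j i), ?_, ?_⟩
        · simp only [Set.mem_iUnion]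
          exact ⟨j i, ⟨i, hi, rfl⟩, le_rfl, ha (Nat.lt_succ_self _)⟩
        · have := hbmono.id_le i
          simp only [id] at this
          omega
      · intro K hK
        obtain ⟨i₀, hi₀⟩ := hI.nonempty
        have h1 := (hIK K hK).sdiff (Set.finite_lt_nat (a (j i₀)))
        refine h1.mono ?_
        rintro k ⟨⟨hk, hkI⟩, hk0⟩
        refine ⟨hk, ?_⟩
        obtain ⟨i, hi, hik, hmax⟩ := exists_last hbmono hi₀ (not_lt.1 hk0)
        have hki : a (j (i + 1)) ≤ k := by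
          by_contra hcon2
          refine hkI ?_
          simp only [Set.mem_iUnion]
          exact ⟨i, hi, hik, not_le.1 hcon2⟩
        obtain ⟨m, hm, hm1, hm2⟩ := hjB i
        refine ⟨m, hm, fun z hz => ?_⟩
        simp only [Set.mem_iUnion] at hz
        obtain ⟨_, ⟨i', hi', rfl⟩, hz1, hz2⟩ := hz
        rcases le_or_gt (a (j i')) k with h | h
        · have h2 : i' ≤ i := hmax i' hi' h
          have h3 : a (j i' + 1) ≤ a (j i + 1) := ha.monotone (by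
            have := hj.monotone h2
            omega)
          constructor <;> intro _ <;> omega
        · constructor <;> intro _ <;> omega)
  have hZinf : Z.Infinite := (hZ B0 hB0).1
  -- points of `B` in different classes
  have hsep : ∀ B ∈ ℬ, ∃ w : ℕ → ℕ, (∀ n, ∃ m ∈ B, w n ≤ m ∧ m < w (n + 1)) ∧
      (∀ n, w (n + 1) ∈ Z) ∧ StrictMono w := by
    intro B hB
    obtain ⟨w, hw, _, hw'⟩ := exists_intervals (R := fun _ j j' => (∃ m ∈ B, j ≤ m ∧ m < j') ∧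
      j' ∈ Z) (by
        intro _ j
        obtain ⟨m, hm, hm'⟩ := (hBinf B hB).exists_gt j
        obtain ⟨z, hz, hz'⟩ := hZinf.exists_gt m
        exact ⟨z, by omega, ⟨m, hm, hm'.le, hz'⟩, hz⟩)
    exact ⟨w, fun n => (hw' n).1, fun n => (hw' n).2, hw⟩
  choose! w hw1 hw2 hw3 using hsep
  obtain ⟨h, hh⟩ := not_dominating hℬ ⟨B0, hB0⟩ fun B n => w B (2 * n + 2)
  obtain ⟨K, hK, hKs⟩ := h𝒦 h
  -- `K^Z ∈ 𝒲`
  have hKW : {m | ∃ k ∈ K, NSep Z k m} ∈ 𝒲 := by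
    by_contra hnot
    have h1 : {m | ∃ k ∈ K, NSep Z k m}ᶜ ∈ 𝒲 := 𝒲.compl_mem_iff_notMem.2 hnot
    obtain ⟨B, hB, hBsub⟩ := hbasis.mem_iff.1 h1
    obtain ⟨k, hk, m, hm, hkm⟩ := ((hZ B hB).2 K hK).nonempty
    exact hBsub hm ⟨k, hk, hkm⟩
  obtain ⟨B, hB, hBsub⟩ := hbasis.mem_iff.1 hKW
  obtain ⟨n, hn⟩ := hh B hB
  -- find `2n+1` elements of `K`
  have hk : ∀ i, ∃ k ∈ K, k < w B (i + 1) ∧ (0 < i → w B i ≤ k) := by
    intro i
    obtain ⟨m, hm, hm1, hm2⟩ := hw1 B hB i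
    obtain ⟨k, hk, hkm⟩ := hBsub hm
    refine ⟨k, hk, ?_, fun hi => ?_⟩
    · by_contra hcon2
      have := (hkm _ (hw2 B hB i)).1 (not_lt.1 hcon2)
      omega
    · obtain ⟨i', rfl⟩ : ∃ i', i = i' + 1 := ⟨i - 1, by omega⟩
      exact (hkm _ (hw2 B hB i')).2 hm1
  choose k hkK hk1 hk2 using hk
  have hkmono : StrictMono k := by
    refine strictMono_nat_of_lt_succ fun i => ?_
    exact lt_of_lt_of_le (hk1 i) (hk2 (i + 1) (Nat.succ_pos i))
  have hcard : 2 * n + 1 ≤ (K ∩ Set.Iio (h n)).ncard := by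
    have h1 : (Finset.image k (Finset.range (2 * n + 1)) : Set ℕ) ⊆ K ∩ Set.Iio (h n) := by
      intro x hx
      simp only [Finset.coe_image, Set.mem_image, Finset.coe_range, Set.mem_Iio] at hx
      obtain ⟨i, hi, rfl⟩ := hx
      refine ⟨hkK i, ?_⟩
      have h2 : w B (i + 1) ≤ w B (2 * n + 2) := (hw3 B hB).monotone (by omega)
      have := hk1 i
      simp only [Set.mem_Iio]
      omega
    have h2 : (K ∩ Set.Iio (h n)).Finite := (Set.finite_Iio (h n)).subset Set.inter_subset_right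
    have h3 := Set.ncard_le_ncard h1 h2
    rw [Set.ncard_coe_finset, Finset.card_image_of_injective _ hkmono.injective,
      Finset.card_range] at h3
    exact h3
  have := hKs n
  omega

end Pool.Agent.Lib.MP_2a01b0_gt
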