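import Pool.Agent.Lib.MP_2a01b0_gt.UGMain
import Pool.Agent.Lib.MP_2a01b0_gt.Lindelof
import Pool.Agent.Lib.MP_2a01b0_gt.Markers
import Pool.Agent.Lib.MP_2a01b0_gt.Colour

set_option autoImplicit false

/-!
# Under `𝔲 < 𝔤` every space with (*) is Menger
-/

namespace Pool.Agent.Lib.MP_2a01b0_gt

open TopologicalSpace

theorem ug_side (hug : uNumber < gNumber) {X : Type*} [TopologicalSpace X] [T35Space X]
    [Infinite X] (hX : SumProp' X) : Menger X := by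
  classical
  by_contra hM
  obtain ⟨g, hg1, hg2, hg3⟩ := exists_funs hX hM
  obtain ⟨M⟩ := exists_marked hg1 hg2 hg3
  obtain ⟨𝒲, ℬ, h𝒲, hbasis, hℬ⟩ := ug_extract hug
  obtain ⟨b, hb, hb0, hbI⟩ := ug_main h𝒲 hbasis hℬ (𝒦 := M.K '' M.Q) (by
    intro h
    obtain ⟨x, hx, hx'⟩ := M.hK h
    exact ⟨_, ⟨x, hx, rfl⟩, hx'⟩)
  have hVp : ∀ F E, (∃ k ∈ F, M.p E ∈ M.U k) ↔ ¬ F ⊆ E := by
    intro F E
    constructor
    · rintro ⟨j, hj, h⟩ hsub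
      exact (M.hp E j).1 h (hsub hj)
    · intro h
      obtain ⟨j, hj, hjE⟩ := Finset.not_subset.1 h
      exact ⟨j, hj, (M.hp E j).2 hjE⟩
  refine not_sumProp M.U ?_ ?_ ?_ M.hinf hb hb0 ?_ hX
  · intro F F' h
    have h1 : ∀ E, F ⊆ E ↔ F' ⊆ E := by
      intro E
      have h2 := hVp F E
      have h3 := hVp F' E
      rw [h] at h2
      exact not_iff_not.1 (h2.symm.trans h3)
    exact Finset.Subset.antisymm ((h1 F').2 le_rfl) ((h1 F).1 le_rfl)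
  · intro k h
    have h1 : M.p ∅ ∈ M.U k := (M.hp _ _).2 (Finset.notMem_empty k)
    rw [h] at h1
    exact h1
  · exact fun F => ⟨M.p F, fun k hk h => (M.hp _ _).1 h hk⟩
  · intro I hI
    obtain ⟨_, ⟨x, hxQ, rfl⟩, hfin⟩ := hbI _ hI
    refine ⟨x, ((M.hQ x hxQ).union hfin).subset ?_⟩
    rintro k ⟨hk1, hk2⟩
    by_cases hkK : k ∈ M.K x
    · exact Or.inr ⟨hkK, hk2⟩
    · exact Or.inl ⟨hk1, hkK⟩

end Pool.Agent.Lib.MP_2a01b0_gt
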